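import Pool.Agent.Lib.MP_d439b2_co.F1.Defs

/-!
# MP_d439b2_co, F1: from closed bundles of the block graph to rainbows of the graph (helper40)

Every `S_...` is a statement to be proved in its own file `F1/<Name>.lean` (theorem `F1.p<Name> : S_<Name>`); the
docstring contains the complete proof.  The modules are independent: the other statements are hypotheses.  The final
statements are `S_F1` (stable base) and `S_Cq` (clique chains only).  `Exc` is `BT.Exc`.
-/

set_option autoImplicit false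

namespace Pool.Agent.MPd439b2.F1

open Pool.Agent.MPd439b2 Pool.Agent.MPd439b2.X2 Pool.Agent.MPd439b2.BT

/-- **Ra** (80 lines).  Homogeneous systems (uses `W.S_RamC`, proved as `W.ramC` in `W/RamC.lean`).

Proof. `N` = the number of `W.S_RamC` for `M + b + 3` indices and the colours `Fin L → Fin L → Fin 8 → Prop`: the colour of
`(k, l)` at `i, j` consists of the truth values of `x i k = x j l`, `x i k = x j k`, `G.Adj (x i k) (x j l)`,
`G.Adj (x i l) (x j k)`, `G.Adj (x i k) (x j k)`, `Exc S G (x i k) (x j l)`, `Exc S G (x i k) (x j k)`,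
`S.ρ (x i k) < S.ρ (x i l)`.  We get `s`; let `x' i k = x i (s k)`, `M' = M + b + 3` indices; all these truth values are
constant for `k < l < M'` (those which depend on `k` only: for `k < M' - 1`).
`neq`: for `k < l` let `x' i k = x' j l` be true; then `x' j 1 = x' i 0 = x' j 2`, against the injectivity of the row `j`
(`s` is strictly increasing).  For `l < k` exchange `i` and `j`.
`exc`: for `k < l` let `Exc S G (x' i k) (x' j l)` be true; then `x' i 0` has the `b + 1` different exceptional partners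
`x' j 1, .., x' j (b + 1)`, against `ExcB.deg` (`V` is finite).  For `l < k` use `Exc.symm`.
`mon`: if `S.ρ (x' i k) < S.ρ (x' i l)` is false for `k < l` then `S.ρ (x' i l) < S.ρ (x' i k)`, as `x' i k ≠ x' i l` are in
one class (`S.inj`).  `E i j`, `D i j`, `Q i j`, `X i j` are the constant values (`decide`, classical); use the indices
`k < M` only. -/
def S_Ra : Prop := ∀ L M b : ℕ, ∃ N : ℕ, ∀ (V : Type) [Finite V] (n : ℕ) (S : St V n)
  (G : SimpleGraph V) (x : ℕ → ℕ → V), ExcB S G b →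
  (∀ i < L, ∀ k < N, ∀ l < N, S.c (x i k) = S.c (x i l)) →
  (∀ i < L, ∀ k < N, ∀ l < N, x i k = x i l → k = l) →
  ∃ (s : ℕ → ℕ) (E D Q X : ℕ → ℕ → Bool), (∀ k l, k < l → l < M → s k < s l) ∧
    (∀ k < M, s k < N) ∧ Sy S G L M (fun i k => x i (s k)) E D Q X

/-- **Ki** (60 lines).  The kinds of links.

Proof. Write `u k = x i k`, `w k = x j k`.
(1) The classes of `u` and `w` are different: otherwise all pairs `u k, w l` (`u k ≠ w l` by `neq` and `Q i j = false`) are not
exceptional (`ExcB.cls`) and adjacent iff the class is a clique (`S.typ`, and `¬ Exc`), so `¬ Lk`.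
(2) Suppose `E i j = E j i = α`, `D i j ≠ α` (`Lk`).  If the pairs `u k, w k` are not exceptional: for `k ≠ l`
`S.G.Adj (u k) (w l)` iff `α` (`exc`), `S.G.Adj (u k) (w k)` iff `¬ α`.  Let `S.ρ (u 0) < S.ρ (u 1)` or the other way round;
by `S.see` one of `u 0`, `u 1` sees everything which the other one sees in the class of `w`.  But `u 0` and `u 1` are
distinguished by `w 0` and by `w 1` in different directions: contradiction.  So they are exceptional, `X i j = true`, and
`ExcB.typ` gives different types.  If `α = false` then `u, w` (the clique first) are a pattern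
`Rep.TP G m₀ true false false` (`M ≥ m₀`): adjacent iff `k = l`; against `Fr3.nt` (use `S.typ` and `¬ Exc` inside the
classes).  So `α = true` and `D i j = false`.
(3) Conversely if `X i j = true` then `Lk E D Q i j`: the classes are different (`ExcB.cls`), so `Q i j = false`; if
`E i j = E j i = D i j = α` then `S.G.Adj (u k) (w l)` iff `α` for `k ≠ l` and iff `¬ α` for `k = l`: the same
contradiction as in (2). -/
def S_Ki : Prop := ∀ (V : Type) (n b m₀ : ℕ) (S : St V n) (G : SimpleGraph V) (L M : ℕ)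
  (x : ℕ → ℕ → V) (E D Q X : ℕ → ℕ → Bool), ExcB S G b → Fr3 G m₀ → Sy S G L M x E D Q X → 3 ≤ M →
  m₀ ≤ M → ∀ i < L, ∀ j < L,
  (Lk E D Q i j → S.c (x i 0) ≠ S.c (x j 0) ∧ (Hf E i j ∨ (E i j = true ∧ E j i = true ∧
    D i j = false ∧ X i j = true ∧ S.t (S.c (x i 0)) ≠ S.t (S.c (x j 0))))) ∧
  (X i j = true → Lk E D Q i j)

/-- **Cor** (60 lines).  Corners give half graphs.

Proof. `u k = x i k`, `w k = x j k` are nodes, `a = S.c (u 0) ≠ d = S.c (w 0)` (`Cn`).  Suppose `E i j = E j i = α`.  As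
`u k, w l` (`k ≠ l`) are not exceptional, `S.G.Adj (u k) (w l)` iff `α` for `k ≠ l`.  Let `α = true`: on the merged line of `a, d`
(`Bef S a d`, `BT/Defs.lean`) `u 0` is before `w 1` and `u 1` is before `w 0`.  `u 0 ≠ u 1`, so by `bef_total` one of them is
before the other one.  If `u 0` is before `u 1`: `u 0 < u 1 < w 0`, so `u 0` is before `w 0` (`bef_trans`), `Cn` says that
there is no node between them (the other alternative of `Cn`, `w 0` before `u 0`, contradicts `bef_trans`, `bef_irrefl`), but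
`u 1` is a node between them: contradiction.  If `u 1` is before `u 0`: `u 1 < u 0 < w 1` in the same way.
`α = false`: `w 1` is before `u 0` and `w 0` is before `u 1`; compare `w 0` and `w 1`: `w 0 < w 1 < u 0` or `w 1 < w 0 < u 1`. -/
def S_Cor : Prop := ∀ (V : Type) (n : ℕ) (S : St V n) (G : SimpleGraph V) (L M : ℕ)
  (x : ℕ → ℕ → V) (E D Q X : ℕ → ℕ → Bool), Sy S G L M x E D Q X → 2 ≤ M → ∀ i < L, ∀ j < L,
  (∀ k < M, Nd S (x i k) ∧ Nd S (x j k) ∧ Cn S (x i k) (x j k)) → Hf E i j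

/-- **Sep** (50 lines).  Separators of windows.

Proof. Let `u` be the one of `A k`, `B k` which is nearer to the window `k + 1` (in the first case the one with the larger `ρ`,
in the second case the one with the smaller `ρ`), and `w` the one of `A (k + 1)`, `B (k + 1)` which is nearer to the window
`k`.  `u ≠ w` are nodes (`S.ρ u ≠ S.ρ w`), so `¬ Tw S u w` (`bl_eq`, `Nd`); as they are in one class there is `y` with
`S.c y ≠ a` and not (`S.G.Adj u y ↔ S.G.Adj w y`).  `τ := S.G.Adj u y`.  Let `v` be a vertex with `bl S v ∈ {A l, B l}`;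
`v` and `bl S v` are twins, so we may take `v = bl S v`.  If `l ≤ k` then `v` is not between `u` and `w` but on the side
of `u` (or `v = u`): by `S.see` (monotonicity in `ρ`, direction `S.s a (S.c y)`) `S.G.Adj v y ↔ S.G.Adj u y`: the
vertices `v, u, w` are in this order for `ρ` (or in the reversed one), and the set of the vertices of the class `a` which
see `y` is closed under going to one side; `u` and `w` disagree, so `v` agrees with `u`.  In the same way `v` agrees with
`w` for `k < l`. -/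
def S_Sep : Prop := ∀ (V : Type) (n : ℕ) (S : St V n) (a : Fin n) (M : ℕ) (A B : ℕ → V),
  (∀ k < M, S.c (A k) = a ∧ S.c (B k) = a ∧ Nd S (A k) ∧ Nd S (B k)) →
  ((∀ k l, k < l → l < M → S.ρ (A k) < S.ρ (A l) ∧ S.ρ (A k) < S.ρ (B l) ∧ S.ρ (B k) < S.ρ (A l) ∧
      S.ρ (B k) < S.ρ (B l)) ∨
    ∀ k l, k < l → l < M → S.ρ (A l) < S.ρ (A k) ∧ S.ρ (B l) < S.ρ (A k) ∧ S.ρ (A l) < S.ρ (B k) ∧
      S.ρ (B l) < S.ρ (B k)) →
  ∀ k, k + 1 < M → ∃ y : V, S.c y ≠ a ∧ Spt S M A B k y

/-- **Rw1** (130 lines).  The rows of a bundle (uses `S_Sep`, `W.S_RamC`).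

Proof. For `k < M'`, `j < r` let `e j k`, `f j k` be vertices with `bl S (e j k) = B k j`, `bl S (f j k) = A k (j + 1)` and
either `Exc S G (e j k) (f j k)`, or `e j k = B k j`, `f j k = A k (j + 1)` (nodes) and `Cn S (e j k) (f j k)`: from
`VTr.stp`, which is `Xr S G (B k j) (A k (j + 1))`.
(1) `W.S_RamC` (`M₂ + 1` indices, colours `Fin (R + 1) → Prop`: `S.ρ (A k j) < S.ρ (A l j)`; `r ≤ R`): pass to a subsequence
such that for every `j ≤ r` the windows of the rail `j` are increasing (for all `k < l`) or decreasing (for all `k < l`)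
(by the two alternatives of `VTr.sep`, which are determined by the truth value of `S.ρ (A k j) < S.ρ (A l j)`).
(2) `S_Sep` for every rail (`M₂ + 1` windows) gives `y j k` for `k < M₂`.
(3) `W.S_RamC` (`M` indices, colours `Fin (R + 1) → Fin n`: the classes of `y j k`, colour of `(k, l)`) makes the classes
of the `y j k` constant for `k + 1 < M` — take `M + 1` indices and use only the first `M`.
(4) `inj`: the nodes `B k j` (`A k (j + 1)`) are different for different `k` by `sep`; for `k < l` (indices `< M`)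
`y j k = y j l` is impossible: `y j k` distinguishes the windows `k` and `l`, but `y j l` does not (`Spt`, for the
vertices `A k j`, `A l j`, `bl S (A k j) = A k j`).
`Spt` for a subsequence `κ` (strictly increasing): if `y` separates the windows `≤ κ k` from the windows `> κ k` then it
does so for the subsequence.  All rows: `x (2 j) = e j`, `x (2 j + 1) = f j` (`j < r`), `x (2 r + j) = y j` (`j ≤ r`).
The number `M'` is the maximum over nothing: it depends on `n, R, M` only. -/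
def S_Rw1 : Prop := ∀ n R M : ℕ, ∃ M' : ℕ, ∀ (V : Type) (S : St V n) (G : SimpleGraph V)
  (i : Fin n) (r : ℕ) (A B : ℕ → ℕ → {x : V // Nd S x}) (χ : ℕ → Fin n), r ≤ R →
  VX.VTr (BGr S G) i M' r A B χ →
  ∃ (κ : ℕ → ℕ) (x : ℕ → ℕ → V), (∀ k l, k < l → l < M → κ k < κ l) ∧ (∀ k < M, κ k < M') ∧
    Rw S G M r (fun k j => (A (κ k) j).1) (fun k j => (B (κ k) j).1) χ x

/-- **Rw2** (130 lines).  The system of rows of a bundle (uses `S_Ra`, `S_Ki`, `S_Cor`).

Proof. `N` = the maximum of the numbers of `S_Ra` for `L = 3 r + 1`, `r ≤ R`, for `max M (max 3 m₀)` and `b`, plus `1` (and restrict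
`Rw`, `Sy` to fewer indices: all conditions are for indices below the bound; `Spt` too).  So let `Sy` be the system
`x i (s k)` (`M₁ = max M (max 3 m₀)` indices, `s k + 1 < N`).  Put `x' i k = x i (s k)`, `L = 3 r + 1`.
(4) Half links: `Hf E (2 j) (2 r + j)` (`j < r`) and `Hf E (2 j + 1) (2 r + j + 1)` (`j < r`): `y = x' (2 r + j) 1` and
`e = x' (2 j)`: by `Rw.sep` and `Rw.le` `S.G.Adj (e 0) y` iff `τ` and `S.G.Adj (e 2) y` iff `¬ τ` (`s 0 ≤ s 1 < s 2`); the
pairs have different indices, so they are not exceptional (`Sy.exc`); so `E (2 j) (2 r + j)` iff `τ` and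
`E (2 r + j) (2 j)` iff `¬ τ`.  The same for `f = x' (2 j + 1)` and `y = x' (2 r + (j + 1)) 1` with `Rw.en`.
(5) Links `2 j`, `2 j + 1`: if `X (2 j) (2 j + 1) = true`: `S_Ki`.  Otherwise the pairs are not exceptional
(`Sy.exd`), so by `Rw.stp` they are corners of nodes for all `k`: `S_Cor`; a half link is a link (`Q = true` would
imply `E i j = E j i`: both are `E i i`, as the rows are equal and `M₁ ≥ 3`).
(6) `2 j + 1` and `2 j + 2` are both half to `2 r + j + 1`.  So the sequence `p (3 j) = 2 j`, `p (3 j + 1) = 2 j + 1`,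
`p (3 j + 2) = 2 r + j + 1` (that is `p t = 2 (t / 3) + t % 3` if `t % 3 < 2`, else `2 r + t / 3 + 1`) with
`m = 3 r - 2` is a path from `0` to `2 r - 1 = 2 (r - 1) + 1`.
(7) Every row `i < L` has a half partner: `2 j` has `2 r + j`, `2 j + 1` has `2 r + j + 1`, `2 r + j` has `2 j` (`j < r`)
or `2 r - 1` (`j = r`).
(8) If all classes `χ j` (`j ≤ r`) are cliques then no pair `2 j, 2 j + 1` is exceptional (`ExcB.typ`, `Rw.le`, `Rw.en`),
so all links in (6) are half. -/
def S_Rw2 : Prop := ∀ n b m₀ R M : ℕ, ∃ N : ℕ, ∀ (V : Type) [Finite V] (S : St V n)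
  (G : SimpleGraph V) (r : ℕ) (A B : ℕ → ℕ → V) (χ : ℕ → Fin n) (x : ℕ → ℕ → V), ExcB S G b →
  Fr3 G m₀ → 1 ≤ r → r ≤ R → Rw S G N r A B χ x →
  ∃ (s : ℕ → ℕ) (E D Q X : ℕ → ℕ → Bool), (∀ k l, k < l → l < M → s k < s l) ∧ (∀ k < M, s k < N) ∧
    Sy S G (3 * r + 1) M (fun i k => x i (s k)) E D Q X ∧
    (∀ j < 3 * r + 1, ∃ y < 3 * r + 1, Hf E j y) ∧
    (∃ (m : ℕ) (p : ℕ → ℕ), p 0 = 0 ∧ p m = 2 * r - 1 ∧ (∀ t ≤ m, p t < 3 * r + 1) ∧
      ∀ t < m, Lk E D Q (p t) (p (t + 1))) ∧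
    ((∀ j ≤ r, S.t (χ j) = true) → ∃ (m : ℕ) (p : ℕ → ℕ), p 0 = 0 ∧ p m = 2 * r - 1 ∧
      (∀ t ≤ m, p t < 3 * r + 1) ∧ ∀ t < m, Hf E (p t) (p (t + 1)))

/-- **Sht** (80 lines).  Shortest paths (pure combinatorics).

`Kr` is a symmetric relation on the rows, `Qr` an equivalence relation with `Qr i j → (Kr i k ↔ Kr j k)` and no `Kr` inside a
class of `Qr`; `Wr` is any relation.

Proof. Among all `(m, p)` with `p 0 = a`, `p m = d`, `p t < L` (`t ≤ m`) and `Kr (p t) (p (t + 1))` (`t < m`) take those with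
the smallest `m` (`Nat.find`), and among these one with the smallest number of `t < m` with `Wr (p t) (p (t + 1))`.
(1) If `s + 2 ≤ t ≤ m` then `¬ Kr (p s) (p t)`: otherwise `p' u = p u` for `u ≤ s`, `p' u = p (u + t - s - 1)` for `u > s`, is
shorter.  (2) If `s < t ≤ m` then `¬ Qr (p s) (p t)`: `t = s + 1` contradicts `Kr (p s) (p (s + 1))`.  Let `s + 2 ≤ t`.  If `t < m`:
`Kr (p t) (p (t + 1))` gives `Kr (p s) (p (t + 1))`, against (1).  If `t = m` and `0 < s`: `Kr (p (s - 1)) (p s)` gives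
`Kr (p (s - 1)) (p t)`, against (1).  If `s = 0`, `t = m`: `Qr a d`, excluded by hypothesis.
(3) Let `t + 2 ≤ m`, `Wr (p t) (p (t + 1))`, `Wr (p (t + 1)) (p (t + 2))`, `y < L`, `Kr (p t) y`, `Kr y (p (t + 2))` and
suppose `¬ Wr (p t) y`: replacing `p (t + 1)` by `y` gives a path of the same length in which the step `t` is not `Wr`, the
step `t + 1` may be `Wr` (it was `Wr` before) and the other steps are the same: fewer `Wr` steps, contradiction. -/
def S_Sht : Prop := ∀ (L a d : ℕ) (Kr Qr Wr : ℕ → ℕ → Prop), (∀ i < L, ∀ j < L, Kr i j → Kr j i) →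
  (∀ i < L, ∀ j < L, Qr i j → Qr j i) → (∀ i < L, ∀ j < L, ∀ k < L, Qr i j → Kr i k → Kr j k) →
  (∀ i < L, ∀ j < L, Qr i j → ¬ Kr i j) → ¬ Qr a d →
  (∃ (m : ℕ) (p : ℕ → ℕ), p 0 = a ∧ p m = d ∧ (∀ t ≤ m, p t < L) ∧ ∀ t < m, Kr (p t) (p (t + 1))) →
  ∃ (m : ℕ) (p : ℕ → ℕ), p 0 = a ∧ p m = d ∧ (∀ t ≤ m, p t < L) ∧ (∀ t < m, Kr (p t) (p (t + 1))) ∧
    (∀ s t, s + 2 ≤ t → t ≤ m → ¬ Kr (p s) (p t)) ∧ (∀ s t, s < t → t ≤ m → ¬ Qr (p s) (p t)) ∧
    ∀ t, t + 2 ≤ m → ∀ y < L, Wr (p t) (p (t + 1)) → Wr (p (t + 1)) (p (t + 2)) → Kr (p t) y →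
      Kr y (p (t + 2)) → Wr (p t) y

/-- **f2** (helper40, from `FT.f2`): `u = v = u'`, `y` half to `u`, `u'` complete or anticomplete to `u` and to `y`:
impossible.  Rows `0 = u`, `1 = v`, `2 = u'`, `3 = y`; bits as in `FT.HR`: `F (16 i + j)`: adjacency for `k < l`,
`F (256 + 16 i + j)` (`i < j`): adjacency for `k = l`. -/
def S_f2 : Prop := ∀ (V : Type) (G : SimpleGraph V), ¬ IMS (KA 3 3 ![{0}, {1}, {0, 2}]) G Set.univ →
  ¬ IMS (F9.JS ![0, 1, 1] 2) G Set.univ → ∀ (x : ℕ → ℕ → V) (F : ℕ → Bool), FT.HR G 4 16 x F →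
  F 1 = true → F 16 = true → F 257 = false → F 0 ≠ F 17 →
  F 18 = true → F 33 = true → F 274 = false → F 17 ≠ F 34 →
  F 2 = F 32 → F 258 = F 2 → F 3 ≠ F 48 → F 35 = F 50 → F 291 = F 35 → False

/-- **Pth** (100 lines).  A chordless track of rows (uses `S_Ki`, `S_Sht`, `S_f2`).

Proof. `S_Sht` for `Kr i j = Lk E D Q i j`, `Qr i j = (Q i j = true)`, `Wr i j = ¬ Hf E i j`.  Symmetry of `Lk`: `E i j`, `E j i` are
exchanged, `D i j = D j i`, `Q i j = Q j i` (index `0`).  `Qr` is an equivalence by `eq`; `Q i j = true` implies that the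
rows are equal, so `E i k = E j k`, `E k i = E k j`, `D i k = D j k`, `Q i k = Q j k` (`2 ≤ M`).
We get `m`, `p`.  `Tk` for `z t k = x (p t) k`: `dis` from `neq`, and `eq` with `Q (p s) (p t) = false` (`¬ Qr`); `cn`: from
`¬ Kr` and `Q = false`; `st`: from `S_Ki`: `E i i` is the type of the class of the row `i` (`x i 0`, `x i 1` are different,
in one class, not exceptional by `exc`, `S.typ`).
`ee`: let `t + 2 ≤ m` and suppose that both steps `t`, `t + 1` are not half.  `y` = half partner of `p t`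
(hypothesis); `Lk E D Q (p t) y` (`Q (p t) y = true` implies `E (p t) y = E y (p t)`).  If `Lk E D Q y (p (t + 2))`: the last
property of `S_Sht` gives `¬ Hf E (p t) y`: contradiction.  Otherwise: `Q y (p (t + 2)) = true` is impossible, since then
`Lk E D Q (p t) (p (t + 2))`, against the third property of `S_Sht`.  So `E y (p (t + 2)) = E (p (t + 2)) y = D y (p (t + 2))`,
and `S_f2` for the rows `p t, p (t + 1), p (t + 2), y` gives a contradiction (`M ≥ 16`; the four rows are different: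
`y` is half to `p t`, the others are not; `F (16 i + j) = E _ _`, `F (256 + 16 i + j) = D _ _`). -/
def S_Pth : Prop := ∀ (V : Type) (n b m₀ : ℕ) (S : St V n) (G : SimpleGraph V) (L M : ℕ)
  (x : ℕ → ℕ → V) (E D Q X : ℕ → ℕ → Bool), ExcB S G b → Fr3 G m₀ → Sy S G L M x E D Q X → 16 ≤ M →
  m₀ ≤ M → ∀ a < L, ∀ d < L, Q a d = false → (∀ j < L, ∃ y < L, Hf E j y) →
  (∃ (m : ℕ) (p : ℕ → ℕ), p 0 = a ∧ p m = d ∧ (∀ t ≤ m, p t < L) ∧ ∀ t < m, Lk E D Q (p t) (p (t + 1))) →
  ∃ (m : ℕ) (p : ℕ → ℕ), p 0 = a ∧ p m = d ∧ (∀ t ≤ m, p t < L) ∧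
    Tk G M m (fun t k => x (p t) k) (fun s t => E (p s) (p t)) (fun s t => D (p s) (p t))

/-- **PthH** (70 lines).  A chordless track of rows with half steps only (uses `S_Sht`).

Proof. `S_Sht` for `Kr i j = Hf E i j`, `Qr i j = (Q i j = true)` and `Wr i j = False`.  (`Q i j = true` implies that the
rows are equal, so `E i k = E j k`, `E k i = E k j`; `Q i j → E i j = E j i`.)  We get `m`, `p`.  `z t k = x (p t) (K k + t)`,
`K = m + 1`, and `M' = K * M` indices.  But `m` is not bounded: if `m ≥ 9` use only the rails `0, .., 9`: the conclusion is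
`Tk` for `min m 9` and `z t k = x (p t) (10 * k + t)`.  `dis`: different indices, or `k ≠ l`; `10 k + s = 10 l + t` with
`s, t ≤ 9` implies `k = l`, `s = t`.  `rel`, `dg`: for `k < l`, or `k = l` and `s < t`, `10 k + s < 10 l + t`, so
`G.Adj (z s k) (z t l)` iff `E (p s) (p t)`: so `D` of the track is `E`.  `cn`: `¬ Hf`.  `st`, `ee`: `Hf`. -/
def S_PthH : Prop := ∀ (V : Type) (n : ℕ) (S : St V n) (G : SimpleGraph V) (L M : ℕ)
  (x : ℕ → ℕ → V) (E D Q X : ℕ → ℕ → Bool), Sy S G L (10 * M) x E D Q X → 2 ≤ M →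
  ∀ a < L, ∀ d < L, Q a d = false →
  (∃ (m : ℕ) (p : ℕ → ℕ), p 0 = a ∧ p m = d ∧ (∀ t ≤ m, p t < L) ∧ ∀ t < m, Hf E (p t) (p (t + 1))) →
  ∃ (m : ℕ) (p : ℕ → ℕ), p 0 = a ∧ p m = d ∧ (∀ t ≤ m, p t < L) ∧ (∀ t < m, Hf E (p t) (p (t + 1))) ∧
    Tk G M (min m 9) (fun t k => x (p t) (10 * k + t)) (fun s t => E (p s) (p t))
      (fun s t => E (p s) (p t))

/-- **Len** (helper40).  Chordless tracks have at most 9 rails (`FV.T10.no10`). -/
def S_Len : Prop := ∀ (V : Type) (G : SimpleGraph V) (m₀ M m : ℕ) (z : ℕ → ℕ → V)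
  (E D : ℕ → ℕ → Bool), Fr3 G m₀ → 16 ≤ M → Tk G M m z E D → m ≤ 8

/-- **Mn** (60 lines).  Monotonicity along the base.

Proof. If `S.c (x u 0) = i`, all four truth values are `S.t i` (`S.typ`, `exc`; the indices are different, so the vertices
are different).  Otherwise take the vertex `z = x u 1` and the four vertices `v 0 = x a 0`, `v 1 = x a 2`, and
`v 2 = x d 0`, `v 3 = x d 2` (if `o`), resp. `v 2 = x d 2`, `v 3 = x d 0` (if not `o`): they are in the class `i` with
increasing `ρ` (`Ba`).  The indices are different from `1`, so `G` and `S.G` agree on these pairs (`exc`), and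
`G.Adj (v 0) z` iff `E a u`, `G.Adj (v 1) z` iff `E u a`, and so on.  By `S.see` (or `S.dn`, `S.up`) the set of the
vertices of the class `i` which see `z` is closed to one side (direction `S.s i (S.c z)`): `M4`. -/
def S_Mn : Prop := ∀ (V : Type) (n : ℕ) (S : St V n) (G : SimpleGraph V) (L M : ℕ)
  (x : ℕ → ℕ → V) (E D Q X : ℕ → ℕ → Bool) (i : Fin n) (a d : ℕ) (o : Bool),
  Sy S G L M x E D Q X → 3 ≤ M → a < L → d < L → Ba S i M x a d o → ∀ u < L,
  M4 (E a u) (E u a) (bif o then E d u else E u d) (bif o then E u d else E d u)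

/-- **Clo** (helper40).  Closed chordless tracks with a stable base (tables `FV/Clos.lean`, `FV/Wit.lean`; uses `S_Ki`,
`S_Mn`). -/
def S_Clo : Prop := ∀ (V : Type) (n b m₀ : ℕ) (S : St V n) (G : SimpleGraph V) (L M : ℕ)
  (x : ℕ → ℕ → V) (E D Q X : ℕ → ℕ → Bool) (i : Fin n) (a d m : ℕ) (p : ℕ → ℕ) (o : Bool),
  ExcB S G b → Fr3 G m₀ → Sy S G L M x E D Q X → 16 ≤ M → m₀ ≤ M → (∀ j < L, ∃ y < L, Hf E j y) →
  p 0 = a → p m = d → (∀ t ≤ m, p t < L) → m ≤ 8 →
  Tk G M m (fun t k => x (p t) k) (fun s t => E (p s) (p t)) (fun s t => D (p s) (p t)) →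
  S.t i = false → Ba S i M x a d o → o = false ∧ ∃ σ q, Ou L E D X a d σ q

/-- **ClQ** (helper40).  Closed chordless tracks with half steps only and a clique base do not exist (tables; in the track
the adjacency for `k = l`, `s < t` is the same as for `k < l`).  The truth values along the base decrease. -/
def S_ClQ : Prop := ∀ (V : Type) (G : SimpleGraph V) (m₀ M m : ℕ) (z : ℕ → ℕ → V)
  (E : ℕ → ℕ → Bool) (o : Bool), Fr3 G m₀ → 16 ≤ M → 2 ≤ m → m ≤ 8 → Tk G M m z E E →
  (∀ t < m, Hf E t (t + 1)) → E 0 0 = true → E m m = true → E 0 m = true → E m 0 = true →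
  (∀ u < m, 0 < u → (E u 0 = true → E 0 u = true) ∧ ((bif o then E m u else E u m) = true → E u 0 = true) ∧
    ((bif o then E u m else E m u) = true → (bif o then E m u else E u m) = true)) → False

/-- **Out** (90 lines).  The rainbow.

Proof. `M = 5 * N`.  `δ 0 = 0`, `δ 1 = 2`, `δ 2 = 2`, `δ 3 = 1`, `δ 4 = 3` and
`R' j k = x (q j) (5 * N - 1 - (5 * k + δ j))` for `j < 5`, `k < N` (the index is `< 5 N` and `≥ 0` in the strict sense:
`5 k + δ j ≤ 5 N - 2`).  `ι j k = 5 * N - 1 - (5 * k + δ j)`: for `k < l`: `ι i l < ι j k`; for `k = l`: `ι i k < ι j k` iff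
`δ j < δ i`.
`Rain` (see `CE/Defs.lean`): `dis`: `ι i k ≠ ι j l` except for (`i = j`, `k = l`) and `{i, j} = {1, 2}`, `k = l`; in the
last case `X (q 1) (q 2) = true`, so the pair is exceptional and the vertices are different (both graphs have no
loops).  `rel`: for `k < l`: `ι j l < ι i k`, so `G.Adj (R' i k) (R' j l)` iff `E (q j) (q i) = rb i j` (`Ou.tab`).
`dg`: for `i < j`: the pairs `(i, j)` with `δ i < δ j`: `ι j k < ι i k`, `G.Adj` iff `E (q j) (q i) = rb i j`:
`(0, 1)`: `rb 0 1 = true = db 0 1`; `(0, 2)`: `false`; `(0, 3)`: `false`; `(0, 4)`: `false`; `(1, 4)`: `rb 1 4 = true`; `(2, 4)`: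
`false`; `(3, 4)`: `rb 3 4 = true`; with `δ j < δ i`: `G.Adj` iff `E (q i) (q j) = rb j i`: `(1, 3)`: `rb 3 1 = true`;
`(2, 3)`: `rb 3 2 = true = db 2 3`; and `(1, 2)`: `D (q 1) (q 2) = false = db 1 2`.
`cu`, `ct`: `Ou.lft`, `Ou.rgt`, `Ba`.  `cls`: `Sy.cls`.  `tc`, `ts`, `tw`: `E (q j) (q j) = rb j j` is the type of the class of
the row `q j` (`2 ≤ M`: `x (q j) 0`, `x (q j) 1` different, in one class, not exceptional, `S.typ`); `N ≥ 1` where
there is an index `k < N`.  `mate`: `Sy.exd`, `X = true`.  `exc`: different indices are not exceptional (`Sy.exc`); equal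
indices: `j = j'`, `k = l` (not exceptional, `x, x`), or `{j, j'} = {1, 2}`, `k = l`.
`dec`: `LL σ R' k = x a (ι _ k)`, `inc`: `RL σ R' k = x d (ι _ k)` with `o = false`, `bet`: from `Ba`. -/
def S_Out : Prop := ∀ (V : Type) (n b : ℕ) (S : St V n) (G : SimpleGraph V) (L N : ℕ)
  (x : ℕ → ℕ → V) (E D Q X : ℕ → ℕ → Bool) (i : Fin n) (a d : ℕ) (σ : Bool) (q : ℕ → ℕ),
  ExcB S G b → Sy S G L (5 * N) x E D Q X → Ba S i (5 * N) x a d false → Ou L E D X a d σ q →
  ∃ (R' : ℕ → ℕ → V) (κ κ' : ℕ → ℕ), CE.Rain S G i σ N R' ∧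
    (∀ k < N, κ k < 5 * N ∧ CE.LL σ R' k = x a (κ k)) ∧ ∀ k < N, κ' k < 5 * N ∧ CE.RL σ R' k = x d (κ' k)

/-- **F1** (80 lines).  **Closed bundles with a stable base** (uses `S_Rw1`, `S_Rw2`, `S_Pth`, `S_Len`, `S_Clo`, `S_Out`).

Proof. `M₁ = 5 N + m₀ + 16`; `N₂` the number of `S_Rw2` for `M₁`, `M` the number of `S_Rw1` for `N₂`.  Both for `Ps` and `Rb` let
`VTr` be given (`tr`), `2 ≤ r`.  `S_Rw1`: `κ, x`, `S_Rw2`: `s, E, D, Q, X`.  `a = 0`, `d = 2 r - 1`: `Rw.le` for `j = 0`: `x 0 k`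
has the node `B (κ k) 0 = A (κ k) 0` (`VTr.fst`) and class `χ 0 = i`; `Rw.en` for `j = r - 1`: `x (2 r - 1) k` has the node
`A (κ k) r`, class `χ r = i`.  `Ba` for the rows `0`, `2 r - 1` of the system `x _ (s k)`, `o = true` for `Ps`,
`o = false` for `Rb`: if the nodes satisfy `ρ (bl u) < ρ (bl w)` then `ρ u < ρ w` (`bl_mono`).  `Q 0 (2 r - 1) = false`:
`Ba.bet`.  `S_Pth`: the track; `S_Len`: `m ≤ 8`; `S_Clo`: `o = false` (so there is no `Ps`), and `Ou`.  For `Rb` apply `S_Out`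
to the system restricted to `5 N` indices: `R', κ₁, κ₁'`; put `κ₂ k = κ (s (κ₁ k))`, `κ₂' k = κ (s (κ₁' k))`. -/
def S_F1 : Prop := ∀ n b m₀ R N : ℕ, ∃ M : ℕ, ∀ (V : Type) [Finite V] (S : St V n)
  (G : SimpleGraph V), ExcB S G b → Fr3 G m₀ → ∀ (i : Fin n) (r : ℕ)
  (A B : ℕ → ℕ → {x : V // Nd S x}) (χ : ℕ → Fin n), S.t i = false → r ≤ R →
  ¬ Ps (BGr S G) i M r A B χ ∧ (Rb (BGr S G) i M r A B χ →
    ∃ (σ : Bool) (R' : ℕ → ℕ → V) (κ κ' : ℕ → ℕ), CE.Rain S G i σ N R' ∧
      (∀ k < N, κ k < M ∧ bl S (CE.LL σ R' k) = (A (κ k) 0).1) ∧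
      ∀ k < N, κ' k < M ∧ bl S (CE.RL σ R' k) = (A (κ' k) r).1)

/-- **Cq** (80 lines).  **Closed bundles of clique chains** (uses `S_Rw1`, `S_Rw2`, `S_PthH`, `S_Len`, `S_Mn`, `S_ClQ`).

Proof. `M₁ = 10 * 16` (`≥ 160`); `N₂` the number of `S_Rw2` for `M₁`, `M` the number of `S_Rw1` for `N₂`.  As in the proof of
`S_F1` we get the system `Sy` with `160 = 10 * 16` indices, `Ba` with `o = true` for `Ps`, `o = false` for `Rb`, and the
half path by the last property of `S_Rw2`.  `S_PthH` with `M = 16`: `m, p` and the track `Tk G 16 (min m 9) z E' E'` with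
`E' s t = E (p s) (p t)`.  `S_Len`: `min m 9 ≤ 8`, so `m ≤ 8` and `min m 9 = m`.  `2 ≤ m`: `m = 0` is impossible as `Q a d = false`
(`Q a a = true`); `m = 1`: the rows `a`, `d` are in the class `i`, so `E a d = E d a = S.t i`, no half link.  `E' 0 0`,
`E' m m`, `E' 0 m`, `E' m 0` are `S.t i = true` (`S.typ`, `exc`; `χ 0 = i`).  The truth values along the base: `S_Mn` gives
`M4`; they decrease since the direction is `S.s i _ = true` (`ExcB.sgn`): argue as in `S_Mn` directly: for `u < m`,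
`z = x (p u) 1` and the vertices `x a 0`, `x a 2`, .. of the class `i` in increasing order, `S.dn`; for
`S.c (x (p u) 0) = i` all truth values are `true`.  `S_ClQ`: contradiction. -/
def S_Cq : Prop := ∀ n b m₀ R : ℕ, ∃ M : ℕ, ∀ (V : Type) [Finite V] (S : St V n)
  (G : SimpleGraph V), ExcB S G b → Fr3 G m₀ → ∀ (i : Fin n) (r : ℕ)
  (A B : ℕ → ℕ → {x : V // Nd S x}) (χ : ℕ → Fin n), (∀ j ≤ r, S.t (χ j) = true) → r ≤ R →
  ¬ Ps (BGr S G) i M r A B χ ∧ ¬ Rb (BGr S G) i M r A B χ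

end Pool.Agent.MPd439b2.F1
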