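import Pool.Agent.Lib.MP_d439b2_co.F1.Tab
import Pool.Agent.Lib.MP_d439b2_co.FV.ClQ

/-!
# MP_d439b2_co, F1: closed chordless tracks with half steps and a clique base (helper40)
-/

set_option autoImplicit false

namespace Pool.Agent.MPd439b2.F1

open Pool.Agent.MPd439b2

variable {V : Type}

/-- the tables which are excluded by half steps -/
def hK (r : ℕ) : List (ℕ × ℕ) :=
  (List.range r).flatMap fun t => [(0, FT.mk [16 * t + (t + 1), 16 * (t + 1) + t]),
    (FT.mk [16 * t + (t + 1), 16 * (t + 1) + t], 0), (FT.mk [256 + 16 * t + (t + 1)], FT.mk [16 * t + (t + 1)]),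
    (FT.mk [16 * t + (t + 1)], FT.mk [256 + 16 * t + (t + 1)])]

theorem mt_nil_left {F : ℕ → Bool} {ns : List ℕ} (h : FT.Mt 0 (FT.mk ns) F) : ∀ b ∈ ns, F b = false :=
  fun b hb => h.2 b ((FT.testBit_mk ns b).2 hb)

theorem mt_nil_right {F : ℕ → Bool} {ps : List ℕ} (h : FT.Mt (FT.mk ps) 0 F) : ∀ b ∈ ps, F b = true :=
  fun b hb => h.1 b ((FT.testBit_mk ps b).2 hb)

theorem hK_no {E : ℕ → ℕ → Bool} {r : ℕ} (hr : r < 16) (h : ∀ t < r, Hf E t (t + 1)) :
    ∀ k ∈ hK r, ¬ FT.Mt k.1 k.2 (tb E E) := by
  intro k hk hM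
  obtain ⟨t, ht, hk⟩ := List.mem_flatMap.1 hk
  rw [List.mem_range] at ht
  have h0 := h t ht
  unfold Hf at h0
  have e1 : tb E E (16 * t + (t + 1)) = E t (t + 1) := tb_e E E (by omega) (by omega)
  have e2 : tb E E (16 * (t + 1) + t) = E (t + 1) t := tb_e E E (by omega) (by omega)
  have e3 : tb E E (256 + 16 * t + (t + 1)) = E t (t + 1) := tb_d E E (by omega)
  simp only [List.mem_cons, List.not_mem_nil, or_false] at hk
  rcases hk with rfl | rfl | rfl | rfl
  · have h1 := mt_nil_left hM
    have h2 := h1 (16 * t + (t + 1)) (by simp)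
    have h3 := h1 (16 * (t + 1) + t) (by simp)
    rw [e1] at h2
    rw [e2] at h3
    exact h0 (h2.trans h3.symm)
  · have h1 := mt_nil_right hM
    have h2 := h1 (16 * t + (t + 1)) (by simp)
    have h3 := h1 (16 * (t + 1) + t) (by simp)
    rw [e1] at h2
    rw [e2] at h3
    exact h0 (h2.trans h3.symm)
  · obtain ⟨h1, h2⟩ := mt_mk hM
    have h3 := h1 _ (List.mem_cons_self)
    have h4 := h2 _ (List.mem_cons_self)
    rw [e3] at h3
    rw [e1] at h4
    rw [h3] at h4
    exact absurd h4 (by decide)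
  · obtain ⟨h1, h2⟩ := mt_mk hM
    have h3 := h1 _ (List.mem_cons_self)
    have h4 := h2 _ (List.mem_cons_self)
    rw [e1] at h3
    rw [e3] at h4
    rw [h3] at h4
    exact absurd h4 (by decide)

/-- the tables which are not decreasing along the base -/
def dK (m : ℕ) (o : Bool) : List (ℕ × ℕ) :=
  (List.range (m - 1)).flatMap fun t => dn4 (16 * 0 + (t + 1)) (16 * (t + 1) + 0)
    (bif o then 16 * m + (t + 1) else 16 * (t + 1) + m) (bif o then 16 * (t + 1) + m else 16 * m + (t + 1))

theorem dK_no {E D : ℕ → ℕ → Bool} {m : ℕ} {o : Bool} (hm : m < 16)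
    (h : ∀ u < m, 0 < u → (E u 0 = true → E 0 u = true) ∧
      ((bif o then E m u else E u m) = true → E u 0 = true) ∧
      ((bif o then E u m else E m u) = true → (bif o then E m u else E u m) = true)) :
    ∀ k ∈ dK m o, ¬ FT.Mt k.1 k.2 (tb E D) := by
  intro k hk
  obtain ⟨t, ht, hk⟩ := List.mem_flatMap.1 hk
  rw [List.mem_range] at ht
  obtain ⟨h1, h2, h3⟩ := h (t + 1) (by omega) (by omega)
  have e1 : tb E D (16 * 0 + (t + 1)) = E 0 (t + 1) := tb_e E D (by omega) (by omega)
  have e2 : tb E D (16 * (t + 1) + 0) = E (t + 1) 0 := tb_e E D (by omega) (by omega)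
  have e3 : tb E D (16 * m + (t + 1)) = E m (t + 1) := tb_e E D (by omega) (by omega)
  have e4 : tb E D (16 * (t + 1) + m) = E (t + 1) m := tb_e E D (by omega) (by omega)
  refine dn4_no ?_ ?_ ?_ k hk
  · rw [e1, e2]
    exact h1
  · cases o
    · rw [cond_false, cond_false] at *
      rw [e4, e2]
      exact h2
    · rw [cond_true, cond_true] at *
      rw [e3, e2]
      exact h2
  · cases o
    · simp only [cond_false] at *
      rw [e3, e4]
      exact h3
    · simp only [cond_true] at *
      rw [e3, e4]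
      exact h3

theorem pClQ : S_ClQ := by
  intro V G m₀ M m z E o hF hM h2 h8 hT hH e1 e2 e3 e4 hd
  rcases Nat.lt_or_ge m 4 with hm | hm
  · have hK : ∀ k ∈ hK m ++ dK m o, ¬ FT.Mt k.1 k.2 (tb E E) := by
      intro k hk
      rcases List.mem_append.1 hk with hk | hk
      · exact hK_no (by omega) hH k hk
      · exact dK_no (by omega) hd k hk
    have hbits : ∀ b ∈ [16 * 0 + 0, 16 * 0 + m, 16 * m + 0, 16 * m + m, 256 + 16 * 0 + m], tb E E b = true := by
      intro b hb
      simp only [List.mem_cons, List.not_mem_nil, or_false] at hb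
      rcases hb with rfl | rfl | rfl | rfl | rfl
      · rw [tb_e E E (by omega) (by omega)]; exact e1
      · rw [tb_e E E (by omega) (by omega)]; exact e3
      · rw [tb_e E E (by omega) (by omega)]; exact e4
      · rw [tb_e E E (by omega) (by omega)]; exact e2
      · rw [tb_d E E (by omega)]; exact e3
    have h1 : FV.HV G (m + 1) 16 0 z (tb E E) := FV.HV.of_hr (hT.hr hM le_rfl (by omega))
    have h3 : m = 2 ∨ m = 3 := by omega
    rcases h3 with rfl | rfl <;> cases o
    · exact FV.ClQ.q3m hF.hH hF.hJ h1 (hT.hy (L := 3) le_rfl (by norm_num) (by decide +kernel)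
        (by decide +kernel) (by decide +kernel) hK) (FT.Mt.list (ns := []) hbits (by simp) (by decide +kernel)
        (by decide +kernel))
    · exact FV.ClQ.q3p hF.hH hF.hJ h1 (hT.hy (L := 3) le_rfl (by norm_num) (by decide +kernel)
        (by decide +kernel) (by decide +kernel) hK) (FT.Mt.list (ns := []) hbits (by simp) (by decide +kernel)
        (by decide +kernel))
    · exact FV.ClQ.q4m hF.hH hF.hJ h1 (hT.hy (L := 4) le_rfl (by norm_num) (by decide +kernel)
        (by decide +kernel) (by decide +kernel) hK) (FT.Mt.list (ns := []) hbits (by simp) (by decide +kernel)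
        (by decide +kernel))
    · exact FV.ClQ.q4p hF.hH hF.hJ h1 (hT.hy (L := 4) le_rfl (by norm_num) (by decide +kernel)
        (by decide +kernel) (by decide +kernel) hK) (FT.Mt.list (ns := []) hbits (by simp) (by decide +kernel)
        (by decide +kernel))
  · have h1 : FV.HV G 5 16 0 z (tb E E) := FV.HV.of_hr (hT.hr hM (by omega) (by omega))
    exact FV.ClQ.h5 hF.hH hF.hJ h1 (hT.hy (L := 5) (K := hK 4) (by omega) (by norm_num) (by decide +kernel)
        (by decide +kernel) (by decide +kernel) (hK_no (by omega) (fun t ht => hH t (by omega))))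
        (FT.Mt.zero _)

end Pool.Agent.MPd439b2.F1
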