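import Pool.Agent.Lib.MP_d439b2_co.F1.CloA
import Pool.Agent.Lib.MP_d439b2_co.FV.ClosA
import Pool.Agent.Lib.MP_d439b2_co.FV.ClosB
import Pool.Agent.Lib.MP_d439b2_co.FV.ClosC
import Pool.Agent.Lib.MP_d439b2_co.FV.Wit

/-!
# MP_d439b2_co, F1: closed chordless tracks with a stable base (helper40)
-/

set_option autoImplicit false

namespace Pool.Agent.MPd439b2.F1

open Pool.Agent.MPd439b2 Pool.Agent.MPd439b2.X2 Pool.Agent.MPd439b2.BT

variable {V : Type} {n : ℕ}

/-- the context -/
structure Cc (S : St V n) (G : SimpleGraph V) (b m₀ L M : ℕ) (x : ℕ → ℕ → V) (E D Q X : ℕ → ℕ → Bool)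
    (i : Fin n) (m : ℕ) (p : ℕ → ℕ) (o : Bool) : Prop where
  hX : ExcB S G b
  hF : Fr3 G m₀
  hS : Sy S G L M x E D Q X
  hM : 16 ≤ M
  hm : m₀ ≤ M
  hw : ∀ j < L, ∃ y < L, Hf E j y
  hp : ∀ t ≤ m, p t < L
  h8 : m ≤ 8
  hT : Tk G M m (fun t k => x (p t) k) (fun s t => E (p s) (p t)) (fun s t => D (p s) (p t))
  hi : S.t i = false
  hB : Ba S i M x (p 0) (p m) o

section ctx

variable {S : St V n} {G : SimpleGraph V} {b m₀ L M : ℕ} {x : ℕ → ℕ → V} {E D Q X : ℕ → ℕ → Bool}
    {i : Fin n} {m : ℕ} {p : ℕ → ℕ} {o : Bool}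

theorem Cc.mo (hMn : S_Mn) (h : Cc S G b m₀ L M x E D Q X i m p o) {u : ℕ} (hu : u < L) :
    M4 (E (p 0) u) (E u (p 0)) (bif o then E (p m) u else E u (p m))
      (bif o then E u (p m) else E (p m) u) :=
  hMn V n S G L M x E D Q X i (p 0) (p m) o h.hS (le_trans (by norm_num) h.hM) (h.hp 0 (Nat.zero_le m))
    (h.hp m le_rfl) h.hB u hu

theorem Cc.M0 (h : Cc S G b m₀ L M x E D Q X i m p o) : 0 < M := lt_of_lt_of_le (by norm_num) h.hM

theorem Cc.q (h : Cc S G b m₀ L M x E D Q X i m p o) {s t : ℕ} (hs : s ≤ m) (ht : t ≤ m)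
    (hst : s ≠ t) : Q (p s) (p t) = false := by
  by_contra hc
  rw [Bool.not_eq_false] at hc
  exact h.hT.dis s hs t ht 0 h.M0 0 h.M0 (Or.inl hst)
    ((h.hS.eq (p s) (h.hp s hs) (p t) (h.hp t ht) 0 h.M0).2 hc)

theorem Cc.bb (h : Cc S G b m₀ L M x E D Q X i m p o) {a d : ℕ} (ha : a = p 0 ∨ a = p m)
    (hd : d = p 0 ∨ d = p m) : E a d = false := by
  have hc : ∀ a, (a = p 0 ∨ a = p m) → a < L ∧ S.c (x a 0) = i := by
    rintro a (rfl | rfl)
    · exact ⟨h.hp 0 (Nat.zero_le m), h.hB.c0 0 h.M0⟩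
    · exact ⟨h.hp m le_rfl, h.hB.c1 0 h.M0⟩
  rw [h.hS.ty (le_trans (by norm_num) h.hM) (hc a ha).1 (hc d hd).1 ((hc a ha).2.trans (hc d hd).2.symm),
    (hc a ha).2, h.hi]

theorem Cc.two (h : Cc S G b m₀ L M x E D Q X i m p o) : 2 ≤ m := by
  by_contra hc
  have h1 : m = 0 ∨ m = 1 := by omega
  rcases h1 with rfl | rfl
  · exact lt_irrefl _ (h.hB.bet 0 h.M0 0 h.M0)
  · have h1 : E (p 0) (p 1) = false := h.bb (Or.inl rfl) (Or.inr rfl)
    have h2 : E (p 1) (p 0) = false := h.bb (Or.inr rfl) (Or.inl rfl)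
    rcases h.hT.st 0 Nat.zero_lt_one with h3 | h3
    · exact h3 (h1.trans h2.symm)
    · exact absurd (h1.symm.trans h3.1) (by decide)

theorem Cc.root (h : Cc S G b m₀ L M x E D Q X i m p o) :
    FT.Mt 0 (FT.mk [16 * 0 + 0, 16 * m + m, 16 * 0 + m, 16 * m + 0, 256 + 16 * 0 + m])
      (tb (fun s t => E (p s) (p t)) (fun s t => D (p s) (p t))) := by
  have h8 := h.h8
  have h2 := h.two
  refine FT.Mt.list (ps := []) (by simp) (fun b hb => ?_) rfl rfl
  simp only [List.mem_cons, List.not_mem_nil, or_false] at hb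
  rcases hb with rfl | rfl | rfl | rfl | rfl
  · rw [tb_e _ _ (by omega) (by omega)]; exact h.bb (Or.inl rfl) (Or.inl rfl)
  · rw [tb_e _ _ (by omega) (by omega)]; exact h.bb (Or.inr rfl) (Or.inr rfl)
  · rw [tb_e _ _ (by omega) (by omega)]; exact h.bb (Or.inl rfl) (Or.inr rfl)
  · rw [tb_e _ _ (by omega) (by omega)]; exact h.bb (Or.inr rfl) (Or.inl rfl)
  · rw [tb_d _ _ (by omega)]
    exact (h.hT.cn 0 m (by omega) le_rfl).2.trans (h.bb (Or.inl rfl) (Or.inr rfl))

theorem Cc.hK (hMn : S_Mn) (h : Cc S G b m₀ L M x E D Q X i m p o) : ∀ k ∈ cK m o,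
    ¬ FT.Mt k.1 k.2 (tb (fun s t => E (p s) (p t)) (fun s t => D (p s) (p t))) :=
  cK_no h.hT (by have := h.h8; omega) (fun u hu _ => h.mo hMn (h.hp u (by omega)))

theorem Cc.hv (h : Cc S G b m₀ L M x E D Q X i m p o) : FV.HV G (m + 1) 16 0 (fun t k => x (p t) k)
    (tb (fun s t => E (p s) (p t)) (fun s t => D (p s) (p t))) :=
  FV.HV.of_hr (h.hT.hr h.hM le_rfl (by have := h.h8; omega))

/-- the witness -/
theorem Cc.wit (hKi : S_Ki) (hMn : S_Mn) (h : Cc S G b m₀ L M x E D Q X i m p o) {e : ℕ} (he : e ≤ m)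
    (hne : ∀ j ≤ m, ¬ Hf E (p e) (p j)) : ∃ p' : ℕ → ℕ, (∀ t ≤ m, p' t = p t) ∧
      (∀ t < m + 2, p' t < L) ∧ (∀ s < m + 2, ∀ t < m + 2, s ≠ t → Q (p' s) (p' t) = false) ∧
      ∀ k ∈ wK m o e, ¬ FT.Mt k.1 k.2 (tb (fun s t => E (p' s) (p' t)) (fun s t => D (p' s) (p' t))) := by
  have h8 := h.h8
  have hM := h.hM
  obtain ⟨y, hy, hyh⟩ := h.hw (p e) (h.hp e he)
  have hqy : ∀ j ≤ m, Q (p j) y = false := by
    intro j hj
    by_contra hc
    rw [Bool.not_eq_false] at hc
    have h1 : ∀ k < M, x (p j) k = x y k := fun k hk => (h.hS.eq (p j) (h.hp j hj) y hy k hk).2 hc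
    have h2 : E (p e) (p j) = E (p e) y := by
      have h3 := h.hS.rel (p e) (h.hp e he) (p j) (h.hp j hj) 0 1 Nat.zero_lt_one (by omega)
      have h4 := h.hS.rel (p e) (h.hp e he) y hy 0 1 Nat.zero_lt_one (by omega)
      rw [h1 1 (by omega), h4] at h3
      exact (Bool.eq_iff_iff.2 h3).symm
    have h3 : E (p j) (p e) = E y (p e) := by
      have h3 := h.hS.rel (p j) (h.hp j hj) (p e) (h.hp e he) 0 1 Nat.zero_lt_one (by omega)
      have h4 := h.hS.rel y hy (p e) (h.hp e he) 0 1 Nat.zero_lt_one (by omega)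
      rw [h1 0 (by omega), h4] at h3
      exact (Bool.eq_iff_iff.2 h3).symm
    refine hne j hj fun h4 => hyh ?_
    rw [← h2, ← h3]
    exact h4
  have hqy' : ∀ j ≤ m, Q y (p j) = false := by
    intro j hj
    by_contra hc
    rw [Bool.not_eq_false] at hc
    have h1 := (h.hS.eq y hy (p j) (h.hp j hj) 0 h.M0).2 hc
    have h2 := (h.hS.eq (p j) (h.hp j hj) y hy 0 h.M0).1 h1.symm
    rw [hqy j hj] at h2
    exact absurd h2 (by decide)
  obtain ⟨p', hp'⟩ : ∃ p' : ℕ → ℕ, p' = fun t => if t ≤ m then p t else y := ⟨_, rfl⟩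
  have e1 : ∀ t ≤ m, p' t = p t := fun t ht => by rw [hp']; exact if_pos ht
  have e2 : p' (m + 1) = y := by rw [hp']; exact if_neg (by omega)
  have h3 : ∀ t < m + 2, p' t < L := by
    intro t ht
    by_cases h4 : t ≤ m
    · rw [e1 t h4]; exact h.hp t h4
    · rw [show t = m + 1 by omega, e2]; exact hy
  have h4 : ∀ s < m + 2, ∀ t < m + 2, s ≠ t → Q (p' s) (p' t) = false := by
    intro s hs t ht hst
    by_cases h5 : s ≤ m <;> by_cases h6 : t ≤ m
    · rw [e1 s h5, e1 t h6]; exact h.q h5 h6 hst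
    · rw [e1 s h5, show t = m + 1 by omega, e2]; exact hqy s h5
    · rw [e1 t h6, show s = m + 1 by omega, e2]; exact hqy' t h6
    · omega
  refine ⟨p', e1, h3, h4, wK_no (by omega) (by omega) (fun u hu => ?_) (fun j hj => ?_) ?_⟩
  · have h5 := h.mo hMn (u := p' u) (h3 u (by omega))
    rw [← e1 0 (Nat.zero_le m), ← e1 m le_rfl] at h5
    exact h5
  · have h5 := (hKi V n b m₀ S G L M x E D Q X h.hX h.hF h.hS (by omega) h.hm (p' j) (h3 j (by omega))
      (p' (m + 1)) (h3 _ (by omega))).1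
    have h6 := h4 j (by omega) (m + 1) (by omega) (by omega)
    by_cases h7 : E (p' j) (p' (m + 1)) = E (p' (m + 1)) (p' j) ∧ D (p' j) (p' (m + 1)) = E (p' j) (p' (m + 1))
    · exact Or.inl h7
    · right
      rcases (h5 ⟨h6, h7⟩).2 with h8' | ⟨h8', h9, h10, h11, h12⟩
      · exact Or.inl h8'
      · refine Or.inr ⟨h8', h9, h10, ?_⟩
        rw [h.hS.ty (by omega) (h3 j (by omega)) (h3 j (by omega)) rfl,
          h.hS.ty (by omega) (h3 (m + 1) (by omega)) (h3 (m + 1) (by omega)) rfl]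
        exact h12
  · change Hf E (p' e) (p' (m + 1))
    rw [e1 e he, e2]
    exact hyh

/-- the outcome -/
theorem Cc.ou (hKi : S_Ki) (h : Cc S G b m₀ L M x E D Q X i m p o) {K : ℕ} {p' : ℕ → ℕ} (hK : K ≤ 16)
    (hp' : ∀ t < K, p' t < L) (hq' : ∀ s < K, ∀ t < K, s ≠ t → Q (p' s) (p' t) = false) {P N : ℕ}
    (hMt : FT.Mt P N (tb (fun s t => E (p' s) (p' t)) (fun s t => D (p' s) (p' t)))) {f : ℕ → ℕ}
    {σ : Bool} (hf : ∀ j < 5, f j < K)
    (hck : ∀ i < 5, ∀ j < 5, (bif CE.rb j i then P.testBit (16 * f i + f j)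
      else N.testBit (16 * f i + f j)) = true) (h12 : f 1 ≠ f 2) (hD : D (p' (f 1)) (p' (f 2)) = false)
    (hl : p' (f (bif σ then 0 else 4)) = p 0) (hr : p' (f (bif σ then 4 else 0)) = p m) :
    Ou L E D X (p 0) (p m) σ (fun j => p' (f j)) := by
  have htab := ou_tab hMt (f := f) (fun j hj => lt_of_lt_of_le (hf j hj) hK) hck
  have e1 : E (p' (f 1)) (p' (f 2)) = true := htab 1 (by norm_num) 2 (by norm_num)
  have e2 : E (p' (f 2)) (p' (f 1)) = true := htab 2 (by norm_num) 1 (by norm_num)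
  have h1 := (hKi V n b m₀ S G L M x E D Q X h.hX h.hF h.hS (le_trans (by norm_num) h.hM) h.hm (p' (f 1))
    (hp' _ (hf 1 (by norm_num))) (p' (f 2)) (hp' _ (hf 2 (by norm_num)))).1
    ⟨hq' _ (hf 1 (by norm_num)) _ (hf 2 (by norm_num)) h12, fun h2 => by
      have h3 := h2.2
      rw [hD, e1] at h3
      exact absurd h3 (by decide)⟩
  refine ⟨fun j hj => hp' _ (hf j hj), htab, hD, ?_, hl, hr⟩
  rcases h1.2 with h2 | h2
  · exact absurd (e1.trans e2.symm) h2
  · exact h2.2.2.2.1

/-! ### two steps -/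

/-- a bit of a table -/
theorem bit1 {P N : ℕ} {F : ℕ → Bool} (h : FT.Mt P N F) (c : ℕ) (hc : P.testBit c = true) : F c = true :=
  h.1 c hc

theorem bit0 {P N : ℕ} {F : ℕ → Bool} (h : FT.Mt P N F) (c : ℕ) (hc : N.testBit c = true) : F c = false :=
  h.2 c hc

/-- the rail `e` is not half to the rails of the track -/
theorem Cc.nh (h : Cc S G b m₀ L M x E D Q X i m p o) {P N : ℕ} {e : ℕ} (he : e ≤ m)
    (hMt : FT.Mt P N (tb (fun s t => E (p s) (p t)) (fun s t => D (p s) (p t))))
    (hck : ∀ j ≤ m, ((P.testBit (16 * e + j) && P.testBit (16 * j + e)) ||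
      (N.testBit (16 * e + j) && N.testBit (16 * j + e))) = true) : ∀ j ≤ m, ¬ Hf E (p e) (p j) := by
  intro j hj hc
  have h8 := h.h8
  apply hc
  have h1 := hck j hj
  rw [Bool.or_eq_true, Bool.and_eq_true, Bool.and_eq_true] at h1
  have e1 := tb_e (fun s t => E (p s) (p t)) (fun s t => D (p s) (p t)) (i := e) (j := j) (by omega) (by omega)
  have e2 := tb_e (fun s t => E (p s) (p t)) (fun s t => D (p s) (p t)) (i := j) (j := e) (by omega) (by omega)
  rcases h1 with h1 | h1
  · exact (e1.symm.trans (hMt.1 _ h1.1)).trans (e2.symm.trans (hMt.1 _ h1.2)).symm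
  · exact (e1.symm.trans (hMt.2 _ h1.1)).trans (e2.symm.trans (hMt.2 _ h1.2)).symm

/-- transfer of a table to the rails with the witness -/
theorem tr_wit {m : ℕ} (hm : m < 16) {p p' : ℕ → ℕ} (hp : ∀ t ≤ m, p' t = p t) {P N P' N' : ℕ}
    (hMt : FT.Mt P N (tb (fun s t => E (p s) (p t)) (fun s t => D (p s) (p t))))
    (h1 : P &&& P' = P') (h2 : N &&& N' = N') (h3 : FT.mk (rg m) &&& P' = P')
    (h4 : FT.mk (rg m) &&& N' = N') :
    FT.Mt P' N' (tb (fun s t => E (p' s) (p' t)) (fun s t => D (p' s) (p' t))) := by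
  refine mt_tr hMt (tb_rg hm (fun s hs t ht => ?_) (fun s hs t ht => ?_)) h1 h2 h3 h4
  · rw [hp s hs, hp t ht]
  · rw [hp s hs, hp t ht]

theorem Cc.m2 (hKi : S_Ki) (hMn : S_Mn) (h : Cc S G b m₀ L M x E D Q X i 2 p o) :
    o = false ∧ ∃ σ q, Ou L E D X (p 0) (p 2) σ q := by
  have hF := h.hF
  cases o
  · obtain ⟨c, hc, hMt⟩ := FV.ClosA.c3m hF.hH hF.hJ h.hv (h.hT.hy (L := 3) le_rfl (by norm_num)
      (by decide +kernel) (by decide +kernel) (by decide +kernel) (h.hK hMn)) (h.root.sub (by decide +kernel)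
      (by decide +kernel))
    have hMt' := hMt.or h.root
    simp only [FV.ClosA.c3m_S, List.mem_cons, List.not_mem_nil, or_false] at hc
    rcases hc with rfl | rfl
    · obtain ⟨p', e1, h3, h4, h5⟩ := h.wit hKi hMn (e := 2) le_rfl (h.nh le_rfl hMt' (by decide +kernel))
      obtain ⟨c', hc', hMt2⟩ := FV.Wit.w3ma hF.hH hF.hJ (FV.HV.of_hr (h.hS.hr h.hM h3 h4 (by norm_num)))
        ⟨fun i j h => by simp at h, fun i j h => by simp at h, ckI_ok (by decide +kernel) h5⟩
        (tr_wit (m := 2) (by norm_num) e1 hMt' (by decide +kernel) (by decide +kernel) (by decide +kernel)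
          (by decide +kernel))
      have hMt3 := hMt2.or (tr_wit (m := 2) (P' := 8590393344)
        (N' := 30354664609383965997898286578057517667919019940128342581815726732506411130324779015)
        (by norm_num) e1 hMt' (by decide +kernel) (by decide +kernel) (by decide +kernel)
          (by decide +kernel))
      simp only [FV.Wit.w3ma_S, List.mem_cons, List.not_mem_nil, or_false] at hc'
      subst hc'
      refine ⟨rfl, true, _, h.ou hKi (K := 4) (p' := p') (f := fun j => if j = 4 then 2 else j) (by norm_num)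
        h3 h4 hMt3 (by decide) (by decide +kernel) (by decide) ?_ (e1 0 (by norm_num)) (e1 2 (by norm_num))⟩
      exact bit0 hMt3 274 (by decide +kernel)
    · obtain ⟨p', e1, h3, h4, h5⟩ := h.wit hKi hMn (e := 0) (by norm_num)
        (h.nh (by norm_num) hMt' (by decide +kernel))
      obtain ⟨c', hc', hMt2⟩ := FV.Wit.w3mb hF.hH hF.hJ (FV.HV.of_hr (h.hS.hr h.hM h3 h4 (by norm_num)))
        ⟨fun i j h => by simp at h, fun i j h => by simp at h, ckI_ok (by decide +kernel) h5⟩
        (tr_wit (m := 2) (by norm_num) e1 hMt' (by decide +kernel) (by decide +kernel) (by decide +kernel)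
          (by decide +kernel))
      have hMt3 := hMt2.or (tr_wit (m := 2) (P' := 458754)
        (N' := 694752535423897172541425910052127447119619907993843384236745504047508842610693)
        (by norm_num) e1 hMt' (by decide +kernel) (by decide +kernel) (by decide +kernel)
          (by decide +kernel))
      simp only [FV.Wit.w3mb_S, List.mem_cons, List.not_mem_nil, or_false] at hc'
      subst hc'
      refine ⟨rfl, false, _, h.ou hKi (K := 4) (p' := p')
        (f := fun j => if j = 0 then 2 else if j = 1 then 1 else if j = 3 then 3 else 0) (by norm_num)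
        h3 h4 hMt3 (by decide) (by decide +kernel) (by decide) ?_ (e1 0 (by norm_num)) (e1 2 (by norm_num))⟩
      have h6 : D (p' 0) (p' 1) = false := bit0 hMt3 257 (by decide +kernel)
      exact (h.hS.dsym h.M0 (h3 1 (by norm_num)) (h3 0 (by norm_num))).trans h6
  · exfalso
    obtain ⟨c, hc, hMt⟩ := FV.ClosA.c3p hF.hH hF.hJ h.hv (h.hT.hy (L := 3) le_rfl (by norm_num)
      (by decide +kernel) (by decide +kernel) (by decide +kernel) (h.hK hMn)) (h.root.sub (by decide +kernel)
      (by decide +kernel))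
    have hMt' := hMt.or h.root
    simp only [FV.ClosA.c3p_S, List.mem_cons, List.not_mem_nil, or_false] at hc
    rcases hc with rfl | rfl
    · obtain ⟨p', e1, h3, h4, h5⟩ := h.wit hKi hMn (e := 2) le_rfl (h.nh le_rfl hMt' (by decide +kernel))
      exact FV.Wit.w3pa hF.hH hF.hJ (FV.HV.of_hr (h.hS.hr h.hM h3 h4 (by norm_num)))
        ⟨fun i j h => by simp at h, fun i j h => by simp at h, ckI_ok (by decide +kernel) h5⟩
        (tr_wit (m := 2) (by norm_num) e1 hMt' (by decide +kernel) (by decide +kernel) (by decide +kernel)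
          (by decide +kernel))
    · obtain ⟨p', e1, h3, h4, h5⟩ := h.wit hKi hMn (e := 0) (by norm_num)
        (h.nh (by norm_num) hMt' (by decide +kernel))
      exact FV.Wit.w3pb hF.hH hF.hJ (FV.HV.of_hr (h.hS.hr h.hM h3 h4 (by norm_num)))
        ⟨fun i j h => by simp at h, fun i j h => by simp at h, ckI_ok (by decide +kernel) h5⟩
        (tr_wit (m := 2) (by norm_num) e1 hMt' (by decide +kernel) (by decide +kernel) (by decide +kernel)
          (by decide +kernel))

theorem Cc.m4 (hKi : S_Ki) (hMn : S_Mn) (h : Cc S G b m₀ L M x E D Q X i 4 p o) :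
    o = false ∧ ∃ σ q, Ou L E D X (p 0) (p 4) σ q := by
  have hF := h.hF
  cases o
  · obtain ⟨c, hc, hMt⟩ := FV.ClosA.c5m hF.hH hF.hJ h.hv (h.hT.hy (L := 5) le_rfl (by norm_num)
      (by decide +kernel) (by decide +kernel) (by decide +kernel) (h.hK hMn)) (h.root.sub (by decide +kernel)
      (by decide +kernel))
    have hMt' := hMt.or h.root
    simp only [FV.ClosA.c5m_S, List.mem_cons, List.not_mem_nil, or_false] at hc
    rcases hc with rfl | rfl | rfl | rfl
    · refine ⟨rfl, false, _, h.ou hKi (K := 5) (p' := p) (f := fun j => 4 - j) (by norm_num)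
        (fun t ht => h.hp t (by omega)) (fun s hs t ht hst => h.q (by omega) (by omega) hst) hMt'
        (by decide) (by decide +kernel) (by decide) ?_ rfl rfl⟩
      have h6 : D (p 2) (p 3) = false := bit0 hMt' 291 (by decide +kernel)
      exact (h.hS.dsym h.M0 (h.hp 3 (by norm_num)) (h.hp 2 (by norm_num))).trans h6
    · exact ⟨rfl, true, _, h.ou hKi (K := 5) (p' := p) (f := fun j => j) (by norm_num)
        (fun t ht => h.hp t (by omega)) (fun s hs t ht hst => h.q (by omega) (by omega) hst) hMt'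
        (by decide) (by decide +kernel) (by decide) (bit0 hMt' 274 (by decide +kernel)) rfl rfl⟩
    · exfalso
      obtain ⟨p', e1, h3, h4, h5⟩ := h.wit hKi hMn (e := 4) le_rfl (h.nh le_rfl hMt' (by decide +kernel))
      exact FV.Wit.w5ma hF.hH hF.hJ (FV.HV.of_hr (h.hS.hr h.hM h3 h4 (by norm_num)))
        ⟨fun i j h => by simp at h, fun i j h => by simp at h, ckI_ok (by decide +kernel) h5⟩
        (tr_wit (m := 4) (by norm_num) e1 hMt' (by decide +kernel) (by decide +kernel) (by decide +kernel)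
          (by decide +kernel))
    · exfalso
      obtain ⟨p', e1, h3, h4, h5⟩ := h.wit hKi hMn (e := 4) le_rfl (h.nh le_rfl hMt' (by decide +kernel))
      exact FV.Wit.w5mb hF.hH hF.hJ (FV.HV.of_hr (h.hS.hr h.hM h3 h4 (by norm_num)))
        ⟨fun i j h => by simp at h, fun i j h => by simp at h, ckI_ok (by decide +kernel) h5⟩
        (tr_wit (m := 4) (by norm_num) e1 hMt' (by decide +kernel) (by decide +kernel) (by decide +kernel)
          (by decide +kernel))
  · exfalso
    obtain ⟨c, hc, hMt⟩ := FV.ClosA.c5p hF.hH hF.hJ h.hv (h.hT.hy (L := 5) le_rfl (by norm_num)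
      (by decide +kernel) (by decide +kernel) (by decide +kernel) (h.hK hMn)) (h.root.sub (by decide +kernel)
      (by decide +kernel))
    have hMt' := hMt.or h.root
    simp only [FV.ClosA.c5p_S, List.mem_cons, List.not_mem_nil, or_false] at hc
    rcases hc with rfl | rfl
    · obtain ⟨p', e1, h3, h4, h5⟩ := h.wit hKi hMn (e := 4) le_rfl (h.nh le_rfl hMt' (by decide +kernel))
      exact FV.Wit.w5pa hF.hH hF.hJ (FV.HV.of_hr (h.hS.hr h.hM h3 h4 (by norm_num)))
        ⟨fun i j h => by simp at h, fun i j h => by simp at h, ckI_ok (by decide +kernel) h5⟩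
        (tr_wit (m := 4) (by norm_num) e1 hMt' (by decide +kernel) (by decide +kernel) (by decide +kernel)
          (by decide +kernel))
    · obtain ⟨p', e1, h3, h4, h5⟩ := h.wit hKi hMn (e := 4) le_rfl (h.nh le_rfl hMt' (by decide +kernel))
      exact FV.Wit.w5pb hF.hH hF.hJ (FV.HV.of_hr (h.hS.hr h.hM h3 h4 (by norm_num)))
        ⟨fun i j h => by simp at h, fun i j h => by simp at h, ckI_ok (by decide +kernel) h5⟩
        (tr_wit (m := 4) (by norm_num) e1 hMt' (by decide +kernel) (by decide +kernel) (by decide +kernel)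
          (by decide +kernel))

/-- the other lengths are impossible -/
theorem Cc.no (hMn : S_Mn) (h : Cc S G b m₀ L M x E D Q X i m p o) (h2 : m ≠ 2) (h4 : m ≠ 4) :
    False := by
  have hF := h.hF
  have hT := h.hT
  have hv := h.hv
  have hK := h.hK hMn
  have hr := h.root
  have h3 : m = 3 ∨ m = 5 ∨ m = 6 ∨ m = 7 ∨ m = 8 := by
    have := h.h8
    have := h.two
    omega
  rcases h3 with rfl | rfl | rfl | rfl | rfl <;> cases o
  · exact FV.ClosA.c4m hF.hH hF.hJ hv (hT.hy (L := 4) le_rfl (by norm_num) (by decide +kernel)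
      (by decide +kernel) (by decide +kernel) hK) (hr.sub (by decide +kernel) (by decide +kernel))
  · exact FV.ClosA.c4p hF.hH hF.hJ hv (hT.hy (L := 4) le_rfl (by norm_num) (by decide +kernel)
      (by decide +kernel) (by decide +kernel) hK) (hr.sub (by decide +kernel) (by decide +kernel))
  · exact FV.ClosA.c6m hF.hH hF.hJ hv (hT.hy (L := 6) le_rfl (by norm_num) (by decide +kernel)
      (by decide +kernel) (by decide +kernel) hK) (hr.sub (by decide +kernel) (by decide +kernel))
  · exact FV.ClosA.c6p hF.hH hF.hJ hv (hT.hy (L := 6) le_rfl (by norm_num) (by decide +kernel)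
      (by decide +kernel) (by decide +kernel) hK) (hr.sub (by decide +kernel) (by decide +kernel))
  · exact FV.ClosB.c7m hF.hH hF.hJ hv (hT.hy (L := 7) le_rfl (by norm_num) (by decide +kernel)
      (by decide +kernel) (by decide +kernel) hK) (hr.sub (by decide +kernel) (by decide +kernel))
  · exact FV.ClosB.c7p hF.hH hF.hJ hv (hT.hy (L := 7) le_rfl (by norm_num) (by decide +kernel)
      (by decide +kernel) (by decide +kernel) hK) (hr.sub (by decide +kernel) (by decide +kernel))
  · exact FV.ClosB.c8m hF.hH hF.hJ hv (hT.hy (L := 8) le_rfl (by norm_num) (by decide +kernel)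
      (by decide +kernel) (by decide +kernel) hK) (hr.sub (by decide +kernel) (by decide +kernel))
  · exact FV.ClosB.c8p hF.hH hF.hJ hv (hT.hy (L := 8) le_rfl (by norm_num) (by decide +kernel)
      (by decide +kernel) (by decide +kernel) hK) (hr.sub (by decide +kernel) (by decide +kernel))
  · exact FV.ClosC.c9m hF.hH hF.hJ hv (hT.hy (L := 9) le_rfl (by norm_num) (by decide +kernel)
      (by decide +kernel) (by decide +kernel) hK) (hr.sub (by decide +kernel) (by decide +kernel))
  · exact FV.ClosC.c9p hF.hH hF.hJ hv (hT.hy (L := 9) le_rfl (by norm_num) (by decide +kernel)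
      (by decide +kernel) (by decide +kernel) hK) (hr.sub (by decide +kernel) (by decide +kernel))

end ctx

theorem pClo (hKi : S_Ki) (hMn : S_Mn) : S_Clo := by
  intro V n b m₀ S G L M x E D Q X i a d m p o hX hF hS hM hm hw hpa hpd hp h8 hT hi hB
  subst hpa
  subst hpd
  have h : Cc S G b m₀ L M x E D Q X i m p o := ⟨hX, hF, hS, hM, hm, hw, hp, h8, hT, hi, hB⟩
  by_cases h2 : m = 2
  · subst h2
    exact h.m2 hKi hMn
  · by_cases h4 : m = 4
    · subst h4
      exact h.m4 hKi hMn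
    · exact (h.no hMn h2 h4).elim

end Pool.Agent.MPd439b2.F1
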