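import Pool.Agent.Lib.MP_d439b2_co.F1.Spec

/-!
# MP_d439b2_co, F1: corners give half graphs
-/

set_option autoImplicit false

namespace Pool.Agent.MPd439b2.F1

open Pool.Agent.MPd439b2 Pool.Agent.MPd439b2.X2 Pool.Agent.MPd439b2.BT

private theorem Cor_core {V : Type} (B : V → V → Prop) (N : V → Prop)
    (ht : ∀ p q r, B p q → B q r → B p r) (hi : ∀ p, ¬ B p p) {u0 u1 w0 w1 : V}
    (n0 : N u0) (n1 : N u1) (h01 : B u0 w1) (h10 : B u1 w0)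
    (c0 : (B u0 w0 ∧ ∀ z, N z → ¬ (B u0 z ∧ B z w0)) ∨ (B w0 u0 ∧ ∀ z, N z → ¬ (B w0 z ∧ B z u0)))
    (c1 : (B u1 w1 ∧ ∀ z, N z → ¬ (B u1 z ∧ B z w1)) ∨ (B w1 u1 ∧ ∀ z, N z → ¬ (B w1 z ∧ B z u1)))
    (htot : B u0 u1 ∨ B u1 u0) : False := by
  rcases htot with h | h
  · rcases c0 with ⟨_, h2⟩ | ⟨h1, _⟩
    · exact h2 u1 n1 ⟨h, h10⟩
    · exact hi _ (ht _ _ _ h1 (ht _ _ _ h h10))
  · rcases c1 with ⟨_, h2⟩ | ⟨h1, _⟩
    · exact h2 u0 n0 ⟨h, h01⟩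
    · exact hi _ (ht _ _ _ h1 (ht _ _ _ h h01))

theorem pCor : S_Cor := by
  intro V n S G L M x E D Q X h hM i hi j hj hk
  intro hE
  have h0 : 0 < M := by omega
  have h1 : 1 < M := by omega
  obtain ⟨nu0, nw0, cn0⟩ := hk 0 h0
  obtain ⟨nu1, nw1, cn1⟩ := hk 1 h1
  have hcu : S.c (x i 1) = S.c (x i 0) := h.cls i hi 1 h1 0 h0
  have hcw : S.c (x j 1) = S.c (x j 0) := h.cls j hj 1 h1 0 h0
  have had : S.c (x i 0) ≠ S.c (x j 0) := cn0.1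
  have hne : x i 0 ≠ x i 1 := h.neq i hi i hi 0 h0 1 h1 (by norm_num)
  have c0 := cn0.2
  have c1 := cn1.2
  rw [hcu, hcw] at c1
  have a01 : S.G.Adj (x i 0) (x j 1) ↔ E i j = true := by
    have hx := h.exc i hi j hj 0 h0 1 h1 (by norm_num)
    unfold BT.Exc at hx
    rw [← h.rel i hi j hj 0 1 (by norm_num) h1]
    tauto
  have a10 : S.G.Adj (x i 1) (x j 0) ↔ E i j = true := by
    have hx := h.exc i hi j hj 1 h1 0 h0 (by norm_num)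
    unfold BT.Exc at hx
    rw [hE, ← h.rel j hj i hi 0 1 (by norm_num) h1, SimpleGraph.adj_comm G]
    tauto
  have htot := bef_total (S := S) (i := S.c (x i 0)) (j := S.c (x j 0)) (u := x i 0) (w := x i 1)
    (Or.inl rfl) (Or.inl hcu) hne
  by_cases hα : E i j = true
  · exact Cor_core (Bef S (S.c (x i 0)) (S.c (x j 0))) (Nd S) (fun p q r h2 h3 => bef_trans had h2 h3)
      (fun p => bef_irrefl had p) nu0 nu1 (Or.inr (Or.inr (Or.inl ⟨rfl, hcw, a01.2 hα⟩)))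
      (Or.inr (Or.inr (Or.inl ⟨hcu, rfl, a10.2 hα⟩))) c0 c1 htot
  · refine Cor_core (fun p q => Bef S (S.c (x i 0)) (S.c (x j 0)) q p) (Nd S)
      (fun p q r h2 h3 => bef_trans had h3 h2)
      (fun p => bef_irrefl had p) nu0 nu1 (Or.inr (Or.inr (Or.inr ⟨hcw, rfl, fun h2 => hα (a01.1 h2)⟩)))
      (Or.inr (Or.inr (Or.inr ⟨rfl, hcu, fun h2 => hα (a10.1 h2)⟩))) ?_ ?_ htot.symm
    · rcases c0 with ⟨h2, h3⟩ | ⟨h2, h3⟩
      · exact Or.inr ⟨h2, fun z hz h4 => h3 z hz ⟨h4.2, h4.1⟩⟩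
      · exact Or.inl ⟨h2, fun z hz h4 => h3 z hz ⟨h4.2, h4.1⟩⟩
    · rcases c1 with ⟨h2, h3⟩ | ⟨h2, h3⟩
      · exact Or.inr ⟨h2, fun z hz h4 => h3 z hz ⟨h4.2, h4.1⟩⟩
      · exact Or.inl ⟨h2, fun z hz h4 => h3 z hz ⟨h4.2, h4.1⟩⟩

end Pool.Agent.MPd439b2.F1
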