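import Pool.Agent.Lib.MP_d439b2_co.F1.Spec

/-!
# MP_d439b2_co, F1: closed bundles of clique chains (helper85)
-/

set_option autoImplicit false

namespace Pool.Agent.MPd439b2.F1

open Pool.Agent.MPd439b2 Pool.Agent.MPd439b2.X2 Pool.Agent.MPd439b2.BT

namespace CqAux

variable {V : Type} {n : ℕ}

theorem rho_lt {S : St V n} {u w : V} (hc : S.c u = S.c w) (h : S.ρ (bl S u) < S.ρ (bl S w)) :
    S.ρ u < S.ρ w := by
  by_contra hcon
  push Not at hcon
  exact absurd (bl_mono hc.symm hcon) (not_le.2 h)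

/-- the adjacency of rows with different indices -/
theorem adj_S {S : St V n} {G : SimpleGraph V} {L M : ℕ} {x : ℕ → ℕ → V}
    {E D Q X : ℕ → ℕ → Bool} (h : Sy S G L M x E D Q X) {i j : ℕ} (hi : i < L) (hj : j < L) {k l : ℕ}
    (hkl : k < l) (hl : l < M) : S.G.Adj (x i k) (x j l) ↔ E i j = true := by
  have h1 := h.exc i hi j hj k (by omega) l hl (by omega)
  unfold BT.Exc at h1
  rw [not_not] at h1
  rw [h1]
  exact h.rel i hi j hj k l hkl hl

theorem core {m₀ b r : ℕ} {S : St V n} {G : SimpleGraph V} (hE : ExcB S G b) (hF : Fr3 G m₀)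
    {y : ℕ → ℕ → V} {E D Q X : ℕ → ℕ → Bool} {i : Fin n}
    {o : Bool} (h3 : S_PthH) (h4 : S_Len) (h6 : S_ClQ) (hr : 2 ≤ r)
    (hi : S.t i = true) (hS : Sy S G (3 * r + 1) (10 * 16) y E D Q X)
    (hB : Ba S i (10 * 16) y 0 (2 * r - 1) o)
    (hP : ∃ (m : ℕ) (p : ℕ → ℕ), p 0 = 0 ∧ p m = 2 * r - 1 ∧ (∀ t ≤ m, p t < 3 * r + 1) ∧
      ∀ t < m, Hf E (p t) (p (t + 1))) : False := by
  have h0 : 0 < 3 * r + 1 := by omega
  have hd : 2 * r - 1 < 3 * r + 1 := by omega
  have hQ : Q 0 (2 * r - 1) = false := by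
    rw [← Bool.not_eq_true]
    intro h
    have h7 := (hS.eq 0 h0 (2 * r - 1) hd 0 (by omega)).2 h
    have h8 := hB.bet 0 (by omega) 0 (by omega)
    rw [h7] at h8
    exact lt_irrefl _ h8
  obtain ⟨m, p, hp0, hpm, hlt, hhf, hT⟩ := h3 V n S G (3 * r + 1) 16 y E D Q X hS (by norm_num) 0 h0
    (2 * r - 1) hd hQ hP
  have hm8 : m ≤ 8 := by
    have := h4 V G m₀ 16 (min m 9) _ _ _ hF le_rfl hT
    omega
  rw [show min m 9 = m from by omega] at hT
  -- all vertices of the rows `a`, `d` are in the class `i`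
  have hE2 : ∀ u < 3 * r + 1, ∀ w < 3 * r + 1, (∀ k < 10 * 16, S.c (y u k) = i) →
      (∀ k < 10 * 16, S.c (y w k) = i) → E u w = true := by
    intro u hu w hw hcu hcw
    have h7 := adj_S hS hu hw (show 0 < 1 by omega) (show 1 < 10 * 16 by omega)
    rw [← h7]
    refine (S.typ _ _ (hS.neq u hu w hw 0 (by omega) 1 (by omega) (by omega)) ?_).2 ?_
    · rw [hcu 0 (by omega), hcw 1 (by omega)]
    · rw [hcu 0 (by omega)]
      exact hi
  have e00 := hE2 0 h0 0 h0 hB.c0 hB.c0
  have edd := hE2 _ hd _ hd hB.c1 hB.c1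
  have e0d := hE2 0 h0 _ hd hB.c0 hB.c1
  have ed0 := hE2 _ hd 0 h0 hB.c1 hB.c0
  have hm2 : 2 ≤ m := by
    by_contra hcon
    have h7 : m = 0 ∨ m = 1 := by omega
    rcases h7 with h7 | h7
    · rw [h7, hp0] at hpm
      omega
    · have h8 := hhf 0 (by omega)
      rw [hp0, show 0 + 1 = m from by omega, hpm] at h8
      exact h8 (by rw [e0d, ed0])
  refine h6 V G m₀ 16 m _ (fun s t => E (p s) (p t)) o hF le_rfl hm2 hm8 hT hhf ?_ ?_ ?_ ?_ ?_
  · show E (p 0) (p 0) = true
    rw [hp0]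
    exact e00
  · show E (p m) (p m) = true
    rw [hpm]
    exact edd
  · show E (p 0) (p m) = true
    rw [hp0, hpm]
    exact e0d
  · show E (p m) (p 0) = true
    rw [hp0, hpm]
    exact ed0
  · intro u hu hu0
    show (E (p u) (p 0) = true → E (p 0) (p u) = true) ∧
      ((bif o then E (p m) (p u) else E (p u) (p m)) = true → E (p u) (p 0) = true) ∧
      ((bif o then E (p u) (p m) else E (p m) (p u)) = true →
        (bif o then E (p m) (p u) else E (p u) (p m)) = true)
    rw [hp0, hpm]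
    have hpu : p u < 3 * r + 1 := hlt u hu.le
    by_cases hci : S.c (y (p u) 0) = i
    · have hcu : ∀ k < 10 * 16, S.c (y (p u) k) = i := fun k hk => by
        rw [hS.cls (p u) hpu k hk 0 (by omega)]
        exact hci
      have f1 := hE2 0 h0 _ hpu hB.c0 hcu
      have f2 := hE2 _ hpu 0 h0 hcu hB.c0
      have f3 := hE2 _ hd _ hpu hB.c1 hcu
      have f4 := hE2 _ hpu _ hd hcu hB.c1
      refine ⟨fun _ => f1, fun _ => f2, fun _ => ?_⟩
      cases o
      · exact f4
      · exact f3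
    · -- vertices of the class `i` with smaller `ρ` see more
      have hz : S.c (y (p u) 1) ≠ i := by
        rw [hS.cls (p u) hpu 1 (by omega) 0 (by omega)]
        exact hci
      have dn : ∀ v v' : V, S.c v = i → S.c v' = i → S.ρ v < S.ρ v' →
          S.G.Adj v' (y (p u) 1) → S.G.Adj v (y (p u) 1) := by
        intro v v' hv hv' hρ ha
        refine S.dn v v' _ (hv.trans hv'.symm) hρ (by rw [hv]; exact hz) ?_ ha
        rw [hv]
        exact hE.sgn i hi _
      have a0 : S.G.Adj (y 0 0) (y (p u) 1) ↔ E 0 (p u) = true :=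
        adj_S hS h0 hpu (show 0 < 1 by omega) (show 1 < 10 * 16 by omega)
      have a1 : S.G.Adj (y 0 2) (y (p u) 1) ↔ E (p u) 0 = true := by
        rw [SimpleGraph.adj_comm]
        exact adj_S hS hpu h0 (show 1 < 2 by omega) (show 2 < 10 * 16 by omega)
      have a2 : S.G.Adj (y (2 * r - 1) 0) (y (p u) 1) ↔ E (2 * r - 1) (p u) = true :=
        adj_S hS hd hpu (show 0 < 1 by omega) (show 1 < 10 * 16 by omega)
      have a3 : S.G.Adj (y (2 * r - 1) 2) (y (p u) 1) ↔ E (p u) (2 * r - 1) = true := by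
        rw [SimpleGraph.adj_comm]
        exact adj_S hS hpu hd (show 1 < 2 by omega) (show 2 < 10 * 16 by omega)
      have b0 := hB.c0 0 (by omega)
      have b2 := hB.c0 2 (by omega)
      have d0 := hB.c1 0 (by omega)
      have d2 := hB.c1 2 (by omega)
      have i0 := hB.inc 0 2 (by omega) (by omega)
      have m0 := hB.mon 0 2 (by omega) (by omega)
      have t0 := hB.bet 2 (by omega) 0 (by omega)
      have t2 := hB.bet 2 (by omega) 2 (by omega)
      refine ⟨fun h => a0.1 (dn _ _ b0 b2 i0 (a1.2 h)), ?_, ?_⟩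
      · cases o
        · exact fun h => a1.1 (dn _ _ b2 d2 t2 (a3.2 h))
        · exact fun h => a1.1 (dn _ _ b2 d0 t0 (a2.2 h))
      · cases o
        · exact fun h => a3.1 (dn _ _ d2 d0 m0 (a2.2 h))
        · exact fun h => a2.1 (dn _ _ d0 d2 m0 (a3.2 h))

end CqAux

open CqAux

/-- **Cq.** -/
theorem pCq (h1 : S_Rw1) (h2 : S_Rw2) (h3 : S_PthH) (h4 : S_Len) (h6 : S_ClQ) : S_Cq := by
  intro n b m₀ R
  obtain ⟨N₂, hN₂⟩ := h2 n b m₀ R (10 * 16)
  obtain ⟨M, hM⟩ := h1 n R N₂
  refine ⟨M, fun V _ S G hE hF i r A B χ hχ hr => ?_⟩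
  have key : ∀ o : Bool, VX.VTr (BGr S G) i M r A B χ →
      (∀ k l, k < l → l < M → S.ρ (A k 0).1 < S.ρ (A l 0).1 ∧
        bif o then S.ρ (A k r).1 < S.ρ (A l r).1 else S.ρ (A l r).1 < S.ρ (A k r).1) →
      (∀ k < M, ∀ l < M, S.ρ (A k 0).1 < S.ρ (A l r).1) → False := by
    intro o hV hmon hbet
    obtain ⟨κ, x, hκ, hκM, hRw⟩ := hM V S G i r A B χ hr hV
    have hr2 : 2 ≤ r := hV.two
    obtain ⟨s, E, D, Q, X, hs, hsN, hSy, -, -, hP⟩ := hN₂ V S G r _ _ χ x hE hF (by omega) hr hRw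
    have hi : S.t i = true := by
      have := hχ 0 (Nat.zero_le _)
      rw [hV.ch0] at this
      exact this
    have c0 : ∀ k < 10 * 16, S.c (x 0 (s k)) = i := fun k hk => by
      have := (hRw.le 0 (by omega) (s k) (hsN k hk)).2
      rw [hV.ch0] at this
      exact this
    have l0 : ∀ k < 10 * 16, bl S (x 0 (s k)) = (A (κ (s k)) 0).1 := fun k hk => by
      have := (hRw.le 0 (by omega) (s k) (hsN k hk)).1
      rw [hV.fst _ (hκM _ (hsN k hk))]
      exact this
    have c1 : ∀ k < 10 * 16, S.c (x (2 * r - 1) (s k)) = i := fun k hk => by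
      have := (hRw.en (r - 1) (by omega) (s k) (hsN k hk)).2
      rw [show r - 1 + 1 = r from by omega, hV.chr, show 2 * (r - 1) + 1 = 2 * r - 1 from by omega] at this
      exact this
    have l1 : ∀ k < 10 * 16, bl S (x (2 * r - 1) (s k)) = (A (κ (s k)) r).1 := fun k hk => by
      have := (hRw.en (r - 1) (by omega) (s k) (hsN k hk)).1
      rw [show 2 * (r - 1) + 1 = 2 * r - 1 from by omega] at this
      rw [this, show r - 1 + 1 = r from by omega]
    have hκs : ∀ k l, k < l → l < 10 * 16 → κ (s k) < κ (s l) := fun k l hkl hl =>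
      hκ _ _ (hs k l hkl hl) (hsN l hl)
    refine core (o := o) (y := fun j k => x j (s k)) hE hF h3 h4 h6 hr2 hi hSy
      ⟨c0, c1, fun k l hkl hl => ?_, fun k l hkl hl => ?_, fun k hk l hl => ?_⟩ (hP hχ)
    · refine rho_lt ((c0 k (by omega)).trans (c0 l hl).symm) ?_
      rw [l0 k (by omega), l0 l hl]
      exact (hmon _ _ (hκs k l hkl hl) (hκM _ (hsN l hl))).1
    · have h7 := (hmon _ _ (hκs k l hkl hl) (hκM _ (hsN l hl))).2
      cases o
      · refine rho_lt ((c1 l hl).trans (c1 k (by omega)).symm) ?_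
        rw [l1 k (by omega), l1 l hl]
        exact h7
      · refine rho_lt ((c1 k (by omega)).trans (c1 l hl).symm) ?_
        rw [l1 k (by omega), l1 l hl]
        exact h7
    · refine rho_lt ((c0 k hk).trans (c1 l hl).symm) ?_
      rw [l0 k hk, l1 l hl]
      exact hbet _ (hκM _ (hsN k hk)) _ (hκM _ (hsN l hl))
  constructor
  · intro hP
    exact key true hP.tr hP.mon hP.bet
  · intro hR
    exact key false hR.tr hR.mon hR.bet

end Pool.Agent.MPd439b2.F1
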