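import Pool.Agent.Lib.MP_d439b2_co.F1.Spec

/-!
# MP_d439b2_co, F1: closed bundles with a stable base (helper85)
-/

set_option autoImplicit false

namespace Pool.Agent.MPd439b2.F1

open Pool.Agent.MPd439b2 Pool.Agent.MPd439b2.X2 Pool.Agent.MPd439b2.BT

namespace F1Aux

variable {V : Type} {n : ℕ}

theorem rho_lt {S : St V n} {u w : V} (hc : S.c u = S.c w) (h : S.ρ (bl S u) < S.ρ (bl S w)) :
    S.ρ u < S.ρ w := by
  by_contra hcon
  push Not at hcon
  exact absurd (bl_mono hc.symm hcon) (not_le.2 h)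

theorem Ba.mono {S : St V n} {i : Fin n} {M M' : ℕ} {x : ℕ → ℕ → V} {a d : ℕ} {o : Bool}
    (h : Ba S i M x a d o) (hM : M' ≤ M) : Ba S i M' x a d o :=
  ⟨fun k hk => h.c0 k (by omega), fun k hk => h.c1 k (by omega),
    fun k l hkl hl => h.inc k l hkl (by omega), fun k l hkl hl => h.mon k l hkl (by omega),
    fun k hk l hl => h.bet k (by omega) l (by omega)⟩

theorem Sy.mono {S : St V n} {G : SimpleGraph V} {L M M' : ℕ} {x : ℕ → ℕ → V}
    {E D Q X : ℕ → ℕ → Bool} (h : Sy S G L M x E D Q X) (hM : M' ≤ M) : Sy S G L M' x E D Q X :=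
  ⟨fun i hi k hk l hl => h.cls i hi k (by omega) l (by omega),
    fun i hi j hj k hk l hl => h.neq i hi j hj k (by omega) l (by omega),
    fun i hi j hj k hk => h.eq i hi j hj k (by omega),
    fun i hi j hj k l hkl hl => h.rel i hi j hj k l hkl (by omega),
    fun i hi j hj k hk => h.dg i hi j hj k (by omega),
    fun i hi j hj k hk l hl => h.exc i hi j hj k (by omega) l (by omega),
    fun i hi j hj k hk => h.exd i hi j hj k (by omega),
    fun i hi => (h.mon i hi).imp (fun h' k l hkl hl => h' k l hkl (by omega))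
      fun h' k l hkl hl => h' k l hkl (by omega)⟩

theorem core {m₀ b r M₁ : ℕ} {S : St V n} {G : SimpleGraph V} (hE : ExcB S G b) (hF : Fr3 G m₀)
    {y : ℕ → ℕ → V} {E D Q X : ℕ → ℕ → Bool} {i : Fin n}
    {o : Bool} (h3 : S_Pth) (h4 : S_Len) (h6 : S_Clo) (hr : 2 ≤ r) (hM : 16 ≤ M₁) (hm : m₀ ≤ M₁)
    (hi : S.t i = false) (hS : Sy S G (3 * r + 1) M₁ y E D Q X)
    (hB : Ba S i M₁ y 0 (2 * r - 1) o) (hH : ∀ j < 3 * r + 1, ∃ z < 3 * r + 1, Hf E j z)
    (hP : ∃ (m : ℕ) (p : ℕ → ℕ), p 0 = 0 ∧ p m = 2 * r - 1 ∧ (∀ t ≤ m, p t < 3 * r + 1) ∧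
      ∀ t < m, Lk E D Q (p t) (p (t + 1))) :
    o = false ∧ ∃ σ q, Ou (3 * r + 1) E D X 0 (2 * r - 1) σ q := by
  have h0 : 0 < 3 * r + 1 := by omega
  have hd : 2 * r - 1 < 3 * r + 1 := by omega
  have hQ : Q 0 (2 * r - 1) = false := by
    rw [← Bool.not_eq_true]
    intro h
    have h7 := (hS.eq 0 h0 (2 * r - 1) hd 0 (by omega)).2 h
    have h8 := hB.bet 0 (by omega) 0 (by omega)
    rw [h7] at h8
    exact lt_irrefl _ h8
  obtain ⟨m, p, hp0, hpm, hlt, hT⟩ := h3 V n b m₀ S G (3 * r + 1) M₁ y E D Q X hE hF hS hM hm 0 h0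
    (2 * r - 1) hd hQ hH hP
  exact h6 V n b m₀ S G (3 * r + 1) M₁ y E D Q X i 0 (2 * r - 1) m p o hE hF hS hM hm hH hp0 hpm hlt
    (h4 V G m₀ M₁ m _ _ _ hF hM hT) hT hi hB

end F1Aux

open F1Aux

/-- **F1.** -/
theorem pF1 (h1 : S_Rw1) (h2 : S_Rw2) (h3 : S_Pth) (h4 : S_Len) (h6 : S_Clo) (h5 : S_Out) : S_F1 := by
  intro n b m₀ R N
  obtain ⟨N₂, hN₂⟩ := h2 n b m₀ R (5 * N + m₀ + 16)
  obtain ⟨M, hM⟩ := h1 n R N₂
  refine ⟨M, fun V _ S G hE hF i r A B χ hi hr => ?_⟩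
  have key : ∀ o : Bool, VX.VTr (BGr S G) i M r A B χ →
      (∀ k l, k < l → l < M → S.ρ (A k 0).1 < S.ρ (A l 0).1 ∧
        bif o then S.ρ (A k r).1 < S.ρ (A l r).1 else S.ρ (A l r).1 < S.ρ (A k r).1) →
      (∀ k < M, ∀ l < M, S.ρ (A k 0).1 < S.ρ (A l r).1) → o = false ∧
      ∃ (σ : Bool) (R' : ℕ → ℕ → V) (κ κ' : ℕ → ℕ), CE.Rain S G i σ N R' ∧
      (∀ k < N, κ k < M ∧ bl S (CE.LL σ R' k) = (A (κ k) 0).1) ∧
      ∀ k < N, κ' k < M ∧ bl S (CE.RL σ R' k) = (A (κ' k) r).1 := by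
    intro o hV hmon hbet
    obtain ⟨κ, x, hκ, hκM, hRw⟩ := hM V S G i r A B χ hr hV
    have hr2 : 2 ≤ r := hV.two
    obtain ⟨s, E, D, Q, X, hs, hsN, hSy, hH, hP, -⟩ := hN₂ V S G r _ _ χ x hE hF (by omega) hr hRw
    have c0 : ∀ k < 5 * N + m₀ + 16, S.c (x 0 (s k)) = i := fun k hk => by
      have := (hRw.le 0 (by omega) (s k) (hsN k hk)).2
      rw [hV.ch0] at this
      exact this
    have l0 : ∀ k < 5 * N + m₀ + 16, bl S (x 0 (s k)) = (A (κ (s k)) 0).1 := fun k hk => by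
      have := (hRw.le 0 (by omega) (s k) (hsN k hk)).1
      rw [hV.fst _ (hκM _ (hsN k hk))]
      exact this
    have c1 : ∀ k < 5 * N + m₀ + 16, S.c (x (2 * r - 1) (s k)) = i := fun k hk => by
      have := (hRw.en (r - 1) (by omega) (s k) (hsN k hk)).2
      rw [show r - 1 + 1 = r from by omega, hV.chr, show 2 * (r - 1) + 1 = 2 * r - 1 from by omega] at this
      exact this
    have l1 : ∀ k < 5 * N + m₀ + 16, bl S (x (2 * r - 1) (s k)) = (A (κ (s k)) r).1 := fun k hk => by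
      have := (hRw.en (r - 1) (by omega) (s k) (hsN k hk)).1
      rw [show 2 * (r - 1) + 1 = 2 * r - 1 from by omega] at this
      rw [this, show r - 1 + 1 = r from by omega]
    have hκs : ∀ k l, k < l → l < 5 * N + m₀ + 16 → κ (s k) < κ (s l) := fun k l hkl hl =>
      hκ _ _ (hs k l hkl hl) (hsN l hl)
    have hB : Ba S i (5 * N + m₀ + 16) (fun j k => x j (s k)) 0 (2 * r - 1) o := by
      refine ⟨c0, c1, fun k l hkl hl => ?_, fun k l hkl hl => ?_, fun k hk l hl => ?_⟩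
      · refine rho_lt ((c0 k (by omega)).trans (c0 l hl).symm) ?_
        rw [l0 k (by omega), l0 l hl]
        exact (hmon _ _ (hκs k l hkl hl) (hκM _ (hsN l hl))).1
      · have h7 := (hmon _ _ (hκs k l hkl hl) (hκM _ (hsN l hl))).2
        cases o
        · refine rho_lt ((c1 l hl).trans (c1 k (by omega)).symm) ?_
          rw [l1 k (by omega), l1 l hl]
          exact h7
        · refine rho_lt ((c1 k (by omega)).trans (c1 l hl).symm) ?_
          rw [l1 k (by omega), l1 l hl]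
          exact h7
      · refine rho_lt ((c0 k hk).trans (c1 l hl).symm) ?_
        rw [l0 k hk, l1 l hl]
        exact hbet _ (hκM _ (hsN k hk)) _ (hκM _ (hsN l hl))
    obtain ⟨ho, σ, q, hO⟩ := core (o := o) hE hF h3 h4 h6 hr2 (by omega) (by omega) hi hSy hB hH hP
    refine ⟨ho, ?_⟩
    subst ho
    obtain ⟨R', κ₁, κ₁', hR, hκ₁, hκ₁'⟩ := h5 V n b S G (3 * r + 1) N (fun j k => x j (s k)) E D Q X i 0
      (2 * r - 1) σ q hE (Sy.mono hSy (by omega)) (Ba.mono hB (by omega)) hO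
    refine ⟨σ, R', fun k => κ (s (κ₁ k)), fun k => κ (s (κ₁' k)), hR, fun k hk => ?_, fun k hk => ?_⟩
    · have h7 := hκ₁ k hk
      refine ⟨hκM _ (hsN _ (by omega)), ?_⟩
      rw [h7.2]
      exact l0 _ (by omega)
    · have h7 := hκ₁' k hk
      refine ⟨hκM _ (hsN _ (by omega)), ?_⟩
      rw [h7.2]
      exact l1 _ (by omega)
  constructor
  · intro hP
    exact absurd (key true hP.tr hP.mon hP.bet).1 (by decide)
  · intro hR
    exact (key false hR.tr hR.mon hR.bet).2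

end Pool.Agent.MPd439b2.F1
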