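import Pool.Agent.Lib.MP_d439b2_co.F1.Spec
import Pool.Agent.Lib.MP_d439b2_co.FT.F2w

/-!
# MP_d439b2_co, F1: `S_f2` (helper40, from `FT.f2` of helper32)
-/

set_option autoImplicit false

namespace Pool.Agent.MPd439b2.F1

open Pool.Agent.MPd439b2

theorem pf2 : S_f2 := by
  intro V G hH hJ x F h a1 a2 a3 t1 b1 b2 b3 t2 _ _ hh c1 _
  have h1 : F 17 = !F 0 := by
    cases h0 : F 0 <;> cases h1 : F 17 <;> simp_all
  have h2 : F 34 = F 0 := by
    cases h0 : F 0 <;> cases h1 : F 17 <;> cases h2 : F 34 <;> simp_all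
  have h3 : F 48 = !F 3 := by
    cases h0 : F 3 <;> cases h1 : F 48 <;> simp_all
  obtain ⟨e1, e2⟩ := FT.f2 hH hJ h h1 h2 a1 a2 a3 b1 b2 b3 h3
  exact hh (e1.symm.trans (c1.trans e2))

end Pool.Agent.MPd439b2.F1
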