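import Pool.Agent.Lib.MP_d439b2_co.F1.Spec

/-!
# MP_d439b2_co, F1, Ki: the kinds of links of homogeneous rows
-/

set_option autoImplicit false

namespace Pool.Agent.MPd439b2.F1

open Pool.Agent.MPd439b2 Pool.Agent.MPd439b2.X2 Pool.Agent.MPd439b2.BT

/-- two vertices of a class cannot be distinguished in both directions -/
private theorem Ki_cross {V : Type} {n : ℕ} {S : St V n} {u0 u1 w0 w1 : V} {P : Prop}
    (hu : S.c u0 = S.c u1) (hw : S.c w0 = S.c w1) (hne : S.c w0 ≠ S.c u0)
    (A01 : S.G.Adj u0 w1 ↔ P) (A10 : S.G.Adj u1 w0 ↔ P) (A00 : S.G.Adj u0 w0 ↔ ¬ P)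
    (A11 : S.G.Adj u1 w1 ↔ ¬ P) : False := by
  rcases S.le_total (S.s (S.c u0) (S.c w0)) u0 u1 with h | h
  · by_cases hP : P
    · exact (A00.1 (S.see hu hne h (A10.2 hP))) hP
    · rw [hw] at h hne
      exact hP (A01.1 (S.see hu hne h (A11.2 hP)))
  · rw [hu] at h hne
    by_cases hP : P
    · rw [hw] at h hne
      exact (A11.1 (S.see hu.symm hne h (A01.2 hP))) hP
    · exact hP (A10.1 (S.see hu.symm hne h (A00.2 hP)))

section

variable {V : Type} {n b m₀ : ℕ} {S : St V n} {G : SimpleGraph V} {L M : ℕ}
  {x : ℕ → ℕ → V} {E D Q X : ℕ → ℕ → Bool}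

private theorem Ki_adj {u w : V} (h : ¬ BT.Exc S G u w) : S.G.Adj u w ↔ G.Adj u w := by
  unfold BT.Exc at h
  exact not_not.1 h

/-- the adjacency inside a row -/
private theorem Ki_row (h : Sy S G L M x E D Q X) {i : ℕ} (hi : i < L) {k l : ℕ} (hk : k < M)
    (hl : l < M) (hkl : k ≠ l) :
    G.Adj (x i k) (x i l) ↔ S.t (S.c (x i 0)) = true := by
  rw [← Ki_adj (h.exc i hi i hi k hk l hl hkl),
    S.typ _ _ (h.neq i hi i hi k hk l hl hkl) (h.cls i hi k hk l hl),
    h.cls i hi k hk 0 (by omega)]

/-- the adjacency of different indices -/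
private theorem Ki_off (h : Sy S G L M x E D Q X) {i j : ℕ} (hi : i < L) (hj : j < L)
    (hE : E i j = E j i) {k l : ℕ} (hk : k < M) (hl : l < M) (hkl : k ≠ l) :
    G.Adj (x i k) (x j l) ↔ E i j = true := by
  rcases Nat.lt_or_gt_of_ne hkl with h1 | h1
  · exact h.rel i hi j hj k l h1 hl
  · rw [SimpleGraph.adj_comm, h.rel j hj i hi l k h1 hk, hE]

private theorem Ki_dis (h : Sy S G L M x E D Q X) {i j : ℕ} (hi : i < L) (hj : j < L)
    (hQ : Q i j = false) {k l : ℕ} (hk : k < M) (hl : l < M) : x i k ≠ x j l := by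
  by_cases hkl : k = l
  · subst hkl
    intro he
    rw [h.eq i hi j hj k hk, hQ] at he
    exact absurd he (by simp)
  · exact h.neq i hi j hj k hk l hl hkl

private theorem Ki_tp (h : Sy S G L M x E D Q X) (hF : Fr3 G m₀) (hm : m₀ ≤ M) {i j : ℕ}
    (hi : i < L) (hj : j < L) (hQ : Q i j = false) (h1 : E i j = false) (h2 : E j i = false)
    (hD : D i j = true) (hti : S.t (S.c (x i 0)) = true) (htj : S.t (S.c (x j 0)) = false) :
    False := by
  refine hF.nt (fun k => x i k) (fun k => x j k) ⟨?_, ?_, ?_, ?_, ?_, ?_⟩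
  · intro k hk l hl
    exact Ki_dis h hi hj hQ (by omega) (by omega)
  · intro k hk l hl hkl
    exact h.neq i hi i hi k (by omega) l (by omega) hkl
  · intro k hk l hl hkl
    exact h.neq j hj j hj k (by omega) l (by omega) hkl
  · intro k hk l hl hkl
    rw [Ki_row h hi (by omega) (by omega) hkl, hti]
  · intro k hk l hl hkl
    rw [Ki_row h hj (by omega) (by omega) hkl, htj]
  · intro k hk l hl
    by_cases hkl : k = l
    · subst hkl
      rw [h.dg i hi j hj k (by omega), hD]
      simp
    · rw [Ki_off h hi hj (h1.trans h2.symm) (by omega) (by omega) hkl, h1]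
      simp [hkl]

end

theorem pKi : S_Ki := by
  intro V n b m₀ S G L M x E D Q X hE hF h hM hm i hi j hj
  have hcu : ∀ k < M, S.c (x i k) = S.c (x i 0) := fun k hk => h.cls i hi k hk 0 (by omega)
  have hcw : ∀ k < M, S.c (x j k) = S.c (x j 0) := fun k hk => h.cls j hj k hk 0 (by omega)
  refine ⟨?_, ?_⟩
  · rintro ⟨hQ, hL⟩
    have hcls : S.c (x i 0) ≠ S.c (x j 0) := by
      intro hc
      have key : ∀ k < M, ∀ l < M, G.Adj (x i k) (x j l) ↔ S.t (S.c (x i 0)) = true := by
        intro k hk l hl
        have hcc : S.c (x i k) = S.c (x j l) := by rw [hcu k hk, hcw l hl, hc]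
        rw [← Ki_adj (fun he => hE.cls he hcc), S.typ _ _ (Ki_dis h hi hj hQ hk hl) hcc, hcu k hk]
      have e1 : E i j = true ↔ S.t (S.c (x i 0)) = true := by
        rw [← h.rel i hi j hj 0 1 (by omega) (by omega)]
        exact key 0 (by omega) 1 (by omega)
      have e2 : E j i = true ↔ S.t (S.c (x i 0)) = true := by
        rw [← h.rel j hj i hi 0 1 (by omega) (by omega), SimpleGraph.adj_comm]
        exact key 1 (by omega) 0 (by omega)
      have e3 : D i j = true ↔ S.t (S.c (x i 0)) = true := by
        rw [← h.dg i hi j hj 0 (by omega)]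
        exact key 0 (by omega) 0 (by omega)
      exact hL ⟨Bool.eq_iff_iff.2 (e1.trans e2.symm), Bool.eq_iff_iff.2 (e3.trans e1.symm)⟩
    refine ⟨hcls, ?_⟩
    by_cases hHf : Hf E i j
    · exact Or.inl hHf
    right
    have hEE : E i j = E j i := not_not.1 hHf
    have hDE : D i j ≠ E i j := fun h' => hL ⟨hEE, h'⟩
    have hX : X i j = true := by
      by_contra hX
      have hnx : ∀ k < M, ¬ BT.Exc S G (x i k) (x j k) := by
        intro k hk he
        exact hX ((h.exd i hi j hj k hk).1 he)
      have hdiag : ∀ k < M, (S.G.Adj (x i k) (x j k) ↔ ¬ E i j = true) := by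
        intro k hk
        rw [Ki_adj (hnx k hk), h.dg i hi j hj k hk]
        cases hh : E i j <;> cases hh' : D i j <;> simp_all
      refine Ki_cross (S := S) (u0 := x i 0) (u1 := x i 1) (w0 := x j 0) (w1 := x j 1)
        (P := E i j = true) (hcu 1 (by omega)).symm (hcw 1 (by omega)).symm hcls.symm ?_ ?_
        (hdiag 0 (by omega)) (hdiag 1 (by omega))
      · rw [Ki_adj (h.exc i hi j hj 0 (by omega) 1 (by omega) (by omega)),
          Ki_off h hi hj hEE (by omega) (by omega) (by omega)]
      · rw [Ki_adj (h.exc i hi j hj 1 (by omega) 0 (by omega) (by omega)),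
          Ki_off h hi hj hEE (by omega) (by omega) (by omega)]
    have hexc : BT.Exc S G (x i 0) (x j 0) := (h.exd i hi j hj 0 (by omega)).2 hX
    have htyp := hE.typ _ _ hexc
    have hEt : E i j = true := by
      by_contra hEf
      have hEf' : E i j = false := by simpa using hEf
      have hDt : D i j = true := by
        rw [hEf'] at hDE
        simpa using hDE
      cases ht : S.t (S.c (x i 0)) with
      | true =>
        have ht' : S.t (S.c (x j 0)) = false := by
          rw [ht] at htyp
          cases hh : S.t (S.c (x j 0)) with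
          | true => exact absurd hh.symm htyp
          | false => rfl
        exact Ki_tp h hF hm hi hj hQ hEf' (hEE.symm.trans hEf') hDt ht ht'
      | false =>
        have ht' : S.t (S.c (x j 0)) = true := by
          rw [ht] at htyp
          cases hh : S.t (S.c (x j 0)) with
          | true => rfl
          | false => exact absurd hh.symm htyp
        have hQ' : Q j i = false := by
          by_contra hq
          have hq' : Q j i = true := by simpa using hq
          exact Ki_dis h hi hj hQ (by omega) (by omega)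
            ((h.eq j hj i hi 0 (by omega)).2 hq').symm
        have hD' : D j i = true := by
          rw [← h.dg j hj i hi 0 (by omega), SimpleGraph.adj_comm, h.dg i hi j hj 0 (by omega)]
          exact hDt
        exact Ki_tp h hF hm hj hi hQ' (hEE.symm.trans hEf') hEf' hD' ht' ht
    refine ⟨hEt, hEE.symm.trans hEt, ?_, hX, htyp⟩
    rw [hEt] at hDE
    simpa using hDE
  · intro hX
    have hexc : ∀ k < M, BT.Exc S G (x i k) (x j k) := fun k hk => (h.exd i hi j hj k hk).2 hX
    have hcls : S.c (x i 0) ≠ S.c (x j 0) := hE.cls (hexc 0 (by omega))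
    refine ⟨?_, ?_⟩
    · by_contra hq
      have hq' : Q i j = true := by simpa using hq
      exact hcls (by rw [(h.eq i hi j hj 0 (by omega)).2 hq'])
    · rintro ⟨hEE, hDE⟩
      have hdiag : ∀ k < M, (S.G.Adj (x i k) (x j k) ↔ ¬ E i j = true) := by
        intro k hk
        have h1 := hexc k hk
        unfold BT.Exc at h1
        rw [h.dg i hi j hj k hk, hDE] at h1
        tauto
      refine Ki_cross (S := S) (u0 := x i 0) (u1 := x i 1) (w0 := x j 0) (w1 := x j 1)
        (P := E i j = true) (hcu 1 (by omega)).symm (hcw 1 (by omega)).symm hcls.symm ?_ ?_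
        (hdiag 0 (by omega)) (hdiag 1 (by omega))
      · rw [Ki_adj (h.exc i hi j hj 0 (by omega) 1 (by omega) (by omega)),
          Ki_off h hi hj hEE (by omega) (by omega) (by omega)]
      · rw [Ki_adj (h.exc i hi j hj 1 (by omega) 0 (by omega) (by omega)),
          Ki_off h hi hj hEE (by omega) (by omega) (by omega)]

end Pool.Agent.MPd439b2.F1
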