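import Pool.Agent.Lib.MP_d439b2_co.F1.Spec

/-!
# MP_d439b2_co, F1: the rainbow from the five rows (statement and proof by helper40)
-/

set_option autoImplicit false

namespace Pool.Agent.MPd439b2.F1

open Pool.Agent.MPd439b2 Pool.Agent.MPd439b2.X2 Pool.Agent.MPd439b2.BT

/-- the shifts -/
private def Out_d : ℕ → ℕ
  | 0 => 0
  | 1 => 2
  | 2 => 2
  | 3 => 1
  | _ => 3

private theorem Out_d_le (j : ℕ) : Out_d j ≤ 3 := by
  unfold Out_d
  split <;> omega

private def Out_i (N j k : ℕ) : ℕ := 5 * N - 1 - (5 * k + Out_d j)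

private theorem Out_i_lt {N k : ℕ} (j : ℕ) (hk : k < N) : Out_i N j k < 5 * N := by
  unfold Out_i
  omega

private theorem Out_i_mon {N k l : ℕ} (i j : ℕ) (hkl : k < l) (hl : l < N) :
    Out_i N i l < Out_i N j k := by
  have h1 := Out_d_le i
  have h2 := Out_d_le j
  unfold Out_i
  omega

private theorem Out_i_eq {N k : ℕ} (i j : ℕ) (hk : k < N) :
    Out_i N i k < Out_i N j k ↔ Out_d j < Out_d i := by
  have h1 := Out_d_le i
  have h2 := Out_d_le j
  unfold Out_i
  omega

private theorem Out_i_same {N k l : ℕ} (i j : ℕ) (hk : k < N) (hl : l < N)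
    (h : Out_i N i k = Out_i N j l) : k = l ∧ Out_d i = Out_d j := by
  have h1 := Out_d_le i
  have h2 := Out_d_le j
  unfold Out_i at h
  omega

private theorem Out_t1 (i : ℕ) (hi : i < 5) (j : ℕ) (hj : j < 5) (h : Out_d i = Out_d j) (hn : i ≠ j) :
    i = 1 ∧ j = 2 ∨ i = 2 ∧ j = 1 := by
  have h1 : ∀ i j : Fin 5, Out_d i.1 = Out_d j.1 → i.1 ≠ j.1 →
      i.1 = 1 ∧ j.1 = 2 ∨ i.1 = 2 ∧ j.1 = 1 := by decide
  exact h1 ⟨i, hi⟩ ⟨j, hj⟩ h hn

private theorem Out_t2 (i : ℕ) (hi : i < 5) (j : ℕ) (hj : j < 5) (h : i < j)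
    (hn : Out_d i < Out_d j) : CE.rb i j = CE.db i j := by
  have h1 : ∀ i j : Fin 5, i.1 < j.1 → Out_d i.1 < Out_d j.1 → CE.rb i.1 j.1 = CE.db i.1 j.1 := by
    decide
  exact h1 ⟨i, hi⟩ ⟨j, hj⟩ h hn

private theorem Out_t3 (i : ℕ) (hi : i < 5) (j : ℕ) (hj : j < 5) (h : i < j)
    (hn : Out_d j < Out_d i) : CE.rb j i = CE.db i j := by
  have h1 : ∀ i j : Fin 5, i.1 < j.1 → Out_d j.1 < Out_d i.1 → CE.rb j.1 i.1 = CE.db i.1 j.1 := by
    decide
  exact h1 ⟨i, hi⟩ ⟨j, hj⟩ h hn

theorem pOut : S_Out := by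
  intro V n b S G L N x E D Q X i a d σ q hE h hB hO
  have hlt := hO.lt
  have hM : ∀ {j k : ℕ}, k < N → Out_i N j k < 5 * N := fun {j k} hk => Out_i_lt j hk
  -- adjacency for indices in decreasing order
  have hrel : ∀ i' < 5, ∀ j < 5, ∀ k l, Out_i N j l < Out_i N i' k → k < N → l < N →
      (G.Adj (x (q i') (Out_i N i' k)) (x (q j) (Out_i N j l)) ↔ CE.rb i' j = true) := by
    intro i' hi j hj k l hlt' hk hl
    rw [SimpleGraph.adj_comm, h.rel (q j) (hlt j hj) (q i') (hlt i' hi) _ _ hlt' (hM hk),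
      hO.tab j hj i' hi]
  have hexc : ∀ j < 5, ∀ j' < 5, ∀ k < N, ∀ l < N,
      BT.Exc S G (x (q j) (Out_i N j k)) (x (q j') (Out_i N j' l)) →
        k = l ∧ Out_d j = Out_d j' := by
    intro j hj j' hj' k hk l hl he
    by_contra hne
    refine h.exc (q j) (hlt j hj) (q j') (hlt j' hj') _ (hM hk) _ (hM hl) (fun h1 => ?_) he
    exact hne (Out_i_same j j' hk hl h1)
  have hself : ∀ y : V, ¬ BT.Exc S G y y := by
    intro y he
    exact he (by simp)
  have hmate : ∀ k < N, BT.Exc S G (x (q 1) (Out_i N 1 k)) (x (q 2) (Out_i N 2 k)) := by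
    intro k hk
    have h1 : Out_i N 2 k = Out_i N 1 k := rfl
    rw [h1]
    exact (h.exd (q 1) (hlt 1 (by omega)) (q 2) (hlt 2 (by omega)) _ (hM hk)).2 hO.xcs
  have hne12 : ∀ k < N, x (q 1) (Out_i N 1 k) ≠ x (q 2) (Out_i N 2 k) := by
    intro k hk he
    have h1 := hmate k hk
    rw [he] at h1
    exact hself _ h1
  have hty : ∀ j < 5, ∀ k < N, (S.t (S.c (x (q j) (Out_i N j k))) = true ↔ CE.rb j j = true) := by
    intro j hj k hk
    have k0 : 0 < 5 * N := by omega
    have k1 : 1 < 5 * N := by omega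
    rw [h.cls (q j) (hlt j hj) _ (hM hk) 0 k0, ← S.typ (x (q j) 0) (x (q j) 1)
      (h.neq _ (hlt j hj) _ (hlt j hj) 0 k0 1 k1 (by omega)) (h.cls _ (hlt j hj) 0 k0 1 k1),
      ← hO.tab j hj j hj, ← h.rel (q j) (hlt j hj) (q j) (hlt j hj) 0 1 (by omega) k1]
    exact not_not.mp (h.exc _ (hlt j hj) _ (hlt j hj) 0 k0 1 k1 (by omega))
  refine ⟨fun j k => x (q j) (Out_i N j k), fun k => Out_i N (bif σ then 0 else 4) k,
    fun k => Out_i N (bif σ then 4 else 0) k, ?_, ?_, ?_⟩
  · have hLL : ∀ k, CE.LL σ (fun j k => x (q j) (Out_i N j k)) k =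
        x a (Out_i N (bif σ then 0 else 4) k) := by
      intro k
      have h1 := hO.lft
      cases σ
      · simp only [CE.LL, cond_false] at h1 ⊢
        rw [h1]
      · simp only [CE.LL, cond_true] at h1 ⊢
        rw [h1]
    have hRL : ∀ k, CE.RL σ (fun j k => x (q j) (Out_i N j k)) k =
        x d (Out_i N (bif σ then 4 else 0) k) := by
      intro k
      have h1 := hO.rgt
      cases σ
      · simp only [CE.RL, cond_false] at h1 ⊢
        rw [h1]
      · simp only [CE.RL, cond_true] at h1 ⊢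
        rw [h1]
    have hc04 : (∀ k < N, S.c (x (q 0) (Out_i N 0 k)) = i) ∧
        ∀ k < N, S.c (x (q 4) (Out_i N 4 k)) = i := by
      have h1 := hO.lft
      have h2 := hO.rgt
      cases σ
      · simp only [cond_false] at h1 h2
        rw [h1, h2]
        exact ⟨fun k hk => hB.c1 _ (hM hk), fun k hk => hB.c0 _ (hM hk)⟩
      · simp only [cond_true] at h1 h2
        rw [h1, h2]
        exact ⟨fun k hk => hB.c0 _ (hM hk), fun k hk => hB.c1 _ (hM hk)⟩
    exact
      { dis := by
          intro i' hi j hj k hk l hl hne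
          by_cases h1 : Out_i N i' k = Out_i N j l
          · obtain ⟨h2, h3⟩ := Out_i_same i' j hk hl h1
            subst h2
            rcases Out_t1 i' hi j hj h3 (hne.resolve_right fun h5 => h5 rfl) with ⟨rfl, rfl⟩ | ⟨rfl, rfl⟩
            · exact hne12 k hk
            · exact (hne12 k hk).symm
          · exact h.neq _ (hlt i' hi) _ (hlt j hj) _ (hM hk) _ (hM hl) h1
        rel := fun i' hi j hj k l hkl hl =>
          hrel i' hi j hj k l (Out_i_mon j i' hkl hl) (hkl.trans hl) hl
        dg := by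
          intro i' hi j hj hij k hk
          rcases lt_trichotomy (Out_d i') (Out_d j) with h1 | h1 | h1
          · rw [hrel i' hi j hj k k ((Out_i_eq j i' hk).2 h1) hk hk, Out_t2 i' hi j hj hij h1]
          · have h4 : i' = 1 ∧ j = 2 := by
              rcases Out_t1 i' hi j hj h1 hij.ne with h5 | h5
              · exact h5
              · omega
            obtain ⟨rfl, rfl⟩ := h4
            have h5 : Out_i N 2 k = Out_i N 1 k := rfl
            rw [h5, h.dg _ (hlt 1 hi) _ (hlt 2 hj) _ (hM hk), hO.dcs]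
            simp [CE.db]
          · rw [SimpleGraph.adj_comm, hrel j hj i' hi k k ((Out_i_eq i' j hk).2 h1) hk hk,
              Out_t3 i' hi j hj hij h1]
        cu := hc04.1
        ct := hc04.2
        cls := fun j hj k hk l hl => h.cls _ (hlt j hj) _ (hM hk) _ (hM hl)
        tc := fun k hk => (hty 1 (by omega) k hk).2 rfl
        ts := fun k hk => by
          have h1 := hty 2 (by omega) k hk
          cases h2 : S.t (S.c (x (q 2) (Out_i N 2 k)))
          · rfl
          · exact absurd (h1.1 h2) (by simp [CE.rb])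
        tw := fun k hk => (hty 3 (by omega) k hk).2 rfl
        mate := hmate
        exc := by
          intro j hj j' hj' k hk l hl he
          obtain ⟨h2, h3⟩ := hexc j hj j' hj' k hk l hl he
          refine ⟨h2, ?_⟩
          subst h2
          by_cases h5 : j = j'
          · subst h5
            exact absurd he (hself _)
          · exact Out_t1 j hj j' hj' h3 h5
        dec := fun k l hkl hl => by
          rw [hLL, hLL]
          exact hB.inc _ _ (Out_i_mon _ _ hkl hl) (hM (hkl.trans hl))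
        inc := fun k l hkl hl => by
          rw [hRL, hRL]
          have h1 := hB.mon _ _ (Out_i_mon (bif σ then 4 else 0) (bif σ then 4 else 0) hkl hl)
            (hM (hkl.trans hl))
          simpa only [cond_false] using h1
        bet := fun k hk l hl => by
          rw [hLL, hRL]
          exact hB.bet _ (hM hk) _ (hM hl) }
  · intro k hk
    refine ⟨hM hk, ?_⟩
    have h1 := hO.lft
    cases σ
    · simp only [CE.LL, cond_false] at h1 ⊢
      rw [h1]
    · simp only [CE.LL, cond_true] at h1 ⊢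
      rw [h1]
  · intro k hk
    refine ⟨hM hk, ?_⟩
    have h1 := hO.rgt
    cases σ
    · simp only [CE.RL, cond_false] at h1 ⊢
      rw [h1]
    · simp only [CE.RL, cond_true] at h1 ⊢
      rw [h1]

end Pool.Agent.MPd439b2.F1
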