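import Pool.Agent.Lib.MP_d439b2_co.F1.Spec

/-!
# MP_d439b2_co, F1: a chordless track of rows (`S_Pth`)
-/

set_option autoImplicit false

namespace Pool.Agent.MPd439b2.F1

open Pool.Agent.MPd439b2 Pool.Agent.MPd439b2.X2 Pool.Agent.MPd439b2.BT

section

variable {V : Type} {n : ℕ} {S : St V n} {G : SimpleGraph V} {L M : ℕ}
    {x : ℕ → ℕ → V} {E D Q X : ℕ → ℕ → Bool}

private theorem Pth_bool {a b : Bool} {p : Prop} (h1 : p ↔ a = true) (h2 : p ↔ b = true) :
    a = b := by
  cases a <;> cases b <;> simp_all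

private theorem Pth_row (hS : Sy S G L M x E D Q X) {i j : ℕ} (hi : i < L)
    (hj : j < L) (hQ : Q i j = true) (k : ℕ) (hk : k < M) : x i k = x j k :=
  (hS.eq i hi j hj k hk).2 hQ

private theorem Pth_Qs (hS : Sy S G L M x E D Q X) (hM : 2 ≤ M) {i j : ℕ} (hi : i < L)
    (hj : j < L) : Q i j = Q j i := by
  have h1 := hS.eq i hi j hj 0 (by omega)
  have h2 := hS.eq j hj i hi 0 (by omega)
  rw [eq_comm] at h2
  exact Pth_bool h1 h2

private theorem Pth_Ds (hS : Sy S G L M x E D Q X) (hM : 2 ≤ M) {i j : ℕ} (hi : i < L)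
    (hj : j < L) : D i j = D j i := by
  have h1 := hS.dg i hi j hj 0 (by omega)
  have h2 := hS.dg j hj i hi 0 (by omega)
  rw [SimpleGraph.adj_comm] at h2
  exact Pth_bool h1 h2

/-- Equal rows have the same relations. -/
private theorem Pth_eqr (hS : Sy S G L M x E D Q X) (hM : 2 ≤ M)
    {i j k : ℕ} (hi : i < L) (hj : j < L) (hk : k < L) (hQ : Q i j = true) :
    E i k = E j k ∧ E k i = E k j ∧ D i k = D j k ∧ Q i k = Q j k := by
  have e0 := Pth_row hS hi hj hQ 0 (by omega)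
  have e1 := Pth_row hS hi hj hQ 1 (by omega)
  refine ⟨?_, ?_, ?_, ?_⟩
  · have h1 := hS.rel i hi k hk 0 1 (by omega) (by omega)
    have h2 := hS.rel j hj k hk 0 1 (by omega) (by omega)
    rw [e0] at h1
    exact Pth_bool h1 h2
  · have h1 := hS.rel k hk i hi 0 1 (by omega) (by omega)
    have h2 := hS.rel k hk j hj 0 1 (by omega) (by omega)
    rw [e1] at h1
    exact Pth_bool h1 h2
  · have h1 := hS.dg i hi k hk 0 (by omega)
    have h2 := hS.dg j hj k hk 0 (by omega)
    rw [e0] at h1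
    exact Pth_bool h1 h2
  · have h1 := hS.eq i hi k hk 0 (by omega)
    have h2 := hS.eq j hj k hk 0 (by omega)
    rw [e0] at h1
    exact Pth_bool h1 h2

private theorem Pth_Lks (hS : Sy S G L M x E D Q X) (hM : 2 ≤ M) {i j : ℕ} (hi : i < L)
    (hj : j < L) (h : Lk E D Q i j) : Lk E D Q j i := by
  refine ⟨by rw [← Pth_Qs hS hM hi hj]; exact h.1, fun h' => h.2 ⟨h'.1.symm, ?_⟩⟩
  rw [Pth_Ds hS hM hi hj, h'.2, h'.1]

private theorem Pth_Lkr (hS : Sy S G L M x E D Q X) (hM : 2 ≤ M) {i j k : ℕ} (hi : i < L)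
    (hj : j < L) (hk : k < L) (hQ : Q i j = true) (h : Lk E D Q i k) : Lk E D Q j k := by
  obtain ⟨e1, e2, e3, e4⟩ := Pth_eqr hS hM hi hj hk hQ
  refine ⟨by rw [← e4]; exact h.1, fun h' => h.2 ?_⟩
  rw [e1, e2, e3]
  exact h'

/-- `E i i` is the type of the class. -/
private theorem Pth_Eii (hS : Sy S G L M x E D Q X) (hM : 2 ≤ M) {i : ℕ} (hi : i < L) :
    E i i = S.t (S.c (x i 0)) := by
  have h1 := hS.rel i hi i hi 0 1 (by omega) (by omega)
  have h2 := hS.exc i hi i hi 0 (by omega) 1 (by omega) (by omega)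
  have h3 := S.typ (x i 0) (x i 1) (hS.neq i hi i hi 0 (by omega) 1 (by omega) (by omega))
    (hS.cls i hi 0 (by omega) 1 (by omega))
  have h4 : S.G.Adj (x i 0) (x i 1) ↔ G.Adj (x i 0) (x i 1) := not_not.1 h2
  rw [h4] at h3
  exact Pth_bool h1 h3

/-- Half rows are different. -/
private theorem Pth_HfQ (hS : Sy S G L M x E D Q X) (hM : 2 ≤ M) {i j : ℕ} (hi : i < L)
    (hj : j < L) (h : Hf E i j) : Q i j = false := by
  by_contra hc
  rw [Bool.not_eq_false] at hc
  obtain ⟨e1, e2, -, -⟩ := Pth_eqr hS hM hi hj hj hc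
  exact h (by rw [e1, e2])

end

/-- Four rows. -/
private def Pth_r (a b c d : ℕ) : ℕ → ℕ
  | 0 => a
  | 1 => b
  | 2 => c
  | _ => d

private def Pth_F (E D : ℕ → ℕ → Bool) (r : ℕ → ℕ) (i : ℕ) : Bool :=
  if i < 256 then E (r (i / 16)) (r (i % 16)) else D (r ((i - 256) / 16)) (r ((i - 256) % 16))

private theorem Pth_F1 (E D : ℕ → ℕ → Bool) (r : ℕ → ℕ) (i j : ℕ) (hi : i < 16) (hj : j < 16) :
    Pth_F E D r (16 * i + j) = E (r i) (r j) := by
  unfold Pth_F
  rw [if_pos (by omega), show (16 * i + j) / 16 = i by omega, show (16 * i + j) % 16 = j by omega]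

private theorem Pth_F2 (E D : ℕ → ℕ → Bool) (r : ℕ → ℕ) (i j : ℕ) (hj : j < 16) :
    Pth_F E D r (256 + 16 * i + j) = D (r i) (r j) := by
  unfold Pth_F
  rw [if_neg (by omega), show (256 + 16 * i + j - 256) / 16 = i by omega,
    show (256 + 16 * i + j - 256) % 16 = j by omega]

private theorem Pth_four {a b c d : ℕ} {P : ℕ → ℕ → Prop} (hs : ∀ i j, P i j → P j i)
    (h1 : P a b) (h2 : P a c) (h3 : P a d) (h4 : P b c) (h5 : P b d) (h6 : P c d) :
    ∀ i < 4, ∀ j < 4, i ≠ j → P (Pth_r a b c d i) (Pth_r a b c d j) := by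
  intro i hi j hj hij
  interval_cases i <;> interval_cases j <;> first
    | exact absurd rfl hij
    | exact h1
    | exact h2
    | exact h3
    | exact h4
    | exact h5
    | exact h6
    | exact hs _ _ h1
    | exact hs _ _ h2
    | exact hs _ _ h3
    | exact hs _ _ h4
    | exact hs _ _ h5
    | exact hs _ _ h6

private theorem Pth_rL {L a b c d : ℕ} (ha : a < L) (hb : b < L) (hc : c < L) (hd : d < L)
    (i : ℕ) : Pth_r a b c d i < L := by
  unfold Pth_r
  split <;> assumption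

theorem pPth (h1 : S_Ki) (h2 : S_Sht) (h3 : S_f2) : S_Pth := by
  intro V n b m₀ S G L M x E D Q X hE hF hS hM hm₀ a ha d hd hQ hhalf hex
  have hM2 : 2 ≤ M := by omega
  have hKi := h1 V n b m₀ S G L M x E D Q X hE hF hS (by omega) hm₀
  obtain ⟨m, p, p0, pm, pL, pK, c1, c2, c3⟩ := h2 L a d (Lk E D Q) (fun i j => Q i j = true)
    (fun i j => ¬ Hf E i j) (fun i hi j hj h => Pth_Lks hS hM2 hi hj h)
    (fun i hi j hj h => by rw [← Pth_Qs hS hM2 hi hj]; exact h)
    (fun i hi j hj k hk h h' => Pth_Lkr hS hM2 hi hj hk h h')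
    (fun i _ j _ h h' => by rw [h'.1] at h; exact Bool.false_ne_true h)
    (by rw [hQ]; exact Bool.false_ne_true) hex
  have hQf : ∀ s t, s < t → t ≤ m → Q (p s) (p t) = false := by
    intro s t hst ht
    have := c2 s t hst ht
    exact Bool.not_eq_true _ ▸ this
  refine ⟨m, p, p0, pm, pL, ?_⟩
  refine ⟨?_, ?_, ?_, ?_, ?_, ?_⟩
  · intro s hs t ht k hk l hl hne
    by_cases hkl : k = l
    · subst hkl
      have hst : s ≠ t := by
        rcases hne with h | h
        · exact h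
        · exact absurd rfl h
      intro he
      have h5 := (hS.eq _ (pL s hs) _ (pL t ht) k hk).1 he
      rcases Nat.lt_or_gt_of_ne hst with h | h
      · rw [hQf s t h ht] at h5
        exact Bool.false_ne_true h5
      · rw [Pth_Qs hS hM2 (pL s hs) (pL t ht), hQf t s h hs] at h5
        exact Bool.false_ne_true h5
    · exact hS.neq _ (pL s hs) _ (pL t ht) k hk l hl hkl
  · intro s hs t ht k l hkl hl
    exact hS.rel _ (pL s hs) _ (pL t ht) k l hkl hl
  · intro s hs t ht _ k hk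
    exact hS.dg _ (pL s hs) _ (pL t ht) k hk
  · intro s t hst ht
    by_contra hc
    exact c1 s t hst ht ⟨hQf s t (by omega) ht, hc⟩
  · intro t ht
    obtain ⟨-, h5⟩ := (hKi (p t) (pL t (by omega)) (p (t + 1)) (pL _ (by omega))).1 (pK t ht)
    rcases h5 with h5 | ⟨g1, g2, g3, -, g5⟩
    · exact Or.inl h5
    · refine Or.inr ⟨g1, g2, g3, ?_⟩
      show E (p t) (p t) ≠ E (p (t + 1)) (p (t + 1))
      rw [Pth_Eii hS hM2 (pL t (by omega)), Pth_Eii hS hM2 (pL (t + 1) (by omega))]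
      exact g5
  · intro t ht
    by_contra hc
    rw [not_or] at hc
    obtain ⟨w1, w2⟩ := hc
    have w1' : ¬ Hf E (p t) (p (t + 1)) := w1
    have w2' : ¬ Hf E (p (t + 1)) (p (t + 2)) := w2
    have lt0 := pL t (by omega)
    have lt1 := pL (t + 1) (by omega)
    have lt2 := pL (t + 2) ht
    obtain ⟨y, hy, hHy⟩ := hhalf (p t) lt0
    have hLy : Lk E D Q (p t) y := ⟨Pth_HfQ hS hM2 lt0 hy hHy, fun h => hHy h.1⟩
    have hnL : ¬ Lk E D Q y (p (t + 2)) := fun h =>
      c3 t ht y hy w1' w2' hLy h hHy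
    have hQy2 : Q y (p (t + 2)) = false := by
      by_contra hc
      rw [Bool.not_eq_false] at hc
      exact c1 t (t + 2) le_rfl ht (Pth_Lks hS hM2 lt2 lt0
        (Pth_Lkr hS hM2 hy lt2 lt0 hc (Pth_Lks hS hM2 lt0 hy hLy)))
    have hy2 : E y (p (t + 2)) = E (p (t + 2)) y ∧ D y (p (t + 2)) = E y (p (t + 2)) := by
      by_contra hc
      exact hnL ⟨hQy2, hc⟩
    have hQy1 : Q (p (t + 1)) y = false := by
      by_contra hc
      rw [Bool.not_eq_false] at hc
      obtain ⟨e1, e2, -, -⟩ := Pth_eqr hS hM2 lt1 hy lt0 hc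
      apply w1'
      unfold Hf
      rw [e2, e1]
      exact hHy
    have k0 := (hKi (p t) lt0 (p (t + 1)) lt1).1 (pK t (by omega))
    have k1 := (hKi (p (t + 1)) lt1 (p (t + 2)) lt2).1 (pK (t + 1) (by omega))
    obtain ⟨a1, a2, a3, -, a5⟩ := k0.2.resolve_left w1'
    obtain ⟨b1, b2, b3, -, b5⟩ := k1.2.resolve_left w2'
    rw [← Pth_Eii hS hM2 lt0, ← Pth_Eii hS hM2 lt1] at a5
    rw [← Pth_Eii hS hM2 lt1, ← Pth_Eii hS hM2 lt2] at b5
    have hc02 : E (p t) (p (t + 2)) = E (p (t + 2)) (p t) ∧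
        D (p t) (p (t + 2)) = E (p t) (p (t + 2)) := by
      by_contra hc
      exact c1 t (t + 2) le_rfl ht ⟨hQf t (t + 2) (by omega) ht, hc⟩
    have hrL := Pth_rL lt0 lt1 lt2 hy
    have hdis : ∀ i < 4, ∀ j < 4, i ≠ j →
        (Q (Pth_r (p t) (p (t + 1)) (p (t + 2)) y i) (Pth_r (p t) (p (t + 1)) (p (t + 2)) y j) =
          false ∨ Q (Pth_r (p t) (p (t + 1)) (p (t + 2)) y j)
            (Pth_r (p t) (p (t + 1)) (p (t + 2)) y i) = false) :=
      Pth_four (P := fun i j => Q i j = false ∨ Q j i = false) (fun i j h => h.symm)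
        (Or.inl (hQf t (t + 1) (by omega) (by omega)))
        (Or.inl (hQf t (t + 2) (by omega) ht)) (Or.inl hLy.1)
        (Or.inl (hQf (t + 1) (t + 2) (by omega) ht)) (Or.inl hQy1) (Or.inr hQy2)
    have hHR : FT.HR G 4 16 (fun i k => x (Pth_r (p t) (p (t + 1)) (p (t + 2)) y i) k)
        (Pth_F E D (Pth_r (p t) (p (t + 1)) (p (t + 2)) y)) := by
      refine ⟨?_, ?_, ?_⟩
      · intro i hi j hj k hk l hl hne
        by_cases hkl : k = l
        · subst hkl
          have hij : i ≠ j := by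
            rcases hne with h | h
            · exact h
            · exact absurd rfl h
          intro he
          rcases hdis i hi j hj hij with h | h
          · have h5 := (hS.eq _ (hrL i) _ (hrL j) k (by omega)).1 he
            rw [h] at h5
            exact Bool.false_ne_true h5
          · have h5 := (hS.eq _ (hrL j) _ (hrL i) k (by omega)).1 he.symm
            rw [h] at h5
            exact Bool.false_ne_true h5
        · exact hS.neq _ (hrL i) _ (hrL j) k (by omega) l (by omega) hkl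
      · intro i hi j hj k l hkl hl
        rw [Pth_F1 _ _ _ i j (by omega) (by omega)]
        exact hS.rel _ (hrL i) _ (hrL j) k l hkl (by omega)
      · intro i hi j hj _ k hk
        rw [Pth_F2 _ _ _ i j (by omega)]
        exact hS.dg _ (hrL i) _ (hrL j) k (by omega)
    have f1 := fun i j (hi : i < 16) (hj : j < 16) =>
      Pth_F1 E D (Pth_r (p t) (p (t + 1)) (p (t + 2)) y) i j hi hj
    have f2 := fun i j (hj : j < 16) =>
      Pth_F2 E D (Pth_r (p t) (p (t + 1)) (p (t + 2)) y) i j hj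
    refine h3 V G hF.hH hF.hJ _ _ hHR ?_ ?_ ?_ ?_ ?_ ?_ ?_ ?_ ?_ ?_ ?_ ?_ ?_
    · exact (f1 0 1 (by norm_num) (by norm_num)).trans a1
    · exact (f1 1 0 (by norm_num) (by norm_num)).trans a2
    · exact (f2 0 1 (by norm_num)).trans a3
    · rw [show (0 : ℕ) = 16 * 0 + 0 from rfl, f1 0 0 (by norm_num) (by norm_num),
        show (17 : ℕ) = 16 * 1 + 1 from rfl, f1 1 1 (by norm_num) (by norm_num)]
      exact a5
    · exact (f1 1 2 (by norm_num) (by norm_num)).trans b1
    · exact (f1 2 1 (by norm_num) (by norm_num)).trans b2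
    · exact (f2 1 2 (by norm_num)).trans b3
    · rw [show (17 : ℕ) = 16 * 1 + 1 from rfl, f1 1 1 (by norm_num) (by norm_num),
        show (34 : ℕ) = 16 * 2 + 2 from rfl, f1 2 2 (by norm_num) (by norm_num)]
      exact b5
    · exact (f1 0 2 (by norm_num) (by norm_num)).trans
        (hc02.1.trans (f1 2 0 (by norm_num) (by norm_num)).symm)
    · exact (f2 0 2 (by norm_num)).trans
        (hc02.2.trans (f1 0 2 (by norm_num) (by norm_num)).symm)
    · rw [show (3 : ℕ) = 16 * 0 + 3 from rfl, f1 0 3 (by norm_num) (by norm_num),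
        show (48 : ℕ) = 16 * 3 + 0 from rfl, f1 3 0 (by norm_num) (by norm_num)]
      exact hHy
    · exact (f1 2 3 (by norm_num) (by norm_num)).trans
        (hy2.1.symm.trans (f1 3 2 (by norm_num) (by norm_num)).symm)
    · refine (f2 2 3 (by norm_num)).trans
        (Eq.trans ?_ (f1 2 3 (by norm_num) (by norm_num)).symm)
      show D (p (t + 2)) y = E (p (t + 2)) y
      rw [Pth_Ds hS hM2 lt2 hy, hy2.2, hy2.1]

end Pool.Agent.MPd439b2.F1
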