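import Pool.Agent.Lib.MP_d439b2_co.F1.Spec

/-!
# MP_d439b2_co, F1: a chordless track of rows with half steps only (`S_PthH`)
-/

set_option autoImplicit false

namespace Pool.Agent.MPd439b2.F1

open Pool.Agent.MPd439b2 Pool.Agent.MPd439b2.X2 Pool.Agent.MPd439b2.BT

private theorem PthH_row {V : Type} {n : ℕ} {S : St V n} {G : SimpleGraph V} {L M : ℕ}
    {x : ℕ → ℕ → V} {E D Q X : ℕ → ℕ → Bool} (hS : Sy S G L M x E D Q X) {i j : ℕ} (hi : i < L)
    (hj : j < L) (hQ : Q i j = true) (k : ℕ) (hk : k < M) : x i k = x j k :=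
  (hS.eq i hi j hj k hk).2 hQ

private theorem PthH_bool {a b : Bool} {p : Prop} (h1 : p ↔ a = true) (h2 : p ↔ b = true) :
    a = b := by
  cases a <;> cases b <;> simp_all

private theorem PthH_E {V : Type} {n : ℕ} {S : St V n} {G : SimpleGraph V} {L M : ℕ}
    {x : ℕ → ℕ → V} {E D Q X : ℕ → ℕ → Bool} (hS : Sy S G L M x E D Q X) (hM : 2 ≤ M)
    {i j k : ℕ} (hi : i < L) (hj : j < L) (hk : k < L) (hQ : Q i j = true) :
    E i k = E j k ∧ E k i = E k j := by
  have e0 := PthH_row hS hi hj hQ 0 (by omega)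
  have e1 := PthH_row hS hi hj hQ 1 (by omega)
  constructor
  · have h1 := hS.rel i hi k hk 0 1 (by omega) (by omega)
    have h2 := hS.rel j hj k hk 0 1 (by omega) (by omega)
    rw [e0] at h1
    exact PthH_bool h1 h2
  · have h1 := hS.rel k hk i hi 0 1 (by omega) (by omega)
    have h2 := hS.rel k hk j hj 0 1 (by omega) (by omega)
    rw [e1] at h1
    exact PthH_bool h1 h2

theorem pPthH (h1 : S_Sht) : S_PthH := by
  intro V n S G L M x E D Q X hS hM a ha d hd hQ hex
  have hM' : 2 ≤ 10 * M := by omega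
  have hQs : ∀ i < L, ∀ j < L, Q i j = true → Q j i = true := by
    intro i hi j hj h
    exact (hS.eq j hj i hi 0 (by omega)).1 (PthH_row hS hi hj h 0 (by omega)).symm
  obtain ⟨m, p, p0, pm, pL, pK, c1, c2, -⟩ := h1 L a d (Hf E) (fun i j => Q i j = true)
    (fun _ _ => False) (fun i _ j _ h => Ne.symm h) hQs
    (by
      intro i hi j hj k hk h hK hK'
      have e := PthH_E hS hM' hi hj hk h
      exact hK (by rw [e.1, e.2]; exact hK'))
    (by
      intro i hi j hj h hK
      have e := PthH_E hS hM' hi hj hj h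
      apply hK
      rw [e.1, e.2])
    (by rw [hQ]; exact Bool.false_ne_true) hex
  refine ⟨m, p, p0, pm, pL, pK, ?_⟩
  have hmm : min m 9 ≤ m := min_le_left _ _
  have hm9 : min m 9 ≤ 9 := min_le_right _ _
  refine ⟨?_, ?_, ?_, ?_, ?_, ?_⟩
  · intro s hs t ht k hk l hl hne
    exact hS.neq _ (pL s (by omega)) _ (pL t (by omega)) _ (by omega) _ (by omega) (by omega)
  · intro s hs t ht k l hkl hl
    exact hS.rel _ (pL s (by omega)) _ (pL t (by omega)) _ _ (by omega) (by omega)
  · intro s hs t ht hst k hk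
    exact hS.rel _ (pL s (by omega)) _ (pL t (by omega)) _ _ (by omega) (by omega)
  · intro s t hst ht
    refine ⟨?_, rfl⟩
    have := c1 s t hst (by omega)
    exact not_not.1 this
  · intro t ht
    exact Or.inl (pK t (by omega))
  · intro t ht
    exact Or.inl (pK t (by omega))

end Pool.Agent.MPd439b2.F1
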