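import Pool.Agent.Lib.MP_d439b2_co.F1.Spec
import Pool.Agent.Lib.MP_d439b2_co.W.RamC

/-!
# MP_d439b2_co, F1: homogeneous systems of rows
-/

set_option autoImplicit false

namespace Pool.Agent.MPd439b2.F1

open Pool.Agent.MPd439b2 Pool.Agent.MPd439b2.X2 Pool.Agent.MPd439b2.BT

/-- the colours -/
private abbrev RaCol (L : ℕ) : Type :=
  Fin L → Fin L → Bool × Bool × Bool × Bool × Bool × Bool × Bool

/-- a Boolean function of two indices below `L`, extended by `false` -/
private def raExt {L : ℕ} (f : Fin L → Fin L → Bool) (i j : ℕ) : Bool :=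
  if h : i < L ∧ j < L then f ⟨i, h.1⟩ ⟨j, h.2⟩ else false

private theorem raExt_eq {L : ℕ} (f : Fin L → Fin L → Bool) {i j : ℕ} (hi : i < L) (hj : j < L) :
    raExt f i j = f ⟨i, hi⟩ ⟨j, hj⟩ := dif_pos ⟨hi, hj⟩

open Classical in
private noncomputable def raChi {V : Type} {n : ℕ} (L : ℕ) (S : St V n) (G : SimpleGraph V)
    (x : ℕ → ℕ → V) (k l : ℕ) : RaCol L := fun i j =>
  (decide (x i k = x j l), decide (x i k = x j k), decide (G.Adj (x i k) (x j l)),
    decide (G.Adj (x i k) (x j k)), decide (BT.Exc S G (x i k) (x j l)),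
    decide (BT.Exc S G (x i k) (x j k)), decide (S.ρ (x i k) < S.ρ (x i l)))

theorem pRa (h1 : W.S_RamC) : S_Ra := by
  classical
  intro L M b
  obtain ⟨N, hN⟩ := h1 (RaCol L) (M + b + 3)
  refine ⟨N, ?_⟩
  intro V _ n S G x hb hcls hinj
  obtain ⟨s, c, hs, hsN, hc⟩ := hN (raChi L S G x)
  have hcol : ∀ k l, k < l → l < M + b + 3 → ∀ (i j : ℕ) (hi : i < L) (hj : j < L),
      (decide (x i (s k) = x j (s l)), decide (x i (s k) = x j (s k)),
        decide (G.Adj (x i (s k)) (x j (s l))), decide (G.Adj (x i (s k)) (x j (s k))),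
        decide (BT.Exc S G (x i (s k)) (x j (s l))), decide (BT.Exc S G (x i (s k)) (x j (s k))),
        decide (S.ρ (x i (s k)) < S.ρ (x i (s l)))) = c ⟨i, hi⟩ ⟨j, hj⟩ := by
    intro k l hkl hl i j hi hj
    exact congrFun (congrFun (hc k l hkl hl) ⟨i, hi⟩) ⟨j, hj⟩
  have hlt : ∀ k l, k < l → l < M → s k < s l := fun k l hkl hl => hs k l hkl (by omega)
  -- vertices with different indices are different
  have hne : ∀ i < L, ∀ j < L, ∀ k l, k < l → l < M + b + 3 → x i (s k) ≠ x j (s l) := by
    intro i hi j hj k l hkl hl heq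
    have e1 := congrArg Prod.fst (hcol k l hkl hl i j hi hj)
    have e2 := congrArg Prod.fst (hcol 0 1 (by omega) (by omega) i j hi hj)
    have e3 := congrArg Prod.fst (hcol 0 2 (by omega) (by omega) i j hi hj)
    dsimp only at e1 e2 e3
    rw [decide_eq_true heq] at e1
    rw [← e1] at e2 e3
    have h2 : x j (s 1) = x j (s 2) := (of_decide_eq_true e2).symm.trans (of_decide_eq_true e3)
    have h3 := hinj j hj (s 1) (hsN 1 (by omega)) (s 2) (hsN 2 (by omega)) h2
    have h4 := hs 1 2 (by omega) (by omega)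
    omega
  -- exceptional pairs have the same index
  have hex : ∀ i < L, ∀ j < L, ∀ k l, k < l → l < M + b + 3 →
      ¬ BT.Exc S G (x i (s k)) (x j (s l)) := by
    intro i hi j hj k l hkl hl hE
    have e1 := congrArg (fun q => q.2.2.2.2.1) (hcol k l hkl hl i j hi hj)
    dsimp only at e1
    rw [decide_eq_true hE] at e1
    have h2 : ∀ l' ∈ Finset.Icc 1 (b + 1), BT.Exc S G (x i (s 0)) (x j (s l')) := by
      intro l' hl'
      rw [Finset.mem_Icc] at hl'
      have e2 := congrArg (fun q => q.2.2.2.2.1) (hcol 0 l' (by omega) (by omega) i j hi hj)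
      dsimp only at e2
      rw [← e1] at e2
      exact of_decide_eq_true e2
    have h3 : ((Finset.Icc 1 (b + 1)).image fun l' => x j (s l')).card = b + 1 := by
      rw [Finset.card_image_of_injOn, Nat.card_Icc]
      · omega
      · intro l₁ hl₁ l₂ hl₂ he
        rw [Finset.mem_coe, Finset.mem_Icc] at hl₁ hl₂
        have h4 := hinj j hj (s l₁) (hsN l₁ (by omega)) (s l₂) (hsN l₂ (by omega)) he
        rcases lt_trichotomy l₁ l₂ with h5 | h5 | h5
        · have := hs l₁ l₂ h5 (by omega)
          omega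
        · exact h5
        · have := hs l₂ l₁ h5 (by omega)
          omega
    have h4 : (((Finset.Icc 1 (b + 1)).image fun l' => x j (s l') : Finset V) : Set V) ⊆
        {y | BT.Exc S G (x i (s 0)) y} := by
      intro y hy
      rw [Finset.mem_coe, Finset.mem_image] at hy
      obtain ⟨l', hl', rfl⟩ := hy
      exact h2 l' hl'
    have h5 := Set.ncard_le_ncard h4 (Set.toFinite _)
    rw [Set.ncard_coe_finset, h3] at h5
    have h6 := hb.deg (x i (s 0))
    omega
  have hmn : ∀ i < L, ∀ k l, k < l → l < M + b + 3 →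
      ¬ S.ρ (x i (s k)) < S.ρ (x i (s l)) → S.ρ (x i (s l)) < S.ρ (x i (s k)) := by
    intro i hi k l hkl hl hn
    refine lt_of_le_of_ne (not_lt.1 hn) fun he => ?_
    exact hne i hi i hi k l hkl hl (S.inj _ _
      (hcls i hi (s k) (hsN k (by omega)) (s l) (hsN l (by omega))) he.symm)
  refine ⟨s, raExt fun i j => (c i j).2.2.1, raExt fun i j => (c i j).2.2.2.1,
    raExt fun i j => (c i j).2.1, raExt fun i j => (c i j).2.2.2.2.2.1, hlt,
    fun k hk => hsN k (by omega), ?_⟩
  refine ⟨?_, ?_, ?_, ?_, ?_, ?_, ?_, ?_⟩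
  · intro i hi k hk l hl
    exact hcls i hi _ (hsN k (by omega)) _ (hsN l (by omega))
  · intro i hi j hj k hk l hl hkl
    rcases Nat.lt_or_gt_of_ne hkl with h | h
    · exact hne i hi j hj k l h (by omega)
    · exact (hne j hj i hi l k h (by omega)).symm
  · intro i hi j hj k hk
    have e := congrArg (fun q => q.2.1) (hcol k (k + 1) (by omega) (by omega) i j hi hj)
    dsimp only at e
    rw [raExt_eq _ hi hj, ← e, decide_eq_true_iff]
  · intro i hi j hj k l hkl hl
    have e := congrArg (fun q => q.2.2.1) (hcol k l hkl (by omega) i j hi hj)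
    dsimp only at e
    rw [raExt_eq _ hi hj, ← e, decide_eq_true_iff]
  · intro i hi j hj k hk
    have e := congrArg (fun q => q.2.2.2.1) (hcol k (k + 1) (by omega) (by omega) i j hi hj)
    dsimp only at e
    rw [raExt_eq _ hi hj, ← e, decide_eq_true_iff]
  · intro i hi j hj k hk l hl hkl
    rcases Nat.lt_or_gt_of_ne hkl with h | h
    · exact hex i hi j hj k l h (by omega)
    · exact fun hE => hex j hj i hi l k h (by omega) (BT.Exc.symm hE)
  · intro i hi j hj k hk
    have e := congrArg (fun q => q.2.2.2.2.2.1) (hcol k (k + 1) (by omega) (by omega) i j hi hj)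
    dsimp only at e
    rw [raExt_eq _ hi hj, ← e, decide_eq_true_iff]
  · intro i hi
    by_cases h : (c ⟨i, hi⟩ ⟨i, hi⟩).2.2.2.2.2.2 = true
    · left
      intro k l hkl hl
      have e := congrArg (fun q => q.2.2.2.2.2.2) (hcol k l hkl (by omega) i i hi hi)
      dsimp only at e
      rw [h] at e
      exact of_decide_eq_true e
    · right
      intro k l hkl hl
      have e := congrArg (fun q => q.2.2.2.2.2.2) (hcol k l hkl (by omega) i i hi hi)
      dsimp only at e
      refine hmn i hi k l hkl (by omega) fun hlt => h ?_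
      rw [← e]
      exact decide_eq_true hlt

end Pool.Agent.MPd439b2.F1
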