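import Pool.Agent.Lib.MP_d439b2_co.F1.Spec
import Pool.Agent.Lib.MP_d439b2_co.W.RamC

/-!
# MP_d439b2_co, F1/Rw1: the rows of a bundle of the block graph
-/

set_option autoImplicit false

namespace Pool.Agent.MPd439b2.F1

open Pool.Agent.MPd439b2 Pool.Agent.MPd439b2.X2 Pool.Agent.MPd439b2.BT

/-- the rows `x (2 j) = e j`, `x (2 j + 1) = f j`, `x (2 r + j) = y j` -/
private def Rw1_row {V : Type} (r : ℕ) (e f y : ℕ → ℕ → V) (i k : ℕ) : V :=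
  if i < 2 * r then (if i % 2 = 0 then e (i / 2) k else f (i / 2) k) else y (i - 2 * r) k

private theorem Rw1_row_e {V : Type} (r : ℕ) (e f y : ℕ → ℕ → V) (j k : ℕ) (hj : j < r) :
    Rw1_row r e f y (2 * j) k = e j k := by
  unfold Rw1_row
  rw [if_pos (by omega), if_pos (by omega)]
  congr 1
  omega

private theorem Rw1_row_f {V : Type} (r : ℕ) (e f y : ℕ → ℕ → V) (j k : ℕ) (hj : j < r) :
    Rw1_row r e f y (2 * j + 1) k = f j k := by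
  unfold Rw1_row
  rw [if_pos (by omega), if_neg (by omega)]
  congr 1
  omega

private theorem Rw1_row_y {V : Type} (r : ℕ) (e f y : ℕ → ℕ → V) (j k : ℕ) :
    Rw1_row r e f y (2 * r + j) k = y j k := by
  unfold Rw1_row
  rw [if_neg (by omega)]
  congr 1
  omega

private theorem Rw1_cases (r i : ℕ) (hi : i < 3 * r + 1) :
    (∃ j < r, i = 2 * j) ∨ (∃ j < r, i = 2 * j + 1) ∨ ∃ j ≤ r, i = 2 * r + j := by
  by_cases h : i < 2 * r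
  · rcases Nat.mod_two_eq_zero_or_one i with h2 | h2
    · exact Or.inl ⟨i / 2, by omega, by omega⟩
    · exact Or.inr (Or.inl ⟨i / 2, by omega, by omega⟩)
  · exact Or.inr (Or.inr ⟨i - 2 * r, by omega, by omega⟩)

theorem pRw1 (h1 : W.S_RamC) (h2 : S_Sep) : S_Rw1 := by
  intro n R M
  obtain ⟨N₂, hN₂⟩ := h1 (Fin (R + 1) → Fin n) (M + 1)
  obtain ⟨N₁, hN₁⟩ := h1 (Fin (R + 1) → Prop) (N₂ + 1)
  refine ⟨N₁, fun V S G i r A B χ hr hT => ?_⟩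
  -- the first subsequence
  obtain ⟨s₁, c₁, hs₁, hb₁, hc₁⟩ := hN₁ (fun k l (j : Fin (R + 1)) =>
    S.ρ (A k j).1 < S.ρ (A l j).1)
  have hne₁ : ∀ k l, k < l → l < N₂ + 1 → s₁ k ≠ s₁ l := fun k l hkl hl =>
    Nat.ne_of_lt (hs₁ k l hkl hl)
  have hmono : ∀ j ≤ r, ((∀ k l, k < l → l < N₂ + 1 →
        S.ρ (A (s₁ k) j).1 < S.ρ (A (s₁ l) j).1 ∧ S.ρ (A (s₁ k) j).1 < S.ρ (B (s₁ l) j).1 ∧
        S.ρ (B (s₁ k) j).1 < S.ρ (A (s₁ l) j).1 ∧ S.ρ (B (s₁ k) j).1 < S.ρ (B (s₁ l) j).1) ∨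
      ∀ k l, k < l → l < N₂ + 1 →
        S.ρ (A (s₁ l) j).1 < S.ρ (A (s₁ k) j).1 ∧ S.ρ (B (s₁ l) j).1 < S.ρ (A (s₁ k) j).1 ∧
        S.ρ (A (s₁ l) j).1 < S.ρ (B (s₁ k) j).1 ∧ S.ρ (B (s₁ l) j).1 < S.ρ (B (s₁ k) j).1) := by
    intro j hj
    have hjR : j < R + 1 := by omega
    have hcol : ∀ k l, k < l → l < N₂ + 1 →
        (S.ρ (A (s₁ k) j).1 < S.ρ (A (s₁ l) j).1 ↔ c₁ ⟨j, hjR⟩) := fun k l hkl hl =>
      iff_of_eq (congrFun (hc₁ k l hkl hl) ⟨j, hjR⟩)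
    by_cases hc : c₁ ⟨j, hjR⟩
    · left
      intro k l hkl hl
      have h3 := (hcol k l hkl hl).2 hc
      rcases hT.sep (s₁ k) (hb₁ k (by omega)) (s₁ l) (hb₁ l hl) (hne₁ k l hkl hl) j hj with h | h
      · simpa using h
      · have h4 := h.1
        simp only [BGr_ρ] at h4
        omega
    · right
      intro k l hkl hl
      have h3 : ¬ S.ρ (A (s₁ k) j).1 < S.ρ (A (s₁ l) j).1 := fun h => hc ((hcol k l hkl hl).1 h)
      rcases hT.sep (s₁ k) (hb₁ k (by omega)) (s₁ l) (hb₁ l hl) (hne₁ k l hkl hl) j hj with h | h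
      · have h4 := h.1
        simp only [BGr_ρ] at h4
        omega
      · simp only [BGr_ρ] at h
        exact ⟨h.1, h.2.2.1, h.2.1, h.2.2.2⟩
  -- the vertices of the steps
  have hef : ∀ k j, ∃ p : V × V, k < N₁ → j < r → bl S p.1 = (B k j).1 ∧
      bl S p.2 = (A k (j + 1)).1 ∧ (BT.Exc S G p.1 p.2 ∨
        (Nd S p.1 ∧ Nd S p.2 ∧ Cn S p.1 p.2)) := by
    intro k j
    by_cases hk : k < N₁ ∧ j < r
    · have h3 : Xr S G (B k j).1 (A k (j + 1)).1 := hT.stp k hk.1 j hk.2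
      rcases h3.2 with h4 | ⟨u, w, hu, hw, he⟩
      · exact ⟨((B k j).1, (A k (j + 1)).1), fun _ _ => ⟨(B k j).2, (A k (j + 1)).2,
          Or.inr ⟨(B k j).2, (A k (j + 1)).2, h4⟩⟩⟩
      · exact ⟨(u, w), fun _ _ => ⟨hu, hw, Or.inl he⟩⟩
    · exact ⟨((B k j).1, (A k (j + 1)).1), fun h3 h4 => absurd ⟨h3, h4⟩ hk⟩
  choose p hp using hef
  -- the separators
  have hy : ∀ k j, ∃ y : V, k < N₂ → j ≤ r → S.c y ≠ χ j ∧
      Spt S (N₂ + 1) (fun l => (A (s₁ l) j).1) (fun l => (B (s₁ l) j).1) k y := by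
    intro k j
    by_cases hk : k < N₂ ∧ j ≤ r
    · obtain ⟨y, hy1, hy2⟩ := h2 V n S (χ j) (N₂ + 1) (fun l => (A (s₁ l) j).1)
        (fun l => (B (s₁ l) j).1) (fun l hl => ⟨hT.cA (s₁ l) (hb₁ l hl) j hk.2,
          hT.cB (s₁ l) (hb₁ l hl) j hk.2, (A (s₁ l) j).2, (B (s₁ l) j).2⟩) (hmono j hk.2) k
        (by omega)
      exact ⟨y, fun _ _ => ⟨hy1, hy2⟩⟩
    · exact ⟨(A 0 0).1, fun h3 h4 => absurd ⟨h3, h4⟩ hk⟩
  choose y hy using hy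
  -- the second subsequence
  obtain ⟨s₂, c₂, hs₂, hb₂, hc₂⟩ := hN₂ (fun k _ (j : Fin (R + 1)) => S.c (y k j))
  have hκ : ∀ k l, k < l → l < M + 1 → s₁ (s₂ k) < s₁ (s₂ l) := fun k l hkl hl =>
    hs₁ _ _ (hs₂ k l hkl hl) (lt_trans (hb₂ l hl) (Nat.lt_succ_self _))
  have hκb : ∀ k < M + 1, s₁ (s₂ k) < N₁ := fun k hk =>
    hb₁ _ (lt_trans (hb₂ k hk) (Nat.lt_succ_self _))
  have hyc : ∀ j ≤ r, ∀ k < M, ∀ l < M, S.c (y (s₂ k) j) = S.c (y (s₂ l) j) := by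
    intro j hj k hk l hl
    have e1 := congrFun (hc₂ k M hk (by omega)) ⟨j, by omega⟩
    have e2 := congrFun (hc₂ l M hl (by omega)) ⟨j, by omega⟩
    exact e1.trans e2.symm
  have hyinj' : ∀ j ≤ r, ∀ k l, k < l → l < M → y (s₂ k) j ≠ y (s₂ l) j := by
    intro j hj k l hkl hl he
    obtain ⟨-, τ, hτ⟩ := hy (s₂ k) j (hb₂ k (by omega)) hj
    obtain ⟨-, τ', hτ'⟩ := hy (s₂ l) j (hb₂ l (by omega)) hj
    have hkl2 : s₂ k < s₂ l := hs₂ k l hkl (by omega)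
    have hbl : s₂ l < N₂ + 1 := lt_trans (hb₂ l (by omega)) (Nat.lt_succ_self _)
    have hbk : s₂ k < N₂ + 1 := lt_trans (hb₂ k (by omega)) (Nat.lt_succ_self _)
    have a1 := (hτ (s₂ k) hbk (A (s₁ (s₂ k)) j).1 (Or.inl (A (s₁ (s₂ k)) j).2)).1 le_rfl
    have a2 := (hτ (s₂ l) hbl (A (s₁ (s₂ l)) j).1 (Or.inl (A (s₁ (s₂ l)) j).2)).2 hkl2
    have a3 := (hτ' (s₂ k) hbk (A (s₁ (s₂ k)) j).1 (Or.inl (A (s₁ (s₂ k)) j).2)).1 hkl2.le
    have a4 := (hτ' (s₂ l) hbl (A (s₁ (s₂ l)) j).1 (Or.inl (A (s₁ (s₂ l)) j).2)).1 le_rfl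
    rw [he] at a1 a2
    tauto
  have hne : ∀ k < M, ∀ l < M, k ≠ l → s₁ (s₂ k) ≠ s₁ (s₂ l) := by
    intro k hk l hl hkl
    rcases lt_or_gt_of_ne hkl with h | h
    · exact Nat.ne_of_lt (hκ k l h (by omega))
    · exact (Nat.ne_of_lt (hκ l k h (by omega))).symm
  refine ⟨fun k => s₁ (s₂ k), Rw1_row r (fun j k => (p (s₁ (s₂ k)) j).1)
    (fun j k => (p (s₁ (s₂ k)) j).2) (fun j k => y (s₂ k) j), fun k l hkl hl =>
      hκ k l hkl (by omega), fun k hk => hκb k (by omega), ?_⟩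
  have hle : ∀ j < r, ∀ k < M, bl S (p (s₁ (s₂ k)) j).1 = (B (s₁ (s₂ k)) j).1 ∧
      S.c (p (s₁ (s₂ k)) j).1 = χ j := by
    intro j hj k hk
    have h3 := (hp (s₁ (s₂ k)) j (hκb k (by omega)) hj).1
    refine ⟨h3, ?_⟩
    rw [← c_bl S, h3]
    exact hT.cB _ (hκb k (by omega)) j hj.le
  have hen : ∀ j < r, ∀ k < M, bl S (p (s₁ (s₂ k)) j).2 = (A (s₁ (s₂ k)) (j + 1)).1 ∧
      S.c (p (s₁ (s₂ k)) j).2 = χ (j + 1) := by
    intro j hj k hk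
    have h3 := (hp (s₁ (s₂ k)) j (hκb k (by omega)) hj).2.1
    refine ⟨h3, ?_⟩
    rw [← c_bl S, h3]
    exact hT.cA _ (hκb k (by omega)) (j + 1) hj
  refine ⟨?_, ?_, ?_, ?_, ?_, ?_⟩
  · intro i hi k hk l hl
    rcases Rw1_cases r i hi with ⟨j, hj, rfl⟩ | ⟨j, hj, rfl⟩ | ⟨j, hj, rfl⟩
    · rw [Rw1_row_e _ _ _ _ _ _ hj, Rw1_row_e _ _ _ _ _ _ hj, (hle j hj k hk).2,
        (hle j hj l hl).2]
    · rw [Rw1_row_f _ _ _ _ _ _ hj, Rw1_row_f _ _ _ _ _ _ hj, (hen j hj k hk).2,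
        (hen j hj l hl).2]
    · rw [Rw1_row_y, Rw1_row_y]
      exact hyc j hj k hk l hl
  · intro i hi k hk l hl hkl
    by_contra hcon
    rcases Rw1_cases r i hi with ⟨j, hj, rfl⟩ | ⟨j, hj, rfl⟩ | ⟨j, hj, rfl⟩
    · rw [Rw1_row_e _ _ _ _ _ _ hj, Rw1_row_e _ _ _ _ _ _ hj] at hkl
      have h3 : (B (s₁ (s₂ k)) j).1 = (B (s₁ (s₂ l)) j).1 := by
        rw [← (hle j hj k hk).1, ← (hle j hj l hl).1, hkl]
      rcases hT.sep _ (hκb k (by omega)) _ (hκb l (by omega)) (hne k hk l hl hcon) j hj.le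
        with h | h
      · have h4 := h.2.2.2
        simp only [BGr_ρ, h3, lt_irrefl] at h4
      · have h4 := h.2.2.2
        simp only [BGr_ρ, h3, lt_irrefl] at h4
    · rw [Rw1_row_f _ _ _ _ _ _ hj, Rw1_row_f _ _ _ _ _ _ hj] at hkl
      have h3 : (A (s₁ (s₂ k)) (j + 1)).1 = (A (s₁ (s₂ l)) (j + 1)).1 := by
        rw [← (hen j hj k hk).1, ← (hen j hj l hl).1, hkl]
      rcases hT.sep _ (hκb k (by omega)) _ (hκb l (by omega)) (hne k hk l hl hcon) (j + 1) hj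
        with h | h
      · have h4 := h.1
        simp only [BGr_ρ, h3, lt_irrefl] at h4
      · have h4 := h.1
        simp only [BGr_ρ, h3, lt_irrefl] at h4
    · rw [Rw1_row_y, Rw1_row_y] at hkl
      rcases lt_or_gt_of_ne hcon with h | h
      · exact hyinj' j hj k l h hl hkl
      · exact hyinj' j hj l k h hk hkl.symm
  · intro j hj k hk
    rw [Rw1_row_e _ _ _ _ _ _ hj]
    exact hle j hj k hk
  · intro j hj k hk
    rw [Rw1_row_f _ _ _ _ _ _ hj]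
    exact hen j hj k hk
  · intro j hj k hk
    rw [Rw1_row_e _ _ _ _ _ _ hj, Rw1_row_f _ _ _ _ _ _ hj]
    exact (hp (s₁ (s₂ k)) j (hκb k (by omega)) hj).2.2
  · intro j hj k hk
    rw [Rw1_row_y]
    obtain ⟨h3, τ, hτ⟩ := hy (s₂ k) j (hb₂ k (by omega)) hj
    refine ⟨h3, τ, fun l hl v hv => ?_⟩
    have hbl : s₂ l < N₂ + 1 := lt_trans (hb₂ l (by omega)) (Nat.lt_succ_self _)
    obtain ⟨a1, a2⟩ := hτ (s₂ l) hbl v hv
    refine ⟨fun hlk => a1 ?_, fun hkl => a2 (hs₂ k l hkl (by omega))⟩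
    rcases Nat.lt_or_ge l k with h | h
    · exact (hs₂ l k h (by omega)).le
    · have : l = k := le_antisymm hlk h
      rw [this]

end Pool.Agent.MPd439b2.F1
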