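import Pool.Agent.Lib.MP_d439b2_co.F1.Spec

/-!
# MP_d439b2_co, F1/Rw2: the system of rows of a bundle
-/

set_option autoImplicit false

namespace Pool.Agent.MPd439b2.F1

open Pool.Agent.MPd439b2 Pool.Agent.MPd439b2.X2 Pool.Agent.MPd439b2.BT

private theorem Rw2_mono {V : Type} {n : ℕ} {S : St V n} {G : SimpleGraph V} {L M M' : ℕ}
    {x : ℕ → ℕ → V} {E D Q X : ℕ → ℕ → Bool} (h : Sy S G L M' x E D Q X) (hM : M ≤ M') :
    Sy S G L M x E D Q X where
  cls i hi k hk l hl := h.cls i hi k (by omega) l (by omega)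
  neq i hi j hj k hk l hl := h.neq i hi j hj k (by omega) l (by omega)
  eq i hi j hj k hk := h.eq i hi j hj k (by omega)
  rel i hi j hj k l hkl hl := h.rel i hi j hj k l hkl (by omega)
  dg i hi j hj k hk := h.dg i hi j hj k (by omega)
  exc i hi j hj k hk l hl := h.exc i hi j hj k (by omega) l (by omega)
  exd i hi j hj k hk := h.exd i hi j hj k (by omega)
  mon i hi := by
    rcases h.mon i hi with h1 | h1
    · exact Or.inl fun k l hkl hl => h1 k l hkl (by omega)
    · exact Or.inr fun k l hkl hl => h1 k l hkl (by omega)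

private theorem Rw2_symm {E : ℕ → ℕ → Bool} {i j : ℕ} (h : Hf E i j) : Hf E j i :=
  fun h' => h h'.symm

private theorem Rw2_lk {V : Type} {n : ℕ} {S : St V n} {G : SimpleGraph V} {L M : ℕ}
    {x : ℕ → ℕ → V} {E D Q X : ℕ → ℕ → Bool} (h : Sy S G L M x E D Q X) (hM : 2 ≤ M) {i j : ℕ}
    (hi : i < L) (hj : j < L) (hH : Hf E i j) : Lk E D Q i j := by
  refine ⟨?_, fun h' => hH h'.1⟩
  by_contra hQ
  have hQ' : Q i j = true := by
    cases hq : Q i j
    · exact absurd hq hQ
    · rfl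
  have e0 := (h.eq i hi j hj 0 (by omega)).2 hQ'
  have e1 := (h.eq i hi j hj 1 (by omega)).2 hQ'
  have r1 := h.rel i hi j hj 0 1 (by omega) (by omega)
  have r2 := h.rel j hj i hi 0 1 (by omega) (by omega)
  rw [← e1] at r1
  rw [← e0] at r2
  refine hH (Bool.eq_iff_iff.2 (r1.symm.trans r2))

/-- A row whose vertices have their nodes in the windows of the rail `j` is half to the separators of this rail. -/
private theorem Rw2_half {V : Type} {n : ℕ} {S : St V n} {G : SimpleGraph V} {L M N r : ℕ}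
    {A B : ℕ → ℕ → V} {χ : ℕ → Fin n} {x : ℕ → ℕ → V} {E D Q X : ℕ → ℕ → Bool} {s : ℕ → ℕ}
    (hR : Rw S G N r A B χ x) (h : Sy S G L M (fun i k => x i (s k)) E D Q X) (hM : 3 ≤ M)
    (hs : ∀ k l, k < l → l < M → s k < s l) (hN : ∀ k < M, s k + 1 < N) {u j : ℕ} (hu : u < L)
    (hj : j ≤ r) (hL : 2 * r + j < L)
    (hb : ∀ k < N, bl S (x u k) = A k j ∨ bl S (x u k) = B k j) : Hf E u (2 * r + j) := by
  obtain ⟨-, τ, hτ⟩ := hR.sep j hj (s 1) (hN 1 (by omega))
  have h01 : s 0 < s 1 := hs 0 1 (by omega) (by omega)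
  have h12 : s 1 < s 2 := hs 1 2 (by omega) (by omega)
  have b0 : s 0 < N := by have := hN 0 (by omega); omega
  have b2 : s 2 < N := by have := hN 2 (by omega); omega
  have a0 := (hτ (s 0) b0 (x u (s 0)) (hb _ b0)).1 h01.le
  have a2 := (hτ (s 2) b2 (x u (s 2)) (hb _ b2)).2 h12
  have x0 := h.exc u hu (2 * r + j) hL 0 (by omega) 1 (by omega) (by omega)
  have x2 := h.exc u hu (2 * r + j) hL 2 (by omega) 1 (by omega) (by omega)
  simp only [BT.Exc, not_not] at x0 x2
  have r0 := h.rel u hu (2 * r + j) hL 0 1 (by omega) (by omega)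
  have r2 := h.rel (2 * r + j) hL u hu 1 2 (by omega) (by omega)
  have c0 : (E u (2 * r + j) = true ↔ τ) := by rw [← r0, ← x0, a0]
  have c2 : (E (2 * r + j) u = true ↔ ¬ τ) := by rw [← r2, G.adj_comm, ← x2, a2]
  intro he
  rw [he, c2] at c0
  tauto

private theorem Rw2_path (r : ℕ) (hr : 1 ≤ r) (K : ℕ → ℕ → Prop)
    (h0 : ∀ j < r, K (2 * j) (2 * j + 1)) (h1 : ∀ j < r, K (2 * j + 1) (2 * r + (j + 1)))
    (h2 : ∀ j < r, K (2 * r + j) (2 * j)) :
    ∃ (m : ℕ) (p : ℕ → ℕ), p 0 = 0 ∧ p m = 2 * r - 1 ∧ (∀ t ≤ m, p t < 3 * r + 1) ∧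
      ∀ t < m, K (p t) (p (t + 1)) := by
  refine ⟨3 * r - 2, fun t => if t % 3 < 2 then 2 * (t / 3) + t % 3 else 2 * r + t / 3 + 1,
    ?_, ?_, ?_, ?_⟩
  · simp
  · show (if (3 * r - 2) % 3 < 2 then 2 * ((3 * r - 2) / 3) + (3 * r - 2) % 3 else
      2 * r + (3 * r - 2) / 3 + 1) = 2 * r - 1
    rw [if_pos (by omega)]
    omega
  · intro t ht
    show (if t % 3 < 2 then 2 * (t / 3) + t % 3 else 2 * r + t / 3 + 1) < 3 * r + 1
    split_ifs <;> omega
  · intro t ht
    show K (if t % 3 < 2 then 2 * (t / 3) + t % 3 else 2 * r + t / 3 + 1)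
      (if (t + 1) % 3 < 2 then 2 * ((t + 1) / 3) + (t + 1) % 3 else 2 * r + (t + 1) / 3 + 1)
    rcases (by omega : t % 3 = 0 ∨ t % 3 = 1 ∨ t % 3 = 2) with h | h | h
    · rw [if_pos (by omega), if_pos (by omega),
        show 2 * (t / 3) + t % 3 = 2 * (t / 3) by omega,
        show 2 * ((t + 1) / 3) + (t + 1) % 3 = 2 * (t / 3) + 1 by omega]
      exact h0 (t / 3) (by omega)
    · rw [if_pos (by omega), if_neg (by omega),
        show 2 * (t / 3) + t % 3 = 2 * (t / 3) + 1 by omega,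
        show 2 * r + (t + 1) / 3 + 1 = 2 * r + (t / 3 + 1) by omega]
      exact h1 (t / 3) (by omega)
    · rw [if_neg (by omega), if_pos (by omega),
        show 2 * r + t / 3 + 1 = 2 * r + (t / 3 + 1) by omega,
        show 2 * ((t + 1) / 3) + (t + 1) % 3 = 2 * (t / 3 + 1) by omega]
      exact h2 (t / 3 + 1) (by omega)

theorem pRw2 (h1 : S_Ra) (h2 : S_Ki) (h3 : S_Cor) : S_Rw2 := by
  intro n b m₀ R M
  choose g hg using fun r : ℕ => h1 (3 * r + 1) (max M (max 3 m₀)) b
  refine ⟨(Finset.range (R + 1)).sup g + 1, ?_⟩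
  intro V _ S G r A B χ x hE hF hr hrR hR
  have hgr : g r ≤ (Finset.range (R + 1)).sup g :=
    Finset.le_sup (f := g) (Finset.mem_range.2 (by omega))
  obtain ⟨s, E, D, Q, X, hs, hsb, hSy⟩ := hg r V n S G x hE
    (fun i hi k hk l hl => hR.cls i hi k (by omega) l (by omega))
    (fun i hi k hk l hl => hR.inj i hi k (by omega) l (by omega))
  have hM1 : M ≤ max M (max 3 m₀) := le_max_left _ _
  have hM2 : 3 ≤ max M (max 3 m₀) := le_trans (le_max_left _ _) (le_max_right _ _)
  have hM3 : m₀ ≤ max M (max 3 m₀) := le_trans (le_max_right _ _) (le_max_right _ _)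
  have hN : ∀ k < max M (max 3 m₀), s k + 1 < (Finset.range (R + 1)).sup g + 1 := by
    intro k hk
    have := hsb k hk
    omega
  have hH1 : ∀ j < r, Hf E (2 * j) (2 * r + j) := fun j hj =>
    Rw2_half hR hSy hM2 hs hN (by omega) hj.le (by omega)
      (fun k hk => Or.inr (hR.le j hj k hk).1)
  have hH2 : ∀ j < r, Hf E (2 * j + 1) (2 * r + (j + 1)) := fun j hj =>
    Rw2_half hR hSy hM2 hs hN (by omega) (by omega) (by omega)
      (fun k hk => Or.inl (hR.en j hj k hk).1)
  have hL : ∀ j < r, X (2 * j) (2 * j + 1) = false → Hf E (2 * j) (2 * j + 1) := by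
    intro j hj hX
    refine h3 V n S G _ _ _ E D Q X hSy (by omega) (2 * j) (by omega) (2 * j + 1) (by omega) ?_
    intro k hk
    have hk' := hN k hk
    rcases hR.stp j hj (s k) (by omega) with h4 | h4
    · have h5 := (hSy.exd (2 * j) (by omega) (2 * j + 1) (by omega) k hk).1 h4
      rw [hX] at h5
      exact absurd h5 (by decide)
    · exact h4
  have hLk : ∀ j < r, Lk E D Q (2 * j) (2 * j + 1) := by
    intro j hj
    cases hX : X (2 * j) (2 * j + 1)
    · exact Rw2_lk hSy (by omega) (by omega) (by omega) (hL j hj hX)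
    · exact (h2 V n b m₀ S G _ _ _ E D Q X hE hF hSy hM2 hM3 (2 * j) (by omega) (2 * j + 1)
        (by omega)).2 hX
  refine ⟨s, E, D, Q, X, fun k l hkl hl => hs k l hkl (by omega), fun k hk => ?_,
    Rw2_mono hSy hM1, ?_, ?_, ?_⟩
  · have := hN k (by omega)
    omega
  · intro j hj
    by_cases h : j < 2 * r
    · rcases Nat.mod_two_eq_zero_or_one j with h4 | h4
      · refine ⟨2 * r + j / 2, by omega, ?_⟩
        have := hH1 (j / 2) (by omega)
        rwa [show 2 * (j / 2) = j by omega] at this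
      · refine ⟨2 * r + (j / 2 + 1), by omega, ?_⟩
        have := hH2 (j / 2) (by omega)
        rwa [show 2 * (j / 2) + 1 = j by omega] at this
    · by_cases h5 : j < 3 * r
      · refine ⟨2 * (j - 2 * r), by omega, ?_⟩
        have := Rw2_symm (hH1 (j - 2 * r) (by omega))
        rwa [show 2 * r + (j - 2 * r) = j by omega] at this
      · refine ⟨2 * (r - 1) + 1, by omega, ?_⟩
        have := Rw2_symm (hH2 (r - 1) (by omega))
        rwa [show 2 * r + (r - 1 + 1) = j by omega] at this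
  · refine Rw2_path r hr (Lk E D Q) hLk (fun j hj => ?_) (fun j hj => ?_)
    · exact Rw2_lk hSy (by omega) (by omega) (by omega) (hH2 j hj)
    · exact Rw2_lk hSy (by omega) (by omega) (by omega) (Rw2_symm (hH1 j hj))
  · intro hcl
    refine Rw2_path r hr (Hf E) (fun j hj => hL j hj ?_) (fun j hj => hH2 j hj)
      (fun j hj => Rw2_symm (hH1 j hj))
    cases hX : X (2 * j) (2 * j + 1)
    · rfl
    · have h4 := (hSy.exd (2 * j) (by omega) (2 * j + 1) (by omega) 0 (by omega)).2 hX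
      have h5 := hE.typ _ _ h4
      have hk' := hN 0 (by omega)
      rw [(hR.le j hj (s 0) (by omega)).2, (hR.en j hj (s 0) (by omega)).2, hcl j (by omega),
        hcl (j + 1) (by omega)] at h5
      exact absurd rfl h5

end Pool.Agent.MPd439b2.F1
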