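import Pool.Agent.Lib.MP_d439b2_co.F1.Spec

set_option autoImplicit false

namespace Pool.Agent.MPd439b2.F1

open Pool.Agent.MPd439b2 Pool.Agent.MPd439b2.X2 Pool.Agent.MPd439b2.BT

variable {V : Type} {n : ℕ}

private theorem sep_rev (S : St V n) (e : Bool) (x y : V) (h : S.le e x y) : S.le (!e) y x := by
  exact (S.le_not e y x).2 h

private theorem sep_see (S : St V n) {a : Fin n} {x x' y : V} (hx : S.c x = a) (hx' : S.c x' = a)
    (hy : S.c y ≠ a) (h : S.le (S.s a (S.c y)) x x') (ha : S.G.Adj x' y) : S.G.Adj x y := by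
  refine S.see (x := x) (x' := x') (hx.trans hx'.symm) (by rw [hx]; exact hy) ?_ ha
  rw [hx]
  exact h

/-- If `u` and `w` disagree on `y` and `v` is on the side of `u` then `v` agrees with `u`. -/
private theorem sep_key (S : St V n) {a : Fin n} (e : Bool) {v u w y : V} (hv : S.c v = a)
    (hu : S.c u = a) (hw : S.c w = a) (hy : S.c y ≠ a) (h1 : S.le e v u) (h2 : S.le e u w)
    (h : ¬ (S.G.Adj u y ↔ S.G.Adj w y)) : S.G.Adj v y ↔ S.G.Adj u y := by
  by_cases hs : S.s a (S.c y) = e
  · have h3 : S.G.Adj w y → S.G.Adj u y := sep_see S hu hw hy (by rw [hs]; exact h2)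
    have h4 : S.G.Adj u y → S.G.Adj v y := sep_see S hv hu hy (by rw [hs]; exact h1)
    tauto
  · have hs' : S.s a (S.c y) = !e := by
      cases e <;> cases hh : S.s a (S.c y) <;> simp_all
    have h3 : S.G.Adj u y → S.G.Adj w y :=
      sep_see S hw hu hy (by rw [hs']; exact sep_rev S e _ _ h2)
    have h4 : S.G.Adj v y → S.G.Adj u y :=
      sep_see S hu hv hy (by rw [hs']; exact sep_rev S e _ _ h1)
    tauto

private theorem sep_main (S : St V n) (a : Fin n) (M : ℕ) (A B : ℕ → V) (e : Bool)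
    (hN : ∀ k < M, S.c (A k) = a ∧ S.c (B k) = a ∧ Nd S (A k) ∧ Nd S (B k))
    (H : ∀ k l, k < l → l < M → S.lt e (A k) (A l) ∧ S.lt e (A k) (B l) ∧ S.lt e (B k) (A l) ∧
      S.lt e (B k) (B l)) (k : ℕ) (hk : k + 1 < M) :
    ∃ y : V, S.c y ≠ a ∧ Spt S M A B k y := by
  obtain ⟨u, hu, hAu, hBu⟩ : ∃ u, (u = A k ∨ u = B k) ∧ S.le e (A k) u ∧ S.le e (B k) u := by
    rcases S.le_total e (A k) (B k) with h | h
    · exact ⟨B k, Or.inr rfl, h, S.le_refl e _⟩
    · exact ⟨A k, Or.inl rfl, S.le_refl e _, h⟩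
  obtain ⟨w, hw, hAw, hBw⟩ : ∃ w, (w = A (k + 1) ∨ w = B (k + 1)) ∧ S.le e w (A (k + 1)) ∧
      S.le e w (B (k + 1)) := by
    rcases S.le_total e (A (k + 1)) (B (k + 1)) with h | h
    · exact ⟨A (k + 1), Or.inl rfl, S.le_refl e _, h⟩
    · exact ⟨B (k + 1), Or.inr rfl, h, S.le_refl e _⟩
  have hkM : k < M := by omega
  have hcu : S.c u = a := by
    rcases hu with rfl | rfl
    · exact (hN k hkM).1
    · exact (hN k hkM).2.1
  have hcw : S.c w = a := by
    rcases hw with rfl | rfl
    · exact (hN (k + 1) hk).1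
    · exact (hN (k + 1) hk).2.1
  have hnu : Nd S u := by
    rcases hu with rfl | rfl
    · exact (hN k hkM).2.2.1
    · exact (hN k hkM).2.2.2
  have hnw : Nd S w := by
    rcases hw with rfl | rfl
    · exact (hN (k + 1) hk).2.2.1
    · exact (hN (k + 1) hk).2.2.2
  have hlt : S.lt e u w := by
    obtain ⟨h1, h2, h3, h4⟩ := H k (k + 1) (Nat.lt_succ_self k) hk
    rcases hu with rfl | rfl <;> rcases hw with rfl | rfl <;> assumption
  have hne : ¬ Tw S u w := by
    intro h
    have h1 := bl_eq h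
    rw [hnu, hnw] at h1
    exact S.ne_of_lt hlt h1
  obtain ⟨y, hy, hdis⟩ : ∃ y, S.c y ≠ a ∧ ¬ (S.G.Adj u y ↔ S.G.Adj w y) := by
    by_contra hcon
    push Not at hcon
    exact hne ⟨hcu.trans hcw.symm, fun z hz => hcon z (by rw [← hcu]; exact hz)⟩
  refine ⟨y, hy, S.G.Adj u y, fun l hl v hv => ?_⟩
  -- the node of `v`
  have hc : S.c (bl S v) = a := by
    rcases hv with h | h <;> rw [h]
    · exact (hN l hl).1
    · exact (hN l hl).2.1
  have hcv : S.c v = a := by rw [← c_bl S v]; exact hc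
  have hadj : S.G.Adj (bl S v) y ↔ S.G.Adj v y :=
    adj_bl_left (by rw [hcv]; exact fun h => hy h.symm)
  constructor
  · intro hlk
    have h1 : S.le e (bl S v) u := by
      rcases Nat.lt_or_eq_of_le hlk with h | h
      · obtain ⟨g1, g2, g3, g4⟩ := H l k h hkM
        apply S.le_of_lt
        rcases hv with h' | h' <;> rw [h'] <;> rcases hu with rfl | rfl <;> assumption
      · subst h
        rcases hv with h' | h' <;> rw [h']
        · exact hAu
        · exact hBu
    rw [← hadj]
    exact sep_key S e hc hcu hcw hy h1 (S.le_of_lt hlt) hdis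
  · intro hkl
    have h1 : S.le e w (bl S v) := by
      rcases Nat.lt_or_eq_of_le (Nat.succ_le_of_lt hkl) with h | h
      · obtain ⟨g1, g2, g3, g4⟩ := H (k + 1) l h hl
        apply S.le_of_lt
        rcases hv with h' | h' <;> rw [h'] <;> rcases hw with rfl | rfl <;> assumption
      · have h2 : l = k + 1 := h.symm
        subst h2
        rcases hv with h' | h' <;> rw [h']
        · exact hAw
        · exact hBw
    rw [← hadj]
    have h2 := sep_key S (!e) hc hcw hcu hy (sep_rev S e _ _ h1)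
      (sep_rev S e _ _ (S.le_of_lt hlt)) (fun h => hdis h.symm)
    tauto

theorem pSep : S_Sep := by
  intro V n S a M A B hN h k hk
  rcases h with h | h
  · exact sep_main S a M A B true hN (fun k l hkl hl => h k l hkl hl) k hk
  · exact sep_main S a M A B false hN (fun k l hkl hl => h k l hkl hl) k hk

end Pool.Agent.MPd439b2.F1
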