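import Pool.Agent.Lib.MP_d439b2_co.F1.Spec

/-!
# MP_d439b2_co, F1: shortest paths (`S_Sht`)
-/

set_option autoImplicit false

namespace Pool.Agent.MPd439b2.F1

open Pool.Agent.MPd439b2 Pool.Agent.MPd439b2.X2 Pool.Agent.MPd439b2.BT

/-- Paths. -/
private def Sht_P (L a d : ℕ) (Kr : ℕ → ℕ → Prop) (m : ℕ) (p : ℕ → ℕ) : Prop :=
  p 0 = a ∧ p m = d ∧ (∀ t ≤ m, p t < L) ∧ ∀ t < m, Kr (p t) (p (t + 1))

open Classical in
/-- The number of the `Wr` steps. -/
private noncomputable def Sht_c (Wr : ℕ → ℕ → Prop) (m : ℕ) (p : ℕ → ℕ) : ℕ :=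
  ((Finset.range m).filter fun t => Wr (p t) (p (t + 1))).card

theorem pSht : S_Sht := by
  classical
  intro L a d Kr Qr Wr hKs hQs hQK hQn had hex
  have hex1 : ∃ m, ∃ p, Sht_P L a d Kr m p := hex
  obtain ⟨m, hm, hmin⟩ : ∃ m, (∃ p, Sht_P L a d Kr m p) ∧
      ∀ m' < m, ¬ ∃ p, Sht_P L a d Kr m' p :=
    ⟨Nat.find hex1, Nat.find_spec hex1, fun m' h => Nat.find_min hex1 h⟩
  have hex2 : ∃ w, ∃ p, Sht_P L a d Kr m p ∧ Sht_c Wr m p = w := by
    obtain ⟨p, hp⟩ := hm
    exact ⟨_, p, hp, rfl⟩
  obtain ⟨p, hp, hpc⟩ : ∃ p, Sht_P L a d Kr m p ∧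
      ∀ p', Sht_P L a d Kr m p' → Sht_c Wr m p ≤ Sht_c Wr m p' := by
    obtain ⟨p, hp, hw⟩ := Nat.find_spec hex2
    refine ⟨p, hp, fun p' hp' => ?_⟩
    rw [hw]
    exact Nat.find_min' hex2 ⟨p', hp', rfl⟩
  obtain ⟨h0, h1, h2, h3⟩ := hp
  have k1 : ∀ s t, s + 2 ≤ t → t ≤ m → ¬ Kr (p s) (p t) := by
    intro s t hst htm hK
    refine hmin (m - (t - s - 1)) (by omega)
      ⟨fun u => if u ≤ s then p u else p (u + (t - s - 1)), ?_, ?_, ?_, ?_⟩
    · show (if 0 ≤ s then p 0 else p (0 + (t - s - 1))) = a
      rw [if_pos (Nat.zero_le _)]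
      exact h0
    · show (if m - (t - s - 1) ≤ s then p (m - (t - s - 1))
        else p (m - (t - s - 1) + (t - s - 1))) = d
      rw [if_neg (by omega), Nat.sub_add_cancel (by omega)]
      exact h1
    · intro u hu
      show (if u ≤ s then p u else p (u + (t - s - 1))) < L
      by_cases h : u ≤ s
      · rw [if_pos h]
        exact h2 u (by omega)
      · rw [if_neg h]
        exact h2 _ (by omega)
    · intro u hu
      show Kr (if u ≤ s then p u else p (u + (t - s - 1)))
        (if u + 1 ≤ s then p (u + 1) else p (u + 1 + (t - s - 1)))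
      by_cases h : u + 1 ≤ s
      · rw [if_pos h, if_pos (by omega)]
        exact h3 u (by omega)
      · rw [if_neg h]
        by_cases h' : u = s
        · rw [if_pos h'.le, h', show s + 1 + (t - s - 1) = t by omega]
          exact hK
        · rw [if_neg (by omega), show u + 1 + (t - s - 1) = u + (t - s - 1) + 1 by omega]
          exact h3 _ (by omega)
  refine ⟨m, p, h0, h1, h2, h3, k1, ?_, ?_⟩
  · intro s t hst htm hQ
    have hs := h2 s (by omega)
    have ht := h2 t htm
    rcases Nat.lt_or_ge t (s + 2) with h | h
    · have : t = s + 1 := by omega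
      rw [this] at hQ ht
      exact hQn _ hs _ ht hQ (h3 s (by omega))
    · rcases Nat.lt_or_ge t m with h' | h'
      · have hK := h3 t h'
        exact k1 s (t + 1) (by omega) (by omega)
          (hQK _ ht _ hs _ (h2 _ (by omega)) (hQs _ hs _ ht hQ) hK)
      · have htm' : t = m := by omega
        rcases Nat.eq_zero_or_pos s with h'' | h''
        · rw [h'', htm', h0, h1] at hQ
          exact had hQ
        · have hK := h3 (s - 1) (by omega)
          rw [Nat.sub_add_cancel h''] at hK
          have hs1 := h2 (s - 1) (by omega)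
          have hK2 := hQK _ hs _ ht _ hs1 hQ (hKs _ hs1 _ hs hK)
          exact k1 (s - 1) t (by omega) htm (hKs _ ht _ hs1 hK2)
  · intro t ht y hy w1 w2 e1 e2
    by_contra hW
    have hpath : Sht_P L a d Kr m (Function.update p (t + 1) y) := by
      refine ⟨?_, ?_, ?_, ?_⟩
      · rw [Function.update_of_ne (by omega)]
        exact h0
      · rw [Function.update_of_ne (by omega)]
        exact h1
      · intro u hu
        by_cases h : u = t + 1
        · rw [h, Function.update_self]
          exact hy
        · rw [Function.update_of_ne h]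
          exact h2 u hu
      · intro u hu
        by_cases h : u = t + 1
        · rw [h, Function.update_self, Function.update_of_ne (by omega)]
          exact e2
        · rw [Function.update_of_ne h]
          by_cases h' : u = t
          · rw [h', Function.update_self]
            exact e1
          · rw [Function.update_of_ne (by omega)]
            exact h3 u hu
    have hle := hpc _ hpath
    have hlt : Sht_c Wr m (Function.update p (t + 1) y) < Sht_c Wr m p := by
      unfold Sht_c
      apply Finset.card_lt_card
      rw [Finset.ssubset_iff_of_subset]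
      · refine ⟨t, ?_, ?_⟩
        · rw [Finset.mem_filter, Finset.mem_range]
          exact ⟨by omega, w1⟩
        · rw [Finset.mem_filter, not_and]
          intro _
          rw [Function.update_of_ne (by omega), Function.update_self]
          exact hW
      · intro u hu
        rw [Finset.mem_filter, Finset.mem_range] at hu ⊢
        refine ⟨hu.1, ?_⟩
        by_cases h : u = t + 1
        · rw [h]
          exact w2
        · by_cases h' : u = t
          · rw [h']
            exact w1
          · have := hu.2
            rw [Function.update_of_ne h, Function.update_of_ne (by omega)] at this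
            exact this
    omega

end Pool.Agent.MPd439b2.F1
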