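import Pool.Agent.Lib.MP_d439b2_co.W.RamC
import Pool.Agent.Lib.MP_d439b2_co.F1.Ra
import Pool.Agent.Lib.MP_d439b2_co.F1.Ki
import Pool.Agent.Lib.MP_d439b2_co.F1.Cor
import Pool.Agent.Lib.MP_d439b2_co.F1.Sep
import Pool.Agent.Lib.MP_d439b2_co.F1.Rw1
import Pool.Agent.Lib.MP_d439b2_co.F1.Rw2
import Pool.Agent.Lib.MP_d439b2_co.F1.Sht
import Pool.Agent.Lib.MP_d439b2_co.F1.Pth
import Pool.Agent.Lib.MP_d439b2_co.F1.PthH
import Pool.Agent.Lib.MP_d439b2_co.F1.Mn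
import Pool.Agent.Lib.MP_d439b2_co.F1.Out
import Pool.Agent.Lib.MP_d439b2_co.F1.F1
import Pool.Agent.Lib.MP_d439b2_co.F1.Cq
import Pool.Agent.Lib.MP_d439b2_co.F1.F2
import Pool.Agent.Lib.MP_d439b2_co.F1.ClQ
import Pool.Agent.Lib.MP_d439b2_co.F1.Clo

/-!
# MP_d439b2_co, F1: the final statements (helper40; modules by helper12, helper17, helper24, helper44, helper91,
helper96, helper98)
-/

set_option autoImplicit false

namespace Pool.Agent.MPd439b2.F1

open Pool.Agent.MPd439b2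

theorem rw1 : S_Rw1 := pRw1 W.ramC pSep

theorem rw2 : S_Rw2 := pRw2 (pRa W.ramC) pKi pCor

/-- **closed bundles with a stable base** -/
theorem f1 : S_F1 := pF1 rw1 rw2 (pPth pKi pSht pf2) pLen (pClo pKi pMn) pOut

/-- **closed bundles of clique chains** -/
theorem cq : S_Cq := pCq rw1 rw2 (pPthH pSht) pLen pClQ

end Pool.Agent.MPd439b2.F1
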