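import Pool.Agent.Lib.MP_d439b2_co.F1.Tab

/-!
# MP_d439b2_co, F1: closed chordless tracks with a stable base, preparations (helper40)
-/

set_option autoImplicit false

namespace Pool.Agent.MPd439b2.F1

open Pool.Agent.MPd439b2 Pool.Agent.MPd439b2.X2 Pool.Agent.MPd439b2.BT

variable {V : Type} {n : ℕ}

/-- the bits of the rails `0, .., m` -/
def rg (m : ℕ) : List ℕ :=
  (List.range (m + 1)).flatMap fun s => (List.range (m + 1)).flatMap fun t => [16 * s + t, 256 + 16 * s + t]

theorem tb_rg {E D E' D' : ℕ → ℕ → Bool} {m : ℕ} (hm : m < 16)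
    (hE : ∀ s ≤ m, ∀ t ≤ m, E' s t = E s t) (hD : ∀ s ≤ m, ∀ t ≤ m, D' s t = D s t) :
    ∀ b ∈ rg m, tb E' D' b = tb E D b := by
  intro b hb
  obtain ⟨s, hs, hb⟩ := List.mem_flatMap.1 hb
  obtain ⟨t, ht, hb⟩ := List.mem_flatMap.1 hb
  rw [List.mem_range] at hs ht
  simp only [List.mem_cons, List.not_mem_nil, or_false] at hb
  rcases hb with rfl | rfl
  · rw [tb_e _ _ (by omega) (by omega), tb_e _ _ (by omega) (by omega)]
    exact hE s (by omega) t (by omega)
  · rw [tb_d _ _ (by omega), tb_d _ _ (by omega)]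
    exact hD s (by omega) t (by omega)

theorem mt_tr {P N P' N' : ℕ} {F F' : ℕ → Bool} (h : FT.Mt P N F) {l : List ℕ}
    (he : ∀ b ∈ l, F' b = F b) (h1 : P &&& P' = P') (h2 : N &&& N' = N') (h3 : FT.mk l &&& P' = P')
    (h4 : FT.mk l &&& N' = N') : FT.Mt P' N' F' := by
  have h5 := h.sub h1 h2
  refine ⟨fun b hb => ?_, fun b hb => ?_⟩
  · have h6 : (FT.mk l).testBit b = true := by
      have h7 := hb
      rw [← h3, Nat.testBit_and, Bool.and_eq_true] at h7
      exact h7.1
    rw [he b ((FT.testBit_mk l b).1 h6)]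
    exact h5.1 b hb
  · have h6 : (FT.mk l).testBit b = true := by
      have h7 := hb
      rw [← h4, Nat.testBit_and, Bool.and_eq_true] at h7
      exact h7.1
    rw [he b ((FT.testBit_mk l b).1 h6)]
    exact h5.2 b hb

/-! ### systems of rows -/

theorem Sy.dsym {S : St V n} {G : SimpleGraph V} {L M : ℕ} {x : ℕ → ℕ → V} {E D Q X : ℕ → ℕ → Bool}
    (h : Sy S G L M x E D Q X) (hM : 0 < M) {i j : ℕ} (hi : i < L) (hj : j < L) : D i j = D j i := by
  have h1 := h.dg i hi j hj 0 hM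
  have h2 := h.dg j hj i hi 0 hM
  rw [SimpleGraph.adj_comm, h2] at h1
  exact (Bool.eq_iff_iff.2 h1).symm

/-- rows of one class -/
theorem Sy.ty {S : St V n} {G : SimpleGraph V} {L M : ℕ} {x : ℕ → ℕ → V} {E D Q X : ℕ → ℕ → Bool}
    (h : Sy S G L M x E D Q X) (hM : 2 ≤ M) {i j : ℕ} (hi : i < L) (hj : j < L)
    (hc : S.c (x i 0) = S.c (x j 0)) : E i j = S.t (S.c (x i 0)) := by
  have h1 := h.rel i hi j hj 0 1 Nat.zero_lt_one (by omega)
  have h2 := h.exc i hi j hj 0 (by omega) 1 (by omega) (by omega)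
  have h3 := h.neq i hi j hj 0 (by omega) 1 (by omega) (by omega)
  have h4 := h.cls j hj 0 (by omega) 1 (by omega)
  unfold BT.Exc at h2
  rw [not_not] at h2
  rw [← h2, S.typ _ _ h3 (hc.trans h4)] at h1
  exact (Bool.eq_iff_iff.2 h1).symm

/-- rows as rails -/
theorem Sy.hr {S : St V n} {G : SimpleGraph V} {L M : ℕ} {x : ℕ → ℕ → V} {E D Q X : ℕ → ℕ → Bool}
    (h : Sy S G L M x E D Q X) (hM : 16 ≤ M) {L' : ℕ} {p : ℕ → ℕ} (hp : ∀ t < L', p t < L)
    (hq : ∀ s < L', ∀ t < L', s ≠ t → Q (p s) (p t) = false) (hL : L' ≤ 16) :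
    FT.HR G L' 16 (fun t k => x (p t) k) (tb (fun s t => E (p s) (p t)) (fun s t => D (p s) (p t))) := by
  refine ⟨fun i hi j hj k hk l hl hkl => ?_, fun i hi j hj k l hkl hl => ?_, fun i hi j hj hij k hk => ?_⟩
  · by_cases he : k = l
    · subst he
      intro h1
      have h2 := (h.eq (p i) (hp i hi) (p j) (hp j hj) k (by omega)).1 h1
      rw [hq i hi j hj (by omega)] at h2
      exact absurd h2 (by decide)
    · exact h.neq (p i) (hp i hi) (p j) (hp j hj) k (by omega) l (by omega) he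
  · rw [tb_e _ _ (by omega) (by omega)]
    exact h.rel (p i) (hp i hi) (p j) (hp j hj) k l hkl (by omega)
  · rw [tb_d _ _ (by omega)]
    exact h.dg (p i) (hp i hi) (p j) (hp j hj) k (by omega)

/-! ### excluded tables -/

/-- the excluded tables of closed chordless tracks -/
def cK (m : ℕ) (o : Bool) : List (ℕ × ℕ) :=
  ((List.range (m - 1)).flatMap fun t => m8 (16 * 0 + (t + 1)) (16 * (t + 1) + 0)
    (bif o then 16 * m + (t + 1) else 16 * (t + 1) + m) (bif o then 16 * (t + 1) + m else 16 * m + (t + 1))) ++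
  eeK m

/-- monotonicity as a statement on bits -/
theorem mo_no {E D : ℕ → ℕ → Bool} {m u : ℕ} {o : Bool} (hm : m < 16) (hu : u < 16)
    (h : M4 (E 0 u) (E u 0) (bif o then E m u else E u m) (bif o then E u m else E m u)) :
    ∀ k ∈ m8 (16 * 0 + u) (16 * u + 0) (bif o then 16 * m + u else 16 * u + m)
      (bif o then 16 * u + m else 16 * m + u), ¬ FT.Mt k.1 k.2 (tb E D) := by
  apply m8_no
  have e1 : tb E D (16 * 0 + u) = E 0 u := tb_e E D (by omega) (by omega)
  have e2 : tb E D (16 * u + 0) = E u 0 := tb_e E D (by omega) (by omega)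
  have e3 : tb E D (16 * m + u) = E m u := tb_e E D (by omega) (by omega)
  have e4 : tb E D (16 * u + m) = E u m := tb_e E D (by omega) (by omega)
  cases o
  · simp only [cond_false] at h ⊢
    rw [e1, e2, e3, e4]
    exact h
  · simp only [cond_true] at h ⊢
    rw [e1, e2, e3, e4]
    exact h

theorem cK_no {G : SimpleGraph V} {M m : ℕ} {z : ℕ → ℕ → V} {E D : ℕ → ℕ → Bool} {o : Bool}
    (h : Tk G M m z E D) (hm : m < 16)
    (hmo : ∀ u < m, 0 < u → M4 (E 0 u) (E u 0) (bif o then E m u else E u m) (bif o then E u m else E m u)) :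
    ∀ k ∈ cK m o, ¬ FT.Mt k.1 k.2 (tb E D) := by
  intro k hk
  rcases List.mem_append.1 hk with hk | hk
  · obtain ⟨t, ht, hk⟩ := List.mem_flatMap.1 hk
    rw [List.mem_range] at ht
    exact mo_no hm (by omega) (hmo (t + 1) (by omega) (by omega)) k hk
  · exact ee_no h hm k hk

/-- the excluded tables for a link of the rails `j` and `w` -/
def lK (j w : ℕ) : List (ℕ × ℕ) :=
  [(FT.mk [256 + 16 * j + w], FT.mk [16 * j + w, 16 * w + j]),
    (FT.mk [16 * j + w, 16 * w + j], FT.mk [256 + 16 * j + w, 17 * j, 17 * w]),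
    (FT.mk [16 * j + w, 16 * w + j, 17 * j, 17 * w], FT.mk [256 + 16 * j + w])]

theorem lK_no {E D : ℕ → ℕ → Bool} {j w : ℕ} (hj : j < 16) (hw : w < 16)
    (h : (E j w = E w j ∧ D j w = E j w) ∨ Hf E j w ∨ (E j w = true ∧ E w j = true ∧ D j w = false ∧
      E j j ≠ E w w)) : ∀ k ∈ lK j w, ¬ FT.Mt k.1 k.2 (tb E D) := by
  intro k hk hM
  simp only [lK, List.mem_cons, List.not_mem_nil, or_false] at hk
  unfold Hf at h
  rcases hk with rfl | rfl | rfl <;>
    obtain ⟨h1, h2⟩ := mt_mk hM <;> simp only [List.forall_mem_cons, List.not_mem_nil,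
      IsEmpty.forall_iff, implies_true, and_true] at h1 h2 <;>
    simp only [tb_e E D hj hw, tb_e E D hw hj, tb_d E D hw, tb_t E D hj, tb_t E D hw] at h1 h2 <;>
    rcases h with h | h | h <;> simp_all

/-- the excluded tables with a witness: the rail `m + 1` is half to the rail `e` -/
def wK (m : ℕ) (o : Bool) (e : ℕ) : List (ℕ × ℕ) :=
  ((List.range (m - 1)).flatMap fun t => m8 (16 * 0 + (t + 1)) (16 * (t + 1) + 0)
    (bif o then 16 * m + (t + 1) else 16 * (t + 1) + m) (bif o then 16 * (t + 1) + m else 16 * m + (t + 1))) ++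
  (m8 (16 * 0 + (m + 1)) (16 * (m + 1) + 0)
    (bif o then 16 * m + (m + 1) else 16 * (m + 1) + m) (bif o then 16 * (m + 1) + m else 16 * m + (m + 1)) ++
  (((List.range (m + 1)).flatMap fun j => lK j (m + 1)) ++
    [(0, FT.mk [16 * e + (m + 1), 16 * (m + 1) + e]), (FT.mk [16 * e + (m + 1), 16 * (m + 1) + e], 0)]))

theorem wK_no {E D : ℕ → ℕ → Bool} {m e : ℕ} {o : Bool} (hm : m < 15) (he : e < 16)
    (hmo : ∀ u, (0 < u ∧ u < m ∨ u = m + 1) →
      M4 (E 0 u) (E u 0) (bif o then E m u else E u m) (bif o then E u m else E m u))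
    (hl : ∀ j ≤ m, (E j (m + 1) = E (m + 1) j ∧ D j (m + 1) = E j (m + 1)) ∨ Hf E j (m + 1) ∨
      (E j (m + 1) = true ∧ E (m + 1) j = true ∧ D j (m + 1) = false ∧ E j j ≠ E (m + 1) (m + 1)))
    (hh : Hf E e (m + 1)) : ∀ k ∈ wK m o e, ¬ FT.Mt k.1 k.2 (tb E D) := by
  intro k hk
  rcases List.mem_append.1 hk with hk | hk
  · obtain ⟨t, ht, hk⟩ := List.mem_flatMap.1 hk
    rw [List.mem_range] at ht
    exact mo_no (by omega) (by omega) (hmo (t + 1) (Or.inl (by omega))) k hk
  rcases List.mem_append.1 hk with hk | hk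
  · exact mo_no (by omega) (by omega) (hmo (m + 1) (Or.inr rfl)) k hk
  rcases List.mem_append.1 hk with hk | hk
  · obtain ⟨j, hj, hk⟩ := List.mem_flatMap.1 hk
    rw [List.mem_range] at hj
    exact lK_no (by omega) (by omega) (hl j (by omega)) k hk
  · intro hM
    have e1 : tb E D (16 * e + (m + 1)) = E e (m + 1) := tb_e E D he (by omega)
    have e2 : tb E D (16 * (m + 1) + e) = E (m + 1) e := tb_e E D (by omega) he
    simp only [List.mem_cons, List.not_mem_nil, or_false] at hk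
    rcases hk with rfl | rfl
    · have h2 : ∀ b ∈ [16 * e + (m + 1), 16 * (m + 1) + e], tb E D b = false :=
        fun b hb => hM.2 b ((FT.testBit_mk _ b).2 hb)
      have h3 := h2 (16 * e + (m + 1)) (by simp)
      have h4 := h2 (16 * (m + 1) + e) (by simp)
      rw [e1] at h3
      rw [e2] at h4
      exact hh (h3.trans h4.symm)
    · have h2 : ∀ b ∈ [16 * e + (m + 1), 16 * (m + 1) + e], tb E D b = true :=
        fun b hb => hM.1 b ((FT.testBit_mk _ b).2 hb)
      have h3 := h2 (16 * e + (m + 1)) (by simp)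
      have h4 := h2 (16 * (m + 1) + e) (by simp)
      rw [e1] at h3
      rw [e2] at h4
      exact hh (h3.trans h4.symm)

/-- the table of a rainbow from masks -/
theorem ou_tab {E D : ℕ → ℕ → Bool} {P N : ℕ} (hM : FT.Mt P N (tb E D)) {f : ℕ → ℕ}
    (hf : ∀ j < 5, f j < 16)
    (hck : ∀ i < 5, ∀ j < 5, (bif CE.rb j i then P.testBit (16 * f i + f j)
      else N.testBit (16 * f i + f j)) = true) : ∀ i < 5, ∀ j < 5, E (f i) (f j) = CE.rb j i := by
  intro i hi j hj
  have h1 := hck i hi j hj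
  rw [← tb_e E D (hf i hi) (hf j hj)]
  rcases hr : CE.rb j i with _ | _
  · rw [hr, cond_false] at h1
    exact hM.2 _ h1
  · rw [hr, cond_true] at h1
    exact hM.1 _ h1

end Pool.Agent.MPd439b2.F1
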