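import Pool.Agent.Lib.MP_d439b2_co.BT.Graph
import Pool.Agent.Lib.MP_d439b2_co.BT.SpecB
import Pool.Agent.Lib.MP_d439b2_co.CE.Defs
import Pool.Agent.Lib.MP_d439b2_co.FT.Tgt
import Pool.Agent.Lib.MP_d439b2_co.Rep.RowX

/-!
# MP_d439b2_co, F1: from closed bundles of the block graph to rainbows of the graph, definitions (helper40)

Systems of rows extracted from bundles (`Rw`), homogeneous systems of rows (`Sy`), links (`Lk`, `Hf`), chordless
tracks (`Tk`), monotonicity along the base (`Mo`), the conclusion (`Ou`).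
-/

set_option autoImplicit false

namespace Pool.Agent.MPd439b2.F1

open Pool.Agent.MPd439b2 Pool.Agent.MPd439b2.X2 Pool.Agent.MPd439b2.BT

variable {V : Type} {n : ℕ}

/-- the excluded patterns -/
structure Fr3 (G : SimpleGraph V) (m₀ : ℕ) : Prop where
  hH : ¬ IMS (KA 3 3 ![{0}, {1}, {0, 2}]) G Set.univ
  hJ : ¬ IMS (F9.JS ![0, 1, 1] 2) G Set.univ
  nt : Rep.NoTP G m₀ true false false

/-- `y` separates the windows `0, .., k` from the windows `k + 1, .., M - 1` of a rail, given by the nodes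
`A 0, B 0, A 1, B 1, ..` -/
def Spt (S : St V n) (M : ℕ) (A B : ℕ → V) (k : ℕ) (y : V) : Prop :=
  ∃ τ : Prop, ∀ l < M, ∀ v : V, (bl S v = A l ∨ bl S v = B l) →
    (l ≤ k → (S.G.Adj v y ↔ τ)) ∧ (k < l → (S.G.Adj v y ↔ ¬ τ))

/-- **The rows of a bundle** with `r` steps: for `j < r` the row `2 j` consists of the vertices by which the tracks leave
the rail `j`, the row `2 j + 1` of the vertices by which they enter the rail `j + 1`; for `j ≤ r` the row `2 r + j`
consists of separators of the rail `j` -/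
structure Rw (S : St V n) (G : SimpleGraph V) (M r : ℕ) (A B : ℕ → ℕ → V) (χ : ℕ → Fin n)
    (x : ℕ → ℕ → V) : Prop where
  cls : ∀ i < 3 * r + 1, ∀ k < M, ∀ l < M, S.c (x i k) = S.c (x i l)
  inj : ∀ i < 3 * r + 1, ∀ k < M, ∀ l < M, x i k = x i l → k = l
  le : ∀ j < r, ∀ k < M, bl S (x (2 * j) k) = B k j ∧ S.c (x (2 * j) k) = χ j
  en : ∀ j < r, ∀ k < M, bl S (x (2 * j + 1) k) = A k (j + 1) ∧ S.c (x (2 * j + 1) k) = χ (j + 1)
  stp : ∀ j < r, ∀ k < M, BT.Exc S G (x (2 * j) k) (x (2 * j + 1) k) ∨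
    (Nd S (x (2 * j) k) ∧ Nd S (x (2 * j + 1) k) ∧ Cn S (x (2 * j) k) (x (2 * j + 1) k))
  sep : ∀ j ≤ r, ∀ k, k + 1 < M → S.c (x (2 * r + j) k) ≠ χ j ∧
    Spt S M (fun l => A l j) (fun l => B l j) k (x (2 * r + j) k)

/-- **Homogeneous system of rows**: `L` rows with `M` indices; every row is in one class of `S` and monotone for `ρ`;
vertices with different indices are different; `E i j`: adjacency of `x i k` and `x j l` for `k < l`; `D i j`: for
`k = l`; `Q i j`: the rows `i` and `j` are equal; exceptional pairs have the same index, and `X i j` says whether the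
pairs `x i k`, `x j k` are exceptional -/
structure Sy (S : St V n) (G : SimpleGraph V) (L M : ℕ) (x : ℕ → ℕ → V) (E D Q X : ℕ → ℕ → Bool) :
    Prop where
  cls : ∀ i < L, ∀ k < M, ∀ l < M, S.c (x i k) = S.c (x i l)
  neq : ∀ i < L, ∀ j < L, ∀ k < M, ∀ l < M, k ≠ l → x i k ≠ x j l
  eq : ∀ i < L, ∀ j < L, ∀ k < M, (x i k = x j k ↔ Q i j = true)
  rel : ∀ i < L, ∀ j < L, ∀ k l, k < l → l < M → (G.Adj (x i k) (x j l) ↔ E i j = true)
  dg : ∀ i < L, ∀ j < L, ∀ k < M, (G.Adj (x i k) (x j k) ↔ D i j = true)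
  exc : ∀ i < L, ∀ j < L, ∀ k < M, ∀ l < M, k ≠ l → ¬ BT.Exc S G (x i k) (x j l)
  exd : ∀ i < L, ∀ j < L, ∀ k < M, (BT.Exc S G (x i k) (x j k) ↔ X i j = true)
  mon : ∀ i < L, (∀ k l, k < l → l < M → S.ρ (x i k) < S.ρ (x i l)) ∨
    ∀ k l, k < l → l < M → S.ρ (x i l) < S.ρ (x i k)

/-- the rows `i` and `j` are different and neither complete nor anticomplete to each other -/
def Lk (E D Q : ℕ → ℕ → Bool) (i j : ℕ) : Prop := Q i j = false ∧ ¬ (E i j = E j i ∧ D i j = E i j)

/-- the rows `i` and `j` form a half graph -/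
def Hf (E : ℕ → ℕ → Bool) (i j : ℕ) : Prop := E i j ≠ E j i

/-- **Chordless track** with the rails `z 0, .., z m` (`M` indices); the steps are half graphs or co-matchings between
rails of different types; no two consecutive steps are co-matchings -/
structure Tk (G : SimpleGraph V) (M m : ℕ) (z : ℕ → ℕ → V) (E D : ℕ → ℕ → Bool) : Prop where
  dis : ∀ s ≤ m, ∀ t ≤ m, ∀ k < M, ∀ l < M, (s ≠ t ∨ k ≠ l) → z s k ≠ z t l
  rel : ∀ s ≤ m, ∀ t ≤ m, ∀ k l, k < l → l < M → (G.Adj (z s k) (z t l) ↔ E s t = true)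
  dg : ∀ s ≤ m, ∀ t ≤ m, s < t → ∀ k < M, (G.Adj (z s k) (z t k) ↔ D s t = true)
  cn : ∀ s t, s + 2 ≤ t → t ≤ m → E s t = E t s ∧ D s t = E s t
  st : ∀ t < m, Hf E t (t + 1) ∨ (E t (t + 1) = true ∧ E (t + 1) t = true ∧ D t (t + 1) = false ∧
    E t t ≠ E (t + 1) (t + 1))
  ee : ∀ t, t + 2 ≤ m → Hf E t (t + 1) ∨ Hf E (t + 1) (t + 2)

/-- a truth value which is monotone in four steps -/
def M4 (a b c d : Bool) : Prop :=
  (b = true → a = true) ∧ (c = true → b = true) ∧ (d = true → c = true) ∨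
    (a = true → b = true) ∧ (b = true → c = true) ∧ (c = true → d = true)

/-- **Monotonicity** of the row `u` along the base, which consists of the row `0` (increasing) and the row `m`
(increasing iff `o = true`) behind it -/
def Mo (E : ℕ → ℕ → Bool) (m : ℕ) (o : Bool) (u : ℕ) : Prop :=
  M4 (E 0 u) (E u 0) (bif o then E m u else E u m) (bif o then E u m else E m u)

/-- **Base**: the rows `a` and `d` are in the class `i`, the first one increases, all its vertices are before those of the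
last row; `o`: the last row increases -/
structure Ba (S : St V n) (i : Fin n) (M : ℕ) (x : ℕ → ℕ → V) (a d : ℕ) (o : Bool) : Prop where
  c0 : ∀ k < M, S.c (x a k) = i
  c1 : ∀ k < M, S.c (x d k) = i
  inc : ∀ k l, k < l → l < M → S.ρ (x a k) < S.ρ (x a l)
  mon : ∀ k l, k < l → l < M → bif o then S.ρ (x d k) < S.ρ (x d l) else S.ρ (x d l) < S.ρ (x d k)
  bet : ∀ k < M, ∀ l < M, S.ρ (x a k) < S.ρ (x d l)

/-- **Outcome**: five rows with the table of a rainbow (reversed: the index increases inward).  The rows `q 2` and `q 4`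
may coincide -/
structure Ou (L : ℕ) (E D X : ℕ → ℕ → Bool) (a d : ℕ) (σ : Bool) (q : ℕ → ℕ) : Prop where
  lt : ∀ j < 5, q j < L
  tab : ∀ i < 5, ∀ j < 5, E (q i) (q j) = CE.rb j i
  dcs : D (q 1) (q 2) = false
  xcs : X (q 1) (q 2) = true
  lft : q (bif σ then 0 else 4) = a
  rgt : q (bif σ then 4 else 0) = d

end Pool.Agent.MPd439b2.F1
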