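import Pool.Agent.Lib.MP_d439b2_co.F1.Spec

/-!
# MP_d439b2_co, F1: monotonicity along the base (statement and proof by helper40)
-/

set_option autoImplicit false

namespace Pool.Agent.MPd439b2.F1

open Pool.Agent.MPd439b2 Pool.Agent.MPd439b2.X2 Pool.Agent.MPd439b2.BT

private theorem Mn_four {V : Type} {n : ℕ} (S : St V n) (i : Fin n) (z v0 v1 v2 v3 : V)
    (b0 b1 b2 b3 : Bool) (c0 : S.c v0 = i) (c1 : S.c v1 = i) (c2 : S.c v2 = i) (c3 : S.c v3 = i)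
    (r0 : S.ρ v0 < S.ρ v1) (r1 : S.ρ v1 < S.ρ v2) (r2 : S.ρ v2 < S.ρ v3)
    (n0 : v0 ≠ z) (n1 : v1 ≠ z) (n2 : v2 ≠ z) (n3 : v3 ≠ z)
    (h0 : S.G.Adj v0 z ↔ b0 = true) (h1 : S.G.Adj v1 z ↔ b1 = true)
    (h2 : S.G.Adj v2 z ↔ b2 = true) (h3 : S.G.Adj v3 z ↔ b3 = true) : M4 b0 b1 b2 b3 := by
  unfold M4
  rw [← h0, ← h1, ← h2, ← h3]
  by_cases hz : S.c z = i
  · rw [S.typ v0 z n0 (c0.trans hz.symm), S.typ v1 z n1 (c1.trans hz.symm),
      S.typ v2 z n2 (c2.trans hz.symm), S.typ v3 z n3 (c3.trans hz.symm), c0, c1, c2, c3]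
    exact Or.inl ⟨id, id, id⟩
  · have hd : ∀ v v' : V, S.c v = i → S.c v' = i → S.ρ v < S.ρ v' → S.s i (S.c z) = true →
        S.G.Adj v' z → S.G.Adj v z := by
      intro v v' h h' hr hs
      exact S.dn v v' z (h.trans h'.symm) hr (by rw [h]; exact hz) (by rw [h]; exact hs)
    have hu : ∀ v v' : V, S.c v = i → S.c v' = i → S.ρ v < S.ρ v' → S.s i (S.c z) = false →
        S.G.Adj v z → S.G.Adj v' z := by
      intro v v' h h' hr hs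
      exact S.up v v' z (h.trans h'.symm) hr (by rw [h]; exact hz) (by rw [h]; exact hs)
    cases hs : S.s i (S.c z)
    · exact Or.inr ⟨hu _ _ c0 c1 r0 hs, hu _ _ c1 c2 r1 hs, hu _ _ c2 c3 r2 hs⟩
    · exact Or.inl ⟨hd _ _ c0 c1 r0 hs, hd _ _ c1 c2 r1 hs, hd _ _ c2 c3 r2 hs⟩

theorem pMn : S_Mn := by
  intro V n S G L M x E D Q X i a d o h hM ha hd hb u hu
  have k0 : 0 < M := by omega
  have k1 : 1 < M := by omega
  have k2 : 2 < M := by omega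
  have e0 : ∀ j < L, (S.G.Adj (x j 0) (x u 1) ↔ E j u = true) := fun j hj =>
    (not_not.mp (h.exc j hj u hu 0 k0 1 k1 (by omega))).trans (h.rel j hj u hu 0 1 (by omega) k1)
  have e2 : ∀ j < L, (S.G.Adj (x j 2) (x u 1) ↔ E u j = true) := fun j hj =>
    (not_not.mp (h.exc j hj u hu 2 k2 1 k1 (by omega))).trans
      ((SimpleGraph.adj_comm _ _ _).trans (h.rel u hu j hj 1 2 (by omega) k2))
  have n0 : ∀ j < L, x j 0 ≠ x u 1 := fun j hj => h.neq j hj u hu 0 k0 1 k1 (by omega)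
  have n2 : ∀ j < L, x j 2 ≠ x u 1 := fun j hj => h.neq j hj u hu 2 k2 1 k1 (by omega)
  have hm := hb.mon 0 2 (by omega) k2
  cases o
  · simp only [cond_false] at hm ⊢
    exact Mn_four S i (x u 1) (x a 0) (x a 2) (x d 2) (x d 0) _ _ _ _ (hb.c0 0 k0) (hb.c0 2 k2)
      (hb.c1 2 k2) (hb.c1 0 k0) (hb.inc 0 2 (by omega) k2) (hb.bet 2 k2 2 k2) hm (n0 a ha) (n2 a ha)
      (n2 d hd) (n0 d hd) (e0 a ha) (e2 a ha) (e2 d hd) (e0 d hd)
  · simp only [cond_true] at hm ⊢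
    exact Mn_four S i (x u 1) (x a 0) (x a 2) (x d 0) (x d 2) _ _ _ _ (hb.c0 0 k0) (hb.c0 2 k2)
      (hb.c1 0 k0) (hb.c1 2 k2) (hb.inc 0 2 (by omega) k2) (hb.bet 2 k2 0 k0) hm (n0 a ha) (n2 a ha)
      (n0 d hd) (n2 d hd) (e0 a ha) (e2 a ha) (e0 d hd) (e2 d hd)

end Pool.Agent.MPd439b2.F1
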