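import Pool.Agent.Lib.MP_d439b2_co.F1.Spec
import Pool.Agent.Lib.MP_d439b2_co.FT.F2w
import Pool.Agent.Lib.MP_d439b2_co.FV.T10

/-!
# MP_d439b2_co, F1: from tracks to the tables of FV (helper40)
-/

set_option autoImplicit false

namespace Pool.Agent.MPd439b2.F1

open Pool.Agent.MPd439b2 Pool.Agent.MPd439b2.X2 Pool.Agent.MPd439b2.BT

variable {V : Type} {n : ℕ}

/-- the table of bits of two functions -/
def tb (E D : ℕ → ℕ → Bool) (b : ℕ) : Bool :=
  if b < 256 then E (b / 16) (b % 16) else D ((b - 256) / 16) ((b - 256) % 16)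

theorem tb_e (E D : ℕ → ℕ → Bool) {i j : ℕ} (hi : i < 16) (hj : j < 16) :
    tb E D (16 * i + j) = E i j := by
  unfold tb
  rw [if_pos (by omega), show (16 * i + j) / 16 = i by omega, show (16 * i + j) % 16 = j by omega]

theorem tb_d (E D : ℕ → ℕ → Bool) {i j : ℕ} (hj : j < 16) :
    tb E D (256 + 16 * i + j) = D i j := by
  unfold tb
  rw [if_neg (by omega), show (256 + 16 * i + j - 256) / 16 = i by omega,
    show (256 + 16 * i + j - 256) % 16 = j by omega]

theorem tb_t (E D : ℕ → ℕ → Bool) {i : ℕ} (hi : i < 16) : tb E D (17 * i) = E i i := by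
  rw [show 17 * i = 16 * i + i by omega]
  exact tb_e E D hi hi

/-- the rails of a track -/
theorem Tk.hr {G : SimpleGraph V} {M m : ℕ} {z : ℕ → ℕ → V} {E D : ℕ → ℕ → Bool} (h : Tk G M m z E D)
    (hM : 16 ≤ M) {L : ℕ} (hL : L ≤ m + 1) (hL' : L ≤ 16) : FT.HR G L 16 z (tb E D) := by
  refine ⟨fun i hi j hj k hk l hl hkl => h.dis i (by omega) j (by omega) k (by omega) l (by omega) hkl,
    fun i hi j hj k l hkl hl => ?_, fun i hi j hj hij k hk => ?_⟩
  · rw [tb_e E D (by omega) (by omega)]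
    exact h.rel i (by omega) j (by omega) k l hkl (by omega)
  · rw [tb_d E D (by omega)]
    exact h.dg i (by omega) j (by omega) hij k (by omega)

/-- the pairs in the mask `A` are pairs `i, j` with `P i j` -/
def ckP (P : ℕ → ℕ → Bool) (A : ℕ) : Bool :=
  (List.range 16).all fun i => (List.range 16).all fun j => !A.testBit (16 * i + j) || P i j

theorem ckP_ok {P : ℕ → ℕ → Bool} {A : ℕ} (h : ckP P A = true) {i j : ℕ}
    (hA : A.testBit (16 * i + j) = true) (hi : i < 16) (hj : j < 16) : P i j = true := by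
  have h1 := List.all_eq_true.1 h i (List.mem_range.2 hi)
  have h2 := List.all_eq_true.1 h1 j (List.mem_range.2 hj)
  rw [hA] at h2
  simpa using h2

/-- inclusion of lists of tables -/
def ckI (I K : List (ℕ × ℕ)) : Bool := I.all fun c => K.any fun k => Nat.beq c.1 k.1 && Nat.beq c.2 k.2

theorem ckI_ok {I K : List (ℕ × ℕ)} (h : ckI I K = true) {F : ℕ → Bool} (hK : ∀ k ∈ K, ¬ FT.Mt k.1 k.2 F) :
    ∀ c ∈ I, ¬ FT.Mt c.1 c.2 F := by
  intro c hc
  have h1 := List.all_eq_true.1 h c hc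
  obtain ⟨k, hk, h2⟩ := List.any_eq_true.1 h1
  rw [Bool.and_eq_true] at h2
  rw [Nat.eq_of_beq_eq_true h2.1, Nat.eq_of_beq_eq_true h2.2]
  exact hK k hk

/-- a table given by lists -/
theorem mt_mk {F : ℕ → Bool} {ps ns : List ℕ} (h : FT.Mt (FT.mk ps) (FT.mk ns) F) :
    (∀ b ∈ ps, F b = true) ∧ ∀ b ∈ ns, F b = false :=
  ⟨fun b hb => h.1 b ((FT.testBit_mk ps b).2 hb), fun b hb => h.2 b ((FT.testBit_mk ns b).2 hb)⟩

/-- the tables which are not monotone -/
def m8 (a b c d : ℕ) : List (ℕ × ℕ) :=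
  [(FT.mk [a, c], FT.mk [b]), (FT.mk [b], FT.mk [a, c]), (FT.mk [a, d], FT.mk [b]), (FT.mk [b], FT.mk [a, d]),
    (FT.mk [a, d], FT.mk [c]), (FT.mk [c], FT.mk [a, d]), (FT.mk [b, d], FT.mk [c]), (FT.mk [c], FT.mk [b, d])]

theorem m8_no {F : ℕ → Bool} {a b c d : ℕ} (h : M4 (F a) (F b) (F c) (F d)) :
    ∀ k ∈ m8 a b c d, ¬ FT.Mt k.1 k.2 F := by
  intro k hk hM
  simp only [m8, List.mem_cons, List.not_mem_nil, or_false] at hk
  rcases hk with rfl | rfl | rfl | rfl | rfl | rfl | rfl | rfl <;>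
    obtain ⟨h1, h2⟩ := mt_mk hM <;> simp only [List.forall_mem_cons, List.forall_mem_nil, List.not_mem_nil,
      IsEmpty.forall_iff, implies_true, and_true] at h1 h2 <;> unfold M4 at h <;> simp_all

/-- decreasing in four steps -/
def dn4 (a b c d : ℕ) : List (ℕ × ℕ) :=
  [(FT.mk [b], FT.mk [a]), (FT.mk [c], FT.mk [a]), (FT.mk [d], FT.mk [a]), (FT.mk [c], FT.mk [b]),
    (FT.mk [d], FT.mk [b]), (FT.mk [d], FT.mk [c])]

theorem dn4_no {F : ℕ → Bool} {a b c d : ℕ} (h1 : F b = true → F a = true) (h2 : F c = true → F b = true)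
    (h3 : F d = true → F c = true) : ∀ k ∈ dn4 a b c d, ¬ FT.Mt k.1 k.2 F := by
  intro k hk hM
  simp only [dn4, List.mem_cons, List.not_mem_nil, or_false] at hk
  rcases hk with rfl | rfl | rfl | rfl | rfl | rfl <;>
    obtain ⟨h4, h5⟩ := mt_mk hM <;> simp only [List.forall_mem_cons, List.forall_mem_nil, List.not_mem_nil,
      IsEmpty.forall_iff, implies_true, and_true] at h4 h5 <;> simp_all

/-! ### chordless tracks -/

/-- the tables with two consecutive co-matchings -/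
def eeK (m : ℕ) : List (ℕ × ℕ) :=
  (List.range (m - 1)).map fun t => (FT.mk [16 * t + (t + 1), 16 * (t + 1) + t, 16 * (t + 1) + (t + 2), 16 * (t + 2) + (t + 1)], 0)

theorem ee_no {G : SimpleGraph V} {M m : ℕ} {z : ℕ → ℕ → V} {E D : ℕ → ℕ → Bool} (h : Tk G M m z E D)
    (hm : m < 16) : ∀ k ∈ eeK m, ¬ FT.Mt k.1 k.2 (tb E D) := by
  intro k hk hM
  obtain ⟨t, ht, rfl⟩ := List.mem_map.1 hk
  rw [List.mem_range] at ht
  have h1 : ∀ b ∈ [16 * t + (t + 1), 16 * (t + 1) + t, 16 * (t + 1) + (t + 2), 16 * (t + 2) + (t + 1)],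
    tb E D b = true := fun b hb => hM.1 b ((FT.testBit_mk _ b).2 hb)
  simp only [List.forall_mem_cons, List.not_mem_nil, IsEmpty.forall_iff, implies_true, and_true] at h1
  rw [tb_e E D (by omega) (by omega), tb_e E D (by omega) (by omega), tb_e E D (by omega) (by omega),
    tb_e E D (by omega) (by omega)] at h1
  rcases h.ee t (by omega) with h2 | h2
  · exact h2 (h1.1.trans h1.2.1.symm)
  · exact h2 (h1.2.2.1.trans h1.2.2.2.symm)

/-- the hypotheses of the tables of chordless tracks -/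
theorem Tk.hy {G : SimpleGraph V} {M m : ℕ} {z : ℕ → ℕ → V} {E D : ℕ → ℕ → Bool} (h : Tk G M m z E D)
    {A B L : ℕ} {I K : List (ℕ × ℕ)} (hL : L ≤ m + 1) (hL' : L ≤ 16)
    (hA : ckP (fun i j => Nat.ble (i + 2) j && Nat.blt j L) A = true)
    (hB : ckP (fun i j => Nat.beq j (i + 1) && Nat.blt j L) B = true) (hI : ckI I K = true)
    (hK : ∀ k ∈ K, ¬ FT.Mt k.1 k.2 (tb E D)) : FV.Hy A B I (tb E D) := by
  refine ⟨fun i j h1 hi hj => ?_, fun i j h1 hi hj => ?_, ckI_ok hI hK⟩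
  · have h2 := ckP_ok hA h1 hi hj
    rw [Bool.and_eq_true, Nat.ble_eq, Nat.blt_eq] at h2
    obtain ⟨h3, h4⟩ := h.cn i j h2.1 (by omega)
    rw [tb_e E D hi hj, tb_e E D hj hi, tb_d E D hj]
    exact ⟨h3, h4⟩
  · have h2 := ckP_ok hB h1 hi hj
    rw [Bool.and_eq_true, Nat.blt_eq] at h2
    have h3 := Nat.eq_of_beq_eq_true h2.1
    subst h3
    rw [tb_e E D hi hj, tb_e E D hj hi, tb_d E D hj, tb_t E D hi, tb_t E D hj]
    rcases h.st i (by omega) with h4 | h4
    · unfold Hf at h4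
      cases h5 : E i (i + 1) <;> cases h6 : E (i + 1) i <;> simp_all
    · exact Or.inr (Or.inr h4)

theorem pLen : S_Len := by
  intro V G m₀ M m z E D hF hM hT
  by_contra hcon
  push Not at hcon
  have h1 : FV.HV G 10 16 0 z (tb E D) := FV.HV.of_hr (hT.hr hM (by omega) (by norm_num))
  refine FV.T10.no10 hF.hH hF.hJ h1 (hT.hy (L := 10) (K := []) (by omega) (by norm_num) (by decide +kernel)
    (by decide +kernel) (by decide +kernel) (by simp))

end Pool.Agent.MPd439b2.F1
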